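import Mathlib

/-!
# The real Gamma function: analyticity and size
-/

set_option autoImplicit false

open Set Filter Topology

namespace Pool.Agent.TH659.AQ

theorem gamma_an {x : ℝ} (hx : 0 < x) : AnalyticAt ℝ Real.Gamma x := by
  have hopen : IsOpen {z : ℂ | 0 < z.re} := isOpen_lt continuous_const Complex.continuous_re
  have h1 : DifferentiableOn ℂ Complex.Gamma {z : ℂ | 0 < z.re} := by
    intro z hz
    refine (Complex.differentiableAt_Gamma z ?_).differentiableWithinAt
    intro m hm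
    have hz' : 0 < z.re := hz
    rw [hm] at hz'
    simp at hz'
    have : (0 : ℝ) ≤ m := Nat.cast_nonneg m
    linarith
  have h2 : AnalyticAt ℂ Complex.Gamma (x : ℂ) := h1.analyticAt (hopen.mem_nhds (by simpa using hx))
  have h3 := h2.re_ofReal
  refine h3.congr ?_
  refine Eventually.of_forall fun y => ?_
  simp [Complex.Gamma_ofReal]

/-- the error term -/
noncomputable def GG (x : ℝ) : ℝ := Real.log (Real.Gamma x) - (x * Real.log x - x)

theorem GG_succ {x : ℝ} (hx : 0 < x) : GG (x + 1) - GG x = 1 - (x + 1) * (Real.log (x + 1) - Real.log x) := by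
  unfold GG
  rw [Real.Gamma_add_one hx.ne', Real.log_mul hx.ne' (Real.Gamma_pos_of_pos hx).ne']
  ring

theorem GG_step {x : ℝ} (hx : 1 ≤ x) : GG (x + 1) ≤ GG x ∧
    GG x + 2 * Real.log x ≤ GG (x + 1) + 2 * Real.log (x + 1) := by
  have hx0 : 0 < x := by linarith
  have h := GG_succ hx0
  have hdiv : Real.log (x + 1) - Real.log x = Real.log ((x + 1) / x) :=
    (Real.log_div (by linarith) hx0.ne').symm
  have h1 : 1 - ((x + 1) / x)⁻¹ ≤ Real.log ((x + 1) / x) := Real.one_sub_inv_le_log_of_pos (by positivity)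
  have h2 : Real.log ((x + 1) / x) ≤ (x + 1) / x - 1 := Real.log_le_sub_one_of_pos (by positivity)
  have h3 : 1 - ((x + 1) / x)⁻¹ = 1 / (x + 1) := by field_simp; ring
  have h4 : (x + 1) / x - 1 = 1 / x := by field_simp; ring
  rw [h3] at h1
  rw [h4] at h2
  rw [← hdiv] at h1 h2
  have hx1 : 0 < x + 1 := by linarith
  have h5 : 1 ≤ (x + 1) * (Real.log (x + 1) - Real.log x) := by
    rw [div_le_iff₀ hx1] at h1
    linarith
  refine ⟨by linarith, ?_⟩
  have h6 : (x + 1) * (Real.log (x + 1) - Real.log x) ≤ (x + 1) * (1 / x) := by gcongr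
  have h7 : (x + 1) * (1 / x) = 1 + 1 / x := by field_simp
  have h8 : 1 / x ≤ 2 * (1 / (x + 1)) := by
    rw [mul_one_div, div_le_div_iff₀ hx0 hx1]
    linarith
  linarith

theorem GG_bound : ∃ C : ℝ, 0 ≤ C ∧ ∀ x : ℝ, 1 ≤ x → |GG x| ≤ C + 2 * Real.log x := by
  have hcont : ContinuousOn (fun x => |GG x|) (Icc 1 2) := by
    refine ContinuousOn.abs ?_
    intro x hx
    have hx0 : 0 < x := by linarith [hx.1]
    have h1 : ContinuousAt Real.Gamma x := (gamma_an hx0).continuousAt
    have h2 : ContinuousAt Real.log x := Real.continuousAt_log hx0.ne'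
    exact ((h1.log (Real.Gamma_pos_of_pos hx0).ne').sub ((continuousAt_id.mul h2).sub
      continuousAt_id)).continuousWithinAt
  obtain ⟨C, hC⟩ := isCompact_Icc.bddAbove_image hcont
  have hC' : ∀ x ∈ Icc (1 : ℝ) 2, |GG x| ≤ C := fun x hx => hC ⟨x, hx, rfl⟩
  have hC0 : 0 ≤ C := (abs_nonneg _).trans (hC' 1 ⟨le_rfl, by norm_num⟩)
  refine ⟨C, hC0, ?_⟩
  have key : ∀ n : ℕ, ∀ y ∈ Icc (1 : ℝ) 2, GG (y + n) ≤ GG y ∧
      GG y + 2 * Real.log y ≤ GG (y + n) + 2 * Real.log (y + n) := by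
    intro n
    induction n with
    | zero => intro y _; simp
    | succ n ih =>
      intro y hy
      obtain ⟨h1, h2⟩ := ih y hy
      have hge : 1 ≤ y + n := by
        have := hy.1
        have : (0 : ℝ) ≤ n := Nat.cast_nonneg n
        linarith
      obtain ⟨h3, h4⟩ := GG_step hge
      have e : y + ((n + 1 : ℕ) : ℝ) = y + n + 1 := by push_cast; ring
      rw [e]
      exact ⟨h3.trans h1, h2.trans h4⟩
  intro x hx
  set n := ⌊x - 1⌋₊ with hn
  have h1 : (n : ℝ) ≤ x - 1 := Nat.floor_le (by linarith)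
  have h2 : x - 1 < n + 1 := Nat.lt_floor_add_one _
  have hy : x - n ∈ Icc (1 : ℝ) 2 := ⟨by linarith, by linarith⟩
  obtain ⟨h3, h4⟩ := key n _ hy
  rw [sub_add_cancel] at h3 h4
  have h5 := abs_le.1 (hC' _ hy)
  have h6 : 0 ≤ Real.log (x - n) := Real.log_nonneg hy.1
  have h7 : 0 ≤ Real.log x := Real.log_nonneg hx
  rw [abs_le]
  constructor <;> linarith

theorem log_gamma {α t : ℝ} (hα : 0 < α) (ht : 0 < t) : Real.log (Real.Gamma (α * t)) =
    α * (t * Real.log t) + (α * Real.log α - α) * t + GG (α * t) := by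
  unfold GG
  rw [Real.log_mul hα.ne' ht.ne']
  ring

end Pool.Agent.TH659.AQ
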