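import Pool.Agent.TH659.AQ.Base

/-!
# Algebraic independence of the functions `log (t + x_j)` over the rational functions
-/

set_option autoImplicit false

open Set Polynomial Filter Topology

namespace Pool.Agent.TH659.AQ

open Pool.Agent.TH818.AR

/-- the functions `log (t + x_j)` -/
noncomputable def lf {n : ℕ} (x : Fin n → ℝ) (j : Fin n) (t : ℝ) : ℝ := Real.log (t + x j)

theorem lf_an {n : ℕ} (x : Fin n → ℝ) (j : Fin n) {t : ℝ} (ht : 0 < t + x j) : AnalyticAt ℝ (lf x j) t := by
  have h1 : AnalyticAt ℝ (fun t : ℝ => t + x j) t := analyticAt_id.add analyticAt_const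
  exact AnalyticAt.comp (g := Real.log) (f := fun t : ℝ => t + x j) (analyticAt_log ht) h1

/-- continuation of a relation to an open half line -/
theorem extendI {n d : ℕ} (f : Fin n → ℝ → ℝ) (c a b : ℝ) (han : ∀ j, AnalyticOnNhd ℝ (f j) (Ioi c)) (hc : c < a)
    (hab : a < b) (p : (Fin n → Fin (d + 1)) → ℝ[X]) (h : ∀ t ∈ Icc a b, ∑ e, (p e).eval t * mo f e t = 0) :
    ∀ t, c < t → ∑ e, (p e).eval t * mo f e t = 0 := by
  classical
  have h1 : AnalyticOnNhd ℝ (fun t => ∑ e, (p e).eval t * mo f e t) (Ioi c) := by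
    intro t ht
    refine Finset.analyticAt_fun_sum _ fun e _ => ?_
    refine AnalyticAt.mul ?_ ?_
    · exact AnalyticOnNhd.eval_polynomial (p e) t (mem_univ _)
    · unfold mo
      exact Finset.analyticAt_fun_prod _ fun j _ => (han j t ht).pow _
  have h2 : (fun t => ∑ e, (p e).eval t * mo f e t) =ᶠ[𝓝 ((a + b) / 2)] 0 := by
    filter_upwards [Icc_mem_nhds (show a < (a + b) / 2 by linarith) (show (a + b) / 2 < b by linarith)] with t ht
    exact h t ht
  have h3 := h1.eqOn_zero_of_preconnected_of_eventuallyEq_zero isPreconnected_Ioi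
    (show (a + b) / 2 ∈ Ioi c by rw [mem_Ioi]; linarith) h2
  intro t ht
  exact h3 ht

/-- independence of `log (t + x_j)` for increasing `x_j` -/
theorem log_ind_mono (d : ℕ) : ∀ (n : ℕ) (x : Fin n → ℝ), StrictMono x → ∀ a b : ℝ, (∀ j, 0 < a + x j) → a < b →
    FInd (lf x) d a b := by
  intro n
  induction n with
  | zero =>
    intro x _ a b _ hab p hp
    funext e
    have he : ∀ e' : Fin 0 → Fin (d + 1), e' = e := fun e' => Subsingleton.elim _ _
    have h1 : ∀ t ∈ Icc a b, (p e).eval t = 0 := by
      intro t ht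
      have := hp t ht
      rw [Fintype.sum_eq_single e (fun e' h => absurd (he e') h)] at this
      simpa [mo] using this
    exact eq_zero_of_infinite_isRoot _ ((Icc_infinite hab).mono fun t ht => h1 t ht)
  | succ n ih =>
    intro x hx a b hpos hab p hp
    classical
    -- continuation
    have han : ∀ j, AnalyticOnNhd ℝ (lf x j) (Ioi (-x 0)) := by
      intro j t ht
      apply lf_an
      have h1 : x 0 ≤ x j := hx.monotone (Fin.zero_le j)
      rw [mem_Ioi] at ht
      linarith
    have hext := extendI (lf x) (-x 0) a b han (by linarith [hpos 0]) hab p hp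
    -- the coefficients of the powers of the first logarithm
    let x' : Fin n → ℝ := fun j => x j.succ
    let g : ℕ → ℝ → ℝ := fun i s => if h : i < d + 1 then
      ∑ e' : Fin n → Fin (d + 1), (p (Fin.cons ⟨i, h⟩ e')).eval (s - x 0) * mo (lf x') e' (s - x 0) else 0
    have hx' : ∀ j : Fin n, 0 < -x 0 + x' j := by
      intro j
      have := hx (Fin.succ_pos j)
      simp only [x']
      linarith
    have hg : ∀ i, AnalyticAt ℝ (g i) 0 := by
      intro i
      by_cases h : i < d + 1
      · simp only [g, dif_pos h]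
        refine Finset.analyticAt_fun_sum _ fun e' _ => ?_
        have hs : AnalyticAt ℝ (fun s : ℝ => s - x 0) 0 := analyticAt_id.sub analyticAt_const
        refine AnalyticAt.mul ?_ ?_
        · have h2 : AnalyticAt ℝ (fun t : ℝ => (p (Fin.cons ⟨i, h⟩ e')).eval t) (0 - x 0) :=
            AnalyticOnNhd.eval_polynomial _ _ (mem_univ _)
          exact AnalyticAt.comp (f := fun s : ℝ => s - x 0) h2 hs
        · have h2 : AnalyticAt ℝ (mo (lf x') e') (0 - x 0) := by
            unfold mo
            refine Finset.analyticAt_fun_prod _ fun j _ => (lf_an x' j ?_).pow _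
            have := hx' j
            linarith
          exact AnalyticAt.comp (f := fun s : ℝ => s - x 0) h2 hs
      · simp only [g, dif_neg h]
        exact analyticAt_const
    have hrel : ∀ᶠ t in 𝓝[>] (0 : ℝ), ∑ i ∈ Finset.range (d + 1), g i t * ((1 : ℝ) * Real.log t + (fun _ => (0 : ℝ)) t) ^ i = 0 := by
      filter_upwards [self_mem_nhdsWithin] with s hs
      have hs0 : (0 : ℝ) < s := hs
      have h1 := hext (s - x 0) (by linarith)
      rw [← Equiv.sum_comp (Fin.consEquiv fun _ : Fin (n + 1) => Fin (d + 1)), Fintype.sum_prod_type] at h1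
      refine Eq.trans ?_ h1
      rw [← Fin.sum_univ_eq_sum_range (fun i => g i s * ((1 : ℝ) * Real.log s + 0) ^ i)]
      refine Finset.sum_congr rfl fun i _ => ?_
      simp only [g, dif_pos i.isLt, Fin.eta, one_mul, add_zero, Finset.sum_mul]
      refine Finset.sum_congr rfl fun e' _ => ?_
      have h2 : mo (lf x) ((Fin.consEquiv fun _ : Fin (n + 1) => Fin (d + 1)) (i, e')) (s - x 0) =
          Real.log s ^ (i : ℕ) * mo (lf x') e' (s - x 0) := by
        unfold mo
        rw [Fin.prod_univ_succ]
        simp [Fin.consEquiv, lf, x']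
      rw [h2]
      simp only [Fin.consEquiv, Equiv.coe_fn_mk]
      ring
    have hz := tr d g 1 (fun _ => 0) one_ne_zero analyticAt_const hg hrel
    -- the induction hypothesis
    funext e
    obtain ⟨⟨i, e'⟩, rfl⟩ := (Fin.consEquiv fun _ : Fin (n + 1) => Fin (d + 1)).surjective e
    have h1 := hz i (Nat.lt_succ_iff.1 i.isLt)
    obtain ⟨δ, hδ, hδz⟩ := Metric.eventually_nhds_iff.1 h1
    have h2 := ih x' (fun j k hjk => hx (Fin.succ_lt_succ_iff.2 hjk)) (-x 0) (-x 0 + δ / 2) hx' (by linarith)
      (fun e' => p (Fin.cons i e')) (by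
        intro t ht
        have h3 := hδz (y := t + x 0) (by
          rw [Real.dist_eq, sub_zero, abs_lt]
          constructor
          · linarith [ht.1]
          · linarith [ht.2])
        simp only [g, dif_pos i.isLt, Fin.eta, add_sub_cancel_right] at h3
        exact h3)
    exact congrFun h2 e'

/-- independence of `log (t + x_j)` for distinct `x_j` -/
theorem log_ind (d n : ℕ) (x : Fin n → ℝ) (hx : Function.Injective x) (a b : ℝ) (hpos : ∀ j, 0 < a + x j)
    (hab : a < b) : FInd (lf x) d a b := by
  classical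
  -- sort the `x_j`
  let σ : Equiv.Perm (Fin n) := Tuple.sort x
  have hσ : StrictMono (x ∘ σ) := (Tuple.monotone_sort x).strictMono_of_injective (hx.comp σ.injective)
  have h1 := log_ind_mono d n (x ∘ σ) hσ a b (fun j => hpos _) hab
  intro p hp
  have h2 := h1 (fun e => p (fun j => e (σ.symm j))) (by
    intro t ht
    have h3 := hp t ht
    rw [← Equiv.sum_comp (Equiv.arrowCongr σ (Equiv.refl (Fin (d + 1))))] at h3
    rw [← h3]
    refine Finset.sum_congr rfl fun e _ => ?_
    have h4 : mo (lf (x ∘ σ)) e t = mo (lf x) ((Equiv.arrowCongr σ (Equiv.refl (Fin (d + 1)))) e) t := by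
      unfold mo
      rw [← Equiv.prod_comp σ (fun j => lf x j t ^ (((Equiv.arrowCongr σ (Equiv.refl (Fin (d + 1)))) e j : Fin (d + 1)) : ℕ))]
      refine Finset.prod_congr rfl fun j _ => ?_
      simp [lf]
    rw [h4]
    rfl)
  funext e
  have h3 := congrFun h2 (fun j => e (σ j))
  simpa using h3

end Pool.Agent.TH659.AQ
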