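import Mathlib

/-!
# Linear spaces of singular matrices, and determinants of matrices of linear forms
-/

set_option autoImplicit false
set_option linter.unusedSectionVars false

open MvPolynomial

namespace Pool.Agent.TH659.AQ

/-! ## Linear spaces of singular matrices -/

/-- a scalar which is not an eigenvalue -/
theorem exists_shift {r : ℕ} (N : Matrix (Fin r) (Fin r) ℚ) : ∃ l : ℚ, l ≠ 0 ∧ (l • (1 : Matrix (Fin r) (Fin r) ℚ) + N).det ≠ 0 := by
  classical
  obtain ⟨l, hl⟩ := Infinite.exists_notMem_finset ((-N).charpoly.roots.toFinset ∪ {0})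
  rw [Finset.mem_union, not_or, Finset.mem_singleton, Multiset.mem_toFinset] at hl
  refine ⟨l, hl.2, fun h => hl.1 ?_⟩
  rw [Polynomial.mem_roots (Matrix.charpoly_monic _).ne_zero, Polynomial.IsRoot, Matrix.eval_charpoly]
  rw [← h]
  congr 1
  ext i j
  simp [Matrix.scalar_apply, Matrix.diagonal_apply, Matrix.smul_apply, Matrix.one_apply]

/-- a linear space of singular matrices: there are nonzero rational vectors `w`, `v` with `w^t M v = 0` for all its
elements -/
theorem flanders {m : ℕ} {σ : Type} [Fintype σ] (A : σ → Matrix (Fin m) (Fin m) ℚ)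
    (h : ∀ y : σ → ℚ, (∑ s, y s • A s).det = 0) :
    ∃ w v : Fin m → ℚ, w ≠ 0 ∧ v ≠ 0 ∧ ∀ s, w ⬝ᵥ (A s).mulVec v = 0 := by
  classical
  -- a matrix of maximal rank
  obtain ⟨y0, hy0⟩ : ∃ y0 : σ → ℚ, ∀ y : σ → ℚ, (∑ s, y s • A s).rank ≤ (∑ s, y0 s • A s).rank := by
    have hb : ∀ k, (∃ y : σ → ℚ, (∑ s, y s • A s).rank = k) → k ≤ m := by
      rintro k ⟨y, rfl⟩
      exact (Matrix.rank_le_card_width _).trans (by simp)
    have hex : ∃ k, ∃ y : σ → ℚ, (∑ s, y s • A s).rank = k := ⟨_, 0, rfl⟩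
    obtain ⟨y0, hy0⟩ := Nat.findGreatest_spec (P := fun k => ∃ y : σ → ℚ, (∑ s, y s • A s).rank = k) (hb _ hex.choose_spec)
      hex.choose_spec
    refine ⟨y0, fun y => ?_⟩
    rw [hy0]
    exact Nat.le_findGreatest (hb _ ⟨y, rfl⟩) ⟨y, rfl⟩
  set M0 := ∑ s, y0 s • A s with hM0
  obtain ⟨v, hv0, hv⟩ := Matrix.exists_mulVec_eq_zero_iff.2 (h y0)
  obtain ⟨w, hw0, hw⟩ := Matrix.exists_vecMul_eq_zero_iff.2 (h y0)
  refine ⟨w, v, hw0, hv0, fun s => ?_⟩
  -- the key claim
  by_cases hmem : (A s).mulVec v ∈ LinearMap.range M0.mulVecLin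
  · obtain ⟨u, hu⟩ := hmem
    rw [Matrix.mulVecLin_apply] at hu
    rw [← hu, Matrix.dotProduct_mulVec, hw, zero_dotProduct]
  exfalso
  -- a basis of the range
  set R := LinearMap.range M0.mulVecLin with hR
  set r := Module.finrank ℚ R with hr
  let bs := Module.finBasis ℚ R
  have hpre : ∀ i, ∃ e : Fin m → ℚ, M0.mulVec e = (bs i : Fin m → ℚ) := by
    intro i
    obtain ⟨e, he⟩ := (bs i).2
    exact ⟨e, by rw [← he, Matrix.mulVecLin_apply]⟩
  choose e he using hpre
  have hli : LinearIndependent ℚ (fun i => (bs i : Fin m → ℚ)) :=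
    bs.linearIndependent.map' R.subtype (Submodule.ker_subtype R)
  have hspan : Submodule.span ℚ (Set.range fun i => (bs i : Fin m → ℚ)) = R := by
    have h1 := bs.span_eq
    have h2 := congrArg (Submodule.map R.subtype) h1
    rw [Submodule.map_span, Submodule.map_top, Submodule.range_subtype, ← Set.range_comp] at h2
    exact h2
  have hli2 : LinearIndependent ℚ (Fin.cons ((A s).mulVec v) (fun i => (bs i : Fin m → ℚ)) :
      Fin (r + 1) → (Fin m → ℚ)) := by
    rw [linearIndependent_finCons]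
    refine ⟨hli, ?_⟩
    rw [hspan]
    exact hmem
  set f0 : Fin (r + 1) → (Fin m → ℚ) := Fin.cons ((A s).mulVec v) (fun i => (bs i : Fin m → ℚ)) with hf0
  -- a left inverse
  obtain ⟨L, hL⟩ := LinearMap.exists_leftInverse_of_injective (Fintype.linearCombination ℚ f0)
    (LinearMap.ker_eq_bot.2 hli2.fintypeLinearCombination_injective)
  have hLf : ∀ i, L (f0 i) = Pi.single i 1 := by
    intro i
    have h1 := LinearMap.congr_fun hL (Pi.single i 1)
    simpa using h1
  let g : Fin (r + 1) → (Fin m → ℚ) := Fin.cons 0 (fun i => (A s).mulVec (e i))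
  obtain ⟨l, hl0, hl⟩ := exists_shift (Matrix.of fun i j => L (g j) i)
  -- the vectors `l f0 + g` are independent
  have hli3 : LinearIndependent ℚ (fun j => l • f0 j + g j) := by
    have h1 : LinearIndependent ℚ (fun j => L (l • f0 j + g j)) := by
      have h2 : (fun j => L (l • f0 j + g j)) =
          (l • (1 : Matrix (Fin (r + 1)) (Fin (r + 1)) ℚ) + Matrix.of fun i j => L (g j) i).col := by
        funext j i
        rw [map_add, map_smul, hLf]
        simp [Matrix.col, Matrix.one_apply, Pi.single_apply]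
      rw [h2]
      exact Matrix.linearIndependent_cols_iff_isUnit.2 ((Matrix.isUnit_iff_isUnit_det _).2 hl.isUnit)
    exact LinearIndependent.of_comp L h1
  -- they lie in the range of a matrix of the space
  set y1 : σ → ℚ := fun s' => l * y0 s' + (if s' = s then 1 else 0) with hy1
  have hM1 : ∑ s', y1 s' • A s' = l • M0 + A s := by
    simp only [hy1, add_smul, Finset.sum_add_distrib, mul_smul, ← Finset.smul_sum, ite_smul, one_smul, zero_smul]
    simp [hM0]
  have hrange : ∀ j, l • f0 j + g j ∈ LinearMap.range (∑ s', y1 s' • A s').mulVecLin := by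
    intro j
    rw [hM1]
    refine Fin.cases ?_ (fun i => ?_) j
    · refine ⟨l • v, ?_⟩
      rw [Matrix.mulVecLin_apply, Matrix.add_mulVec, Matrix.smul_mulVec, Matrix.mulVec_smul, hv]
      simp [hf0, g, Matrix.mulVec_smul]
    · refine ⟨e i, ?_⟩
      rw [Matrix.mulVecLin_apply, Matrix.add_mulVec, Matrix.smul_mulVec, he]
      simp [hf0, g]
  have h1 := hy0 y1
  have h2 : r + 1 ≤ (∑ s', y1 s' • A s').rank := by
    have h3 : LinearIndependent ℚ (fun j => (⟨l • f0 j + g j, hrange j⟩ : LinearMap.range (∑ s', y1 s' • A s').mulVecLin)) := by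
      refine LinearIndependent.of_comp (Submodule.subtype _) ?_
      exact hli3
    have h4 := h3.fintype_card_le_finrank
    rw [Fintype.card_fin] at h4
    exact h4
  have h3 : M0.rank = r := rfl
  omega

/-! ## The determinant of a matrix of linear forms -/

section

variable {σ : Type} [Fintype σ] {m : ℕ}

/-- the matrix of linear forms -/
noncomputable def linMat (c : Fin m → Fin m → σ → ℤ) : Matrix (Fin m) (Fin m) (MvPolynomial σ ℤ) :=
  fun u v => ∑ s, C (c u v s) * X s

/-- the exponent vector of a product of variables -/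
noncomputable def expo (f : Fin m → σ) : σ →₀ ℕ := ∑ i, Finsupp.single (f i) 1

theorem expo_le (f : Fin m → σ) (x : σ) : expo f x ≤ m := by
  classical
  unfold expo
  rw [Finsupp.finsetSum_apply]
  calc ∑ i, (Finsupp.single (f i) 1 : σ →₀ ℕ) x ≤ ∑ _i : Fin m, 1 := by
        refine Finset.sum_le_sum fun i _ => ?_
        rw [Finsupp.single_apply]
        split_ifs <;> omega
    _ = m := by simp

theorem det_linMat (c : Fin m → Fin m → σ → ℤ) : (linMat c).det =
    ∑ p : Equiv.Perm (Fin m), ∑ f : Fin m → σ,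
      monomial (expo f) (((Equiv.Perm.sign p : ℤˣ) : ℤ) * ∏ i, c (p i) i (f i)) := by
  classical
  rw [Matrix.det_apply']
  refine Finset.sum_congr rfl fun p _ => ?_
  simp only [linMat]
  rw [Finset.prod_univ_sum, Fintype.piFinset_univ, Finset.mul_sum]
  refine Finset.sum_congr rfl fun f _ => ?_
  rw [Finset.prod_mul_distrib, ← map_prod]
  have h1 : ∏ i, (X (f i) : MvPolynomial σ ℤ) = monomial (expo f) 1 := by
    unfold expo
    rw [MvPolynomial.monomial_sum_index]
    simp [MvPolynomial.X]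
  rw [h1, C_mul_monomial, mul_one]
  have h2 : (((Equiv.Perm.sign p : ℤˣ) : ℤ) : MvPolynomial σ ℤ) = C ((Equiv.Perm.sign p : ℤˣ) : ℤ) := by simp
  rw [h2, C_mul_monomial]

theorem coeff_det (c : Fin m → Fin m → σ → ℤ) (u : σ →₀ ℕ) (H : ℝ) (hH : ∀ i j s, |(c i j s : ℝ)| ≤ H) :
    |((coeff u (linMat c).det : ℤ) : ℝ)| ≤ (m.factorial : ℝ) * (Fintype.card σ : ℝ) ^ m * H ^ m := by
  classical
  rw [det_linMat]
  simp only [coeff_sum, coeff_monomial]
  push_cast
  refine (Finset.abs_sum_le_sum_abs _ _).trans ?_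
  have h1 : ∀ p : Equiv.Perm (Fin m), |∑ f : Fin m → σ, (if expo f = u then
      (((Equiv.Perm.sign p : ℤˣ) : ℤ) : ℝ) * ∏ i, (c (p i) i (f i) : ℝ) else 0)| ≤
      (Fintype.card σ : ℝ) ^ m * H ^ m := by
    intro p
    refine (Finset.abs_sum_le_sum_abs _ _).trans ?_
    have h2 : ∀ f ∈ (Finset.univ : Finset (Fin m → σ)), |(if expo f = u then
      (((Equiv.Perm.sign p : ℤˣ) : ℤ) : ℝ) * ∏ i, (c (p i) i (f i) : ℝ) else 0)| ≤ H ^ m := by
      intro f _
      have h3 : |∏ i, (c (p i) i (f i) : ℝ)| ≤ H ^ m := by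
        rw [Finset.abs_prod]
        refine (Finset.prod_le_prod (fun i _ => abs_nonneg _) (fun i _ => hH _ _ _)).trans (le_of_eq ?_)
        simp
      have h4 : (0 : ℝ) ≤ H ^ m := (abs_nonneg _).trans h3
      split_ifs
      · rw [abs_mul]
        have h5 : |(((Equiv.Perm.sign p : ℤˣ) : ℤ) : ℝ)| = 1 := by
          rcases Int.units_eq_one_or (Equiv.Perm.sign p) with h | h <;> simp [h]
        rw [h5, one_mul]
        exact h3
      · simpa using h4
    refine (Finset.sum_le_sum h2).trans (le_of_eq ?_)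
    simp
  refine (Finset.sum_le_sum fun p _ => h1 p).trans (le_of_eq ?_)
  simp [Fintype.card_perm]
  ring

theorem degree_det (c : Fin m → Fin m → σ → ℤ) (x : σ) : degreeOf x (linMat c).det ≤ m := by
  classical
  rw [degreeOf_le_iff]
  intro u hu
  rw [mem_support_iff, det_linMat] at hu
  simp only [coeff_sum, coeff_monomial] at hu
  obtain ⟨p, -, hp⟩ := Finset.exists_ne_zero_of_sum_ne_zero hu
  obtain ⟨f, -, hf⟩ := Finset.exists_ne_zero_of_sum_ne_zero hp
  by_cases h : expo f = u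
  · rw [← h]
    exact expo_le f x
  · rw [if_neg h] at hf
    exact absurd rfl hf

/-- evaluation -/
theorem eval_det {R : Type} [CommRing R] (c : Fin m → Fin m → σ → ℤ) (y : σ → R) :
    aeval y (linMat c).det = (Matrix.of fun i j => ∑ s, (c i j s : R) * y s).det := by
  rw [AlgHom.map_det]
  congr 1
  ext i j
  simp [linMat]

/-- if the determinant vanishes identically there are rational vectors `w`, `v` -/
theorem zero_det (c : Fin m → Fin m → σ → ℤ) (h : (linMat c).det = 0) :
    ∃ w v : Fin m → ℚ, w ≠ 0 ∧ v ≠ 0 ∧ ∀ s, ∑ i, ∑ j, w i * (c i j s : ℚ) * v j = 0 := by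
  classical
  obtain ⟨w, v, hw, hv, hwv⟩ := flanders (σ := σ) (fun s => Matrix.of fun i j => (c i j s : ℚ)) (by
    intro y
    have h1 := eval_det c y
    rw [h, map_zero] at h1
    rw [h1]
    congr 1
    ext i j
    simp [Matrix.sum_apply, mul_comm])
  refine ⟨w, v, hw, hv, fun s => ?_⟩
  have h1 := hwv s
  simp only [dotProduct, Matrix.mulVec, Matrix.of_apply] at h1
  rw [← h1]
  refine Finset.sum_congr rfl fun i _ => ?_
  rw [Finset.mul_sum]
  refine Finset.sum_congr rfl fun j _ => ?_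
  ring

end

/-! ## Real and imaginary parts -/

/-- real part of `i ^ k` -/
def rp (k : ℕ) : ℤ := if k % 4 = 0 then 1 else if k % 4 = 2 then -1 else 0
/-- imaginary part of `i ^ k` -/
def ip (k : ℕ) : ℤ := if k % 4 = 1 then 1 else if k % 4 = 3 then -1 else 0

theorem I_pow (k : ℕ) : (Complex.I ^ k).re = rp k ∧ (Complex.I ^ k).im = ip k := by
  rw [Complex.I_pow_eq_pow_mod]
  have h : k % 4 < 4 := Nat.mod_lt _ (by norm_num)
  unfold rp ip
  generalize k % 4 = r at h
  interval_cases r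
  · simp
  · simp
  · simp [Complex.I_sq]
  · simp [pow_succ]

theorem rp_or_ip (k : ℕ) : rp k ≠ 0 ∨ ip k ≠ 0 := by
  have h : k % 4 < 4 := Nat.mod_lt _ (by norm_num)
  unfold rp ip
  generalize k % 4 = r at h
  interval_cases r <;> simp

theorem rp_le (k : ℕ) : |rp k| ≤ 1 := by
  unfold rp; split_ifs <;> simp
theorem ip_le (k : ℕ) : |ip k| ≤ 1 := by
  unfold ip; split_ifs <;> simp

section

variable {σ : Type} [Fintype σ]

/-- twisted coefficients -/
noncomputable def tw (ρ : ℕ → ℤ) (P : MvPolynomial (Option σ) ℤ) : MvPolynomial (Option σ) ℤ :=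
  ∑ s ∈ P.support, monomial s (P.coeff s * ρ (s none))

theorem coeff_tw (ρ : ℕ → ℤ) (P : MvPolynomial (Option σ) ℤ) (u : Option σ →₀ ℕ) :
    coeff u (tw ρ P) = P.coeff u * ρ (u none) := by
  classical
  unfold tw
  simp only [coeff_sum, coeff_monomial]
  rw [Finset.sum_ite_eq' P.support u (fun s => P.coeff s * ρ (s none))]
  split_ifs with h
  · rfl
  · rw [notMem_support_iff] at h
    rw [h, zero_mul]

theorem aeval_tw (ρ : ℕ → ℤ) (P : MvPolynomial (Option σ) ℤ) (f : Option σ → ℝ) :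
    aeval f (tw ρ P) = ∑ s ∈ P.support, ((P.coeff s : ℤ) : ℝ) * ((ρ (s none) : ℤ) : ℝ) * ∏ x, f x ^ s x := by
  classical
  unfold tw
  rw [map_sum]
  refine Finset.sum_congr rfl fun s _ => ?_
  rw [aeval_monomial, Finsupp.prod_fintype _ _ (by simp)]
  simp

theorem degree_tw (ρ : ℕ → ℤ) (P : MvPolynomial (Option σ) ℤ) (x : Option σ) (d : ℕ) (h : P.degreeOf x ≤ d) :
    (tw ρ P).degreeOf x ≤ d := by
  classical
  rw [degreeOf_le_iff] at h ⊢
  intro u hu
  rw [mem_support_iff, coeff_tw] at hu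
  exact h u (mem_support_iff.2 (left_ne_zero_of_mul hu))

/-- the values `π` and `y` -/
noncomputable def vl (y : σ → ℝ) (x : Option σ) : ℝ := x.elim Real.pi y
/-- the values `iπ` and `y` -/
noncomputable def vc (y : σ → ℝ) (x : Option σ) : ℂ := x.elim (Real.pi * Complex.I) (fun s => (y s : ℂ))

theorem re_im (P : MvPolynomial (Option σ) ℤ) (y : σ → ℝ) :
    (aeval (vc y) P).re = aeval (vl y) (tw rp P) ∧ (aeval (vc y) P).im = aeval (vl y) (tw ip P) := by
  classical
  have h1 : aeval (vc y) P = ∑ s ∈ P.support, ((((P.coeff s : ℤ) : ℝ) * ∏ x, vl y x ^ s x : ℝ) : ℂ) *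
      Complex.I ^ (s none) := by
    rw [aeval_def, eval₂_eq']
    refine Finset.sum_congr rfl fun s _ => ?_
    rw [Fintype.prod_option]
    rw [Fintype.prod_option]
    simp only [vc, vl, Option.elim, mul_pow]
    push_cast
    simp
    ring
  rw [aeval_tw, aeval_tw, h1, Complex.re_sum, Complex.im_sum]
  refine ⟨Finset.sum_congr rfl fun s _ => ?_, Finset.sum_congr rfl fun s _ => ?_⟩
  · rw [Complex.re_ofReal_mul, (I_pow _).1]
    ring
  · rw [Complex.im_ofReal_mul, (I_pow _).2]
    ring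

/-- the matrix -/
noncomputable def cMat {m : ℕ} (c : Fin m → Fin m → Option σ → ℤ) (y : σ → ℝ) : Matrix (Fin m) (Fin m) ℂ :=
  Matrix.of fun i j => ∑ x, (c i j x : ℂ) * vc y x

/-- If no polynomial of degree at most `m` in each variable and with coefficients at most `T^(mA+1)` is small at
`(π, y)`, all matrices with entries `iπ c_0 + ∑ c_s y_s`, `|c| ≤ T^A`, with small determinant satisfy `w^t M v = 0` for
nonzero rational vectors. -/
theorem str {m : ℕ} (y : σ → ℝ) (A B T : ℝ) (hT1 : 1 ≤ T)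
    (hT : (m.factorial : ℝ) * ((Fintype.card σ : ℝ) + 1) ^ m ≤ T)
    (h : ∀ P : MvPolynomial (Option σ) ℤ, P ≠ 0 → (∀ x, P.degreeOf x ≤ m) →
      (∀ u, |((P.coeff u : ℤ) : ℝ)| ≤ T ^ (m * A + 1)) → T ^ (-B) < |aeval (vl y) P|)
    (c : Fin m → Fin m → Option σ → ℤ) (hc : ∀ i j x, |(c i j x : ℝ)| ≤ T ^ A)
    (hdet : ‖(cMat c y).det‖ ≤ T ^ (-B)) :
    ∃ w v : Fin m → ℚ, w ≠ 0 ∧ v ≠ 0 ∧ ∀ x, ∑ i, ∑ j, w i * (c i j x : ℚ) * v j = 0 := by
  classical
  by_contra hcon
  have hP0 : (linMat c).det ≠ 0 := fun h0 => hcon (zero_det c h0)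
  set P := (linMat c).det with hP
  have hTp : 0 < T := by linarith
  have hcoef : ∀ u, |((P.coeff u : ℤ) : ℝ)| ≤ T ^ (m * A + 1) := by
    intro u
    refine (coeff_det c u (T ^ A) hc).trans ?_
    rw [← Real.rpow_natCast (T ^ A) m, ← Real.rpow_mul hTp.le, Real.rpow_add hTp, Real.rpow_one,
      mul_comm (m : ℝ) A, mul_comm (T ^ (A * (m : ℝ))) T]
    have h1 : ((m.factorial : ℝ) * (Fintype.card (Option σ) : ℝ) ^ m) ≤ T := by
      rw [Fintype.card_option]
      push_cast
      exact hT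
    exact mul_le_mul_of_nonneg_right h1 (by positivity)
  have hval : aeval (vc y) P = (cMat c y).det := eval_det c (vc y)
  have hsmall : ∀ ρ : ℕ → ℤ, (∀ k, |ρ k| ≤ 1) → tw ρ P ≠ 0 → T ^ (-B) < |aeval (vl y) (tw ρ P)| := by
    intro ρ hρ hne
    refine h _ hne (fun x => degree_tw ρ P x m (degree_det c x)) (fun u => ?_)
    rw [coeff_tw]
    push_cast
    rw [abs_mul]
    have h1 : |((ρ (u none) : ℤ) : ℝ)| ≤ 1 := by exact_mod_cast hρ (u none)
    calc |((P.coeff u : ℤ) : ℝ)| * |((ρ (u none) : ℤ) : ℝ)| ≤ |((P.coeff u : ℤ) : ℝ)| * 1 := by gcongr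
      _ ≤ T ^ (m * A + 1) := by rw [mul_one]; exact hcoef u
  obtain ⟨h1, h2⟩ := re_im P y
  rw [hval] at h1 h2
  have hne : tw rp P ≠ 0 ∨ tw ip P ≠ 0 := by
    obtain ⟨u, hu⟩ := MvPolynomial.ne_zero_iff.1 hP0
    rcases rp_or_ip (u none) with hr | hi
    · left
      intro h0
      have := coeff_tw rp P u
      rw [h0, coeff_zero] at this
      exact (mul_ne_zero hu hr) this.symm
    · right
      intro h0
      have := coeff_tw ip P u
      rw [h0, coeff_zero] at this
      exact (mul_ne_zero hu hi) this.symm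
  rcases hne with hn | hn
  · have h3 := hsmall rp rp_le hn
    rw [← h1] at h3
    exact absurd ((Complex.abs_re_le_norm _).trans hdet) (not_le.2 h3)
  · have h3 := hsmall ip ip_le hn
    rw [← h2] at h3
    exact absurd ((Complex.abs_im_le_norm _).trans hdet) (not_le.2 h3)

end

end Pool.Agent.TH659.AQ
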