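import Pool.Agent.TH659.AQ.Base

/-!
# Products of values and powers of π
-/

set_option autoImplicit false

open Set Polynomial Filter Topology

namespace Pool.Agent.TH659.AQ

/-- exponent of the monomial `(∏ x_{j l})^(2i) π^(r(D-i))` -/
noncomputable def mex {n r : ℕ} (j : Fin r → Fin n) (D i : ℕ) : Option (Fin n) →₀ ℕ :=
  Finsupp.equivFunOnFinite.symm fun x => match x with
    | none => r * (D - i)
    | some y => 2 * i * (Finset.univ.filter fun l => j l = y).card

theorem mex_inj {n r : ℕ} (hr : 1 ≤ r) (j : Fin r → Fin n) (D i i' : ℕ) (hi : i ≤ D) (hi' : i' ≤ D)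
    (h : mex j D i = mex j D i') : i = i' := by
  have h1 := DFunLike.congr_fun h none
  simp only [mex, Finsupp.equivFunOnFinite_symm_apply_apply] at h1
  have h2 := Nat.eq_of_mul_eq_mul_left (by omega) h1
  omega

theorem prod_mex {n r : ℕ} (j : Fin r → Fin n) (D i : ℕ) (v : Option (Fin n) → ℝ) :
    ∏ x, v x ^ (mex j D i x) = v none ^ (r * (D - i)) * (∏ l, v (some (j l))) ^ (2 * i) := by
  classical
  rw [Fintype.prod_option]
  simp only [mex, Finsupp.equivFunOnFinite_symm_apply_apply]
  congr 1
  have h : ∏ l, v (some (j l)) = ∏ y, v (some y) ^ (Finset.univ.filter fun l => j l = y).card := by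
    rw [← Finset.prod_fiberwise_of_maps_to (s := Finset.univ) (t := Finset.univ) (g := j)
      (f := fun l => v (some (j l))) (fun _ _ => Finset.mem_univ _)]
    refine Finset.prod_congr rfl fun y _ => ?_
    rw [Finset.prod_congr rfl (g := fun _ => v (some y)) (fun l hl => by rw [(Finset.mem_filter.1 hl).2]),
      Finset.prod_const]
  rw [h, ← Finset.prod_pow]
  exact Finset.prod_congr rfl fun y _ => pow_mul' _ _ _

/-- if `q` is not exceptional, products of values are not algebraic multiples of powers of `√π` -/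
theorem alg_mult {n d : ℕ} (f : Fin n → ℝ → ℝ) (a b A B T : ℝ) (hT : 1 ≤ T) (q : ℚ)
    (hq : a ≤ q ∧ q ≤ b ∧ (q.den : ℝ) ≤ T) (hnot : q ∉ Ex f d a b A B T) (r D : ℕ) (hr : 1 ≤ r) (hd : 2 * r * D ≤ d)
    (j : Fin r → Fin n) (Q : ℤ[X]) (hQ : Q ≠ 0) (hdeg : Q.natDegree ≤ D) (hc : ∀ i, |(Q.coeff i : ℝ)| ≤ T ^ A) :
    aeval ((∏ l, f (j l) q) ^ 2 / Real.pi ^ r) Q ≠ 0 := by
  classical
  intro hzero
  apply hnot
  set D' := Q.natDegree with hD'
  set P : MvPolynomial (Option (Fin n)) ℤ := ∑ i ∈ Finset.range (D' + 1), MvPolynomial.monomial (mex j D' i) (Q.coeff i)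
    with hP
  have hcoef : ∀ s, P.coeff s = ∑ i ∈ Finset.range (D' + 1), if mex j D' i = s then Q.coeff i else 0 := by
    intro s
    rw [hP, MvPolynomial.coeff_sum]
    refine Finset.sum_congr rfl fun i _ => ?_
    rw [MvPolynomial.coeff_monomial]
  have hcoef2 : ∀ i, i ≤ D' → P.coeff (mex j D' i) = Q.coeff i := by
    intro i hi
    rw [hcoef, Finset.sum_eq_single i]
    · rw [if_pos rfl]
    · intro i' hi' hne
      rw [if_neg]
      intro h
      exact hne (mex_inj hr j D' i' i (by rw [Finset.mem_range] at hi'; omega) hi h)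
    · intro h
      exact absurd (Finset.mem_range.2 (by omega)) h
  have hcoef3 : ∀ s, (∀ i, i ≤ D' → mex j D' i ≠ s) → P.coeff s = 0 := by
    intro s hs
    rw [hcoef]
    refine Finset.sum_eq_zero fun i hi => ?_
    rw [if_neg (hs i (by rw [Finset.mem_range] at hi; omega))]
  refine ⟨hq.1, hq.2.1, hq.2.2, P, ?_, ?_, ?_, ?_⟩
  · intro h
    have h1 := hcoef2 D' le_rfl
    rw [h, MvPolynomial.coeff_zero] at h1
    exact hQ (leadingCoeff_eq_zero.1 h1.symm)
  · intro x
    rw [MvPolynomial.degreeOf_le_iff]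
    intro s hs
    rw [MvPolynomial.mem_support_iff] at hs
    obtain ⟨i, hi, rfl⟩ : ∃ i, i ≤ D' ∧ mex j D' i = s := by
      by_contra hcon
      push Not at hcon
      exact hs (hcoef3 s hcon)
    cases x with
    | none =>
      simp only [mex, Finsupp.equivFunOnFinite_symm_apply_apply]
      calc r * (D' - i) ≤ 2 * r * D := by
            have : D' - i ≤ D := by omega
            nlinarith
        _ ≤ d := hd
    | some y =>
      simp only [mex, Finsupp.equivFunOnFinite_symm_apply_apply]
      have h1 : (Finset.univ.filter fun l => j l = y).card ≤ r := by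
        refine (Finset.card_le_univ _).trans ?_
        simp
      calc 2 * i * (Finset.univ.filter fun l => j l = y).card ≤ 2 * D * r := by
            have : i ≤ D := by omega
            gcongr
        _ = 2 * r * D := by ring
        _ ≤ d := hd
  · intro s
    by_cases hs : ∃ i, i ≤ D' ∧ mex j D' i = s
    · obtain ⟨i, hi, rfl⟩ := hs
      rw [hcoef2 i hi]
      exact hc i
    · push Not at hs
      rw [hcoef3 s hs]
      simp only [Int.cast_zero, abs_zero]
      positivity
  · have h1 : MvPolynomial.aeval (vals f (q : ℝ)) P = Real.pi ^ (r * D') *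
        aeval ((∏ l, f (j l) q) ^ 2 / Real.pi ^ r) Q := by
      rw [hP, map_sum, aeval_eq_sum_range, Finset.mul_sum]
      refine Finset.sum_congr rfl fun i hi => ?_
      have hi' : i ≤ D' := by rw [Finset.mem_range] at hi; omega
      rw [MvPolynomial.aeval_monomial, Finsupp.prod_fintype _ _ (fun x => pow_zero _), prod_mex]
      simp only [vals, eq_intCast, zsmul_eq_mul]
      have h2 : r * D' = r * (D' - i) + r * i := by rw [← Nat.mul_add]; congr 1; omega
      rw [h2, pow_add, div_pow, ← pow_mul, ← pow_mul]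
      have h3 : Real.pi ^ (r * i) ≠ 0 := by positivity
      field_simp
    rw [h1, hzero, mul_zero, abs_zero]
    positivity

end Pool.Agent.TH659.AQ
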