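import Pool.Agent.TH659.AQ.ZUni
import Pool.Agent.TH818.AP.Api

/-!
# Approximate relations at the points of `(1/N)ℤ`, several parameters
-/

set_option autoImplicit false

open Set Polynomial Filter Topology

namespace Pool.Agent.TH659.AQ

open Pool.Agent.TH818.AR Pool.Agent.TH818.AP

variable {ι h : Type} [Fintype ι] [Fintype h]

/-- the functions `s_l ξ_e g_l` -/
def vxs {m : ℕ} (g : ι → ℝ → ℝ) (eqv : Fin m ≃ ι × h) (s : ι → ℝ) (ξ : h → ℝ) (i : Fin m) (t : ℝ) : ℝ :=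
  s (eqv i).1 * (ξ (eqv i).2 * g (eqv i).1 t)

theorem sum_vxs {m n : ℕ} (g : ι → ℝ → ℝ) (eqv : Fin m ≃ ι × h) (s : ι → ℝ) (ξ : h → ℝ) (D : ℕ)
    (f : Fin n ≃ Fin (D + 1) × ι) (p : Fin m → ℤ[X]) (hp : ∀ i, (p i).natDegree ≤ D) (t : ℝ) :
    ∑ i, (aeval t (p i)) * vxs g eqv s ξ i t =
      comb (wD g D f) (fun k => s (f k).2 * ∑ e, ((p (eqv.symm ((f k).2, e))).coeff (f k).1 : ℝ) * ξ e) t := by
  classical
  simp only [comb, wD]
  rw [← Equiv.sum_comp f.symm, ← Equiv.sum_comp eqv.symm, Fintype.sum_prod_type, Fintype.sum_prod_type_right]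
  refine Finset.sum_congr rfl fun l _ => ?_
  simp only [Equiv.apply_symm_apply]
  have h1 : ∀ e : h, aeval t (p (eqv.symm (l, e))) * vxs g eqv s ξ (eqv.symm (l, e)) t =
      ∑ j : Fin (D + 1), s l * (((p (eqv.symm (l, e))).coeff j : ℝ) * ξ e) * (t ^ (j : ℕ) * g l t) := by
    intro e
    rw [aeval_eq_sum_range' (Nat.lt_succ_of_le (hp _)), ← Fin.sum_univ_eq_sum_range
      (fun j => (p (eqv.symm (l, e))).coeff j • t ^ j), Finset.sum_mul]
    refine Finset.sum_congr rfl fun j _ => ?_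
    simp only [vxs, Equiv.apply_symm_apply, zsmul_eq_mul]
    ring
  simp only [h1]
  rw [Finset.sum_comm]
  refine Finset.sum_congr rfl fun j _ => ?_
  rw [← Finset.sum_mul, Finset.mul_sum]

theorem fam_vxs {m : ℕ} (g : ι → ℝ → ℝ) (a b : ℝ) (hab : a < b) (han : ∀ l, AnalyticOnNhd ℝ (g l) (Icc a b))
    (hg : RIndep g a b) (eqv : Fin m ≃ ι × h) :
    Fam a b (Set.range fun x : (ι → ℝ) × (h → ℝ) => vxs g eqv x.1 x.2) := by
  classical
  intro D
  refine ⟨_, wD g D (Fintype.equivFin (Fin (D + 1) × ι)).symm, good_wD g a b hab han hg D _, ?_⟩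
  rintro v ⟨x, rfl⟩ p hp
  exact ⟨_, fun t _ => sum_vxs g eqv x.1 x.2 D _ p hp t⟩

theorem meas_vxs (hlow : T_low) {m : ℕ} (g : ι → ℝ → ℝ) (a b : ℝ) (hab : a < b)
    (han : ∀ l, AnalyticOnNhd ℝ (g l) (Icc a b))
    (hg : RIndep g a b) (eqv : Fin m ≃ ι × h) (D : ℕ) :
    ∃ T0 : ℝ, 1 ≤ T0 ∧ ∀ κ B T : ℝ, T0 ≤ T → ∀ (s : ι → ℝ) (ξ : h → ℝ), (∀ l, T⁻¹ ≤ |s l|) → ScaleMeas ξ κ B T →
      MeasT (vxs g eqv s ξ) a b D κ (B + 2) T := by
  classical
  obtain ⟨N, c, hc, hlow'⟩ := hlow a b _ (wD g D (Fintype.equivFin (Fin (D + 1) × ι)).symm)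
    (good_wD g a b hab han hg D _)
  have hba : 0 < b - a := by linarith
  refine ⟨max 1 (1 / (c * (b - a) ^ N)), le_max_left _ _, ?_⟩
  intro κ B T hT s ξ hs hξ p hp hpD hpc
  have hT1 : 1 ≤ T := (le_max_left _ _).trans hT
  have hTp : 0 < T := by linarith
  have hTc : 1 ≤ T * (c * (b - a) ^ N) := by
    have := (le_max_right _ _).trans hT
    rwa [div_le_iff₀ (by positivity)] at this
  set f := (Fintype.equivFin (Fin (D + 1) × ι)).symm with hf
  set x : _ → ℝ := (fun k => s (f k).2 * ∑ e, ((p (eqv.symm ((f k).2, e))).coeff (f k).1 : ℝ) * ξ e) with hx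
  obtain ⟨t0, ht0, hlow0⟩ := hlow' x a b le_rfl hab le_rfl
  refine ⟨t0, ht0, ?_⟩
  rw [sum_vxs g eqv s ξ D f p hpD t0]
  refine le_trans ?_ hlow0
  -- the coefficient
  obtain ⟨i, hi⟩ : ∃ i, p i ≠ 0 := by
    by_contra hcon
    push Not at hcon
    exact hp (funext hcon)
  obtain ⟨j, hj⟩ : ∃ j, (p i).coeff j ≠ 0 := by
    by_contra hcon
    push Not at hcon
    exact hi (Polynomial.ext (by simpa using hcon))
  have hjD : j < D + 1 := by
    by_contra hcon
    exact hj (coeff_eq_zero_of_natDegree_lt (lt_of_le_of_lt (hpD i) (by omega)))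
  have h1 := hξ (fun e => (p (eqv.symm ((eqv i).1, e))).coeff j) (by
    intro hcon
    have := congrFun hcon (eqv i).2
    simp only [Prod.mk.eta, Equiv.symm_apply_apply, Pi.zero_apply] at this
    exact hj this) (fun e => hpc _ _)
  have h2 : x (f.symm (⟨j, hjD⟩, (eqv i).1)) =
      s (eqv i).1 * ∑ e, (((p (eqv.symm ((eqv i).1, e))).coeff j : ℤ) : ℝ) * ξ e := by
    simp only [hx, Equiv.apply_symm_apply]
  have h3 : T⁻¹ * T ^ (-B) ≤ ‖x‖ := by
    refine le_trans ?_ (norm_le_pi_norm x (f.symm (⟨j, hjD⟩, (eqv i).1)))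
    rw [h2, Real.norm_eq_abs, abs_mul]
    exact mul_le_mul (hs _) h1 (by positivity) (abs_nonneg _)
  calc T ^ (-(B + 2)) = T⁻¹ * (T⁻¹ * T ^ (-B)) := by
        rw [← Real.rpow_neg_one T, ← Real.rpow_add hTp, ← Real.rpow_add hTp]
        congr 1
        ring
    _ ≤ (c * (b - a) ^ N) * ‖x‖ := by
        refine mul_le_mul ?_ h3 (by positivity) (by positivity)
        rw [inv_le_iff_one_le_mul₀' hTp]
        exact hTc

/-- the exceptional set for given constants -/
def ExcCZ (g : ι → ℝ → ℝ) (a b A B T : ℝ) (s : ι → ℝ) (ξ : h → ℝ) : Set ℚ :=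
  {q : ℚ | (q : ℝ) ∈ Icc a b ∧ Den T q ∧
    ∃ c : ι × h → ℤ, c ≠ 0 ∧ (∀ l, |(c l : ℝ)| ≤ T ^ A) ∧
      |∑ l, (c l : ℝ) * (s l.1 * (ξ l.2 * g l.1 q))| ≤ T ^ (-B)}

theorem uniformZ (hbd : T_bd) (hlow : T_low) (htay : T_taylor) (hdet : T_det2)
    (haux : T_aux2) (g : ι → ℝ → ℝ) (a b : ℝ) (hab : a < b) (han : ∀ l, AnalyticOnNhd ℝ (g l) (Icc a b))
    (hg : RIndep g a b) (A β : ℝ) (hA : 0 ≤ A) (M : ℕ) (hM : Fintype.card ι * Fintype.card h = M)
    (hβ : (M : ℝ) / (M + 1) < β) :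
    ∃ κ C : ℝ, 0 < C ∧ ∀ B1 : ℝ, ∃ B T0 : ℝ, 1 ≤ T0 ∧ ∀ T : ℝ, T0 ≤ T → ∀ (s : ι → ℝ) (ξ : h → ℝ),
      (∀ l, T⁻¹ ≤ |s l|) → ScaleMeas ξ κ B1 T →
      (ExcCZ g a b A B T s ξ).Finite ∧ ((ExcCZ g a b A B T s ξ).ncard : ℝ) ≤ C * T ^ β := by
  classical
  have hcard : Fintype.card (ι × h) = M := by rw [Fintype.card_prod, hM]
  let eqv : Fin M ≃ ι × h := (Fintype.equivFinOfCardEq hcard).symm
  obtain ⟨D', κ', C, hC, hU⟩ := theoremZ hbd hlow htay hdet haux a b hab _
    (fam_vxs g a b hab han hg eqv) A β hA hβ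
  obtain ⟨T1, hT1, hmeas⟩ := meas_vxs hlow g a b hab han hg eqv D'
  refine ⟨κ', C, hC, fun B1 => ?_⟩
  obtain ⟨B, T0, hT0, hfin⟩ := hU (B1 + 2)
  refine ⟨B, max T0 T1, le_max_of_le_left hT0, fun T hT s ξ hs hξ => ?_⟩
  have h1 := hfin T ((le_max_left _ _).trans hT) (vxs g eqv s ξ) ⟨(s, ξ), rfl⟩
    (hmeas κ' B1 T ((le_max_right _ _).trans hT) s ξ hs hξ)
  have h2 : ExcCZ g a b A B T s ξ = ExcZ (vxs g eqv s ξ) a b A B T := by
    ext q
    simp only [ExcCZ, ExcZ, Set.mem_ofPred_eq]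
    refine and_congr_right fun _ => and_congr_right fun _ => ?_
    constructor
    · rintro ⟨c, hc0, hc, hcs⟩
      refine ⟨fun i => c (eqv i), ?_, fun l => hc _, ?_⟩
      · intro hcon
        apply hc0
        funext l
        have := congrFun hcon (eqv.symm l)
        simpa using this
      · rw [← Equiv.sum_comp eqv] at hcs
        exact hcs
    · rintro ⟨c, hc0, hc, hcs⟩
      refine ⟨fun l => c (eqv.symm l), ?_, fun l => hc _, ?_⟩
      · intro hcon
        apply hc0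
        funext l
        have := congrFun hcon (eqv l)
        simpa using this
      · rw [← Equiv.sum_comp eqv]
        simp only [Equiv.symm_apply_apply]
        exact hcs
  rw [h2]
  exact h1

/-! ## Several parameters -/

/-- the points of `(1/T)ℤ ∩ [a,b]` -/
theorem finZ (a b T : ℝ) (hT : 1 ≤ T) : {q : ℚ | (q : ℝ) ∈ Icc a b ∧ Den T q}.Finite :=
  (finite_rat a b T).subset (fun _ hq => ⟨hq.1, hq.2.le (by linarith)⟩)

/-- `(1/T)ℤ ∩ [a,b]` -/
noncomputable def RZ (a b T : ℝ) : Finset ℚ := by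
  classical
  exact if hT : 1 ≤ T then (finZ a b T hT).toFinset else ∅

theorem mem_RZ {a b T : ℝ} (hT : 1 ≤ T) {q : ℚ} : q ∈ RZ a b T ↔ (q : ℝ) ∈ Icc a b ∧ Den T q := by
  simp [RZ, hT]

theorem card_RZ (a b : ℝ) : ∃ K : ℝ, 0 < K ∧ ∀ T : ℝ, 1 ≤ T → ((RZ a b T).card : ℝ) ≤ K * T := by
  classical
  set Mab : ℝ := max (max |a| |b|) 1 with hMab
  have hMab1 : 1 ≤ Mab := le_max_right _ _
  refine ⟨2 * Mab + 1, by positivity, ?_⟩
  intro T hT
  have hTp : 0 < T := by linarith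
  set N' := ⌊Mab * T⌋₊ with hN'
  have hNT' : (N' : ℝ) ≤ Mab * T := Nat.floor_le (by positivity)
  have hint : ∀ q ∈ RZ a b T, ∃ z : ℤ, (z : ℝ) = T * (q : ℝ) := by
    intro q hq
    obtain ⟨N, rfl, e, he⟩ := ((mem_RZ hT).1 hq).2
    refine ⟨e * q.num, ?_⟩
    have hd : ((q).den : ℝ) ≠ 0 := by exact_mod_cast (q).den_nz
    have hq' : ((q : ℚ) : ℝ) = (q.num : ℝ) / (q.den : ℝ) := by
      exact_mod_cast (Rat.num_div_den q).symm
    rw [hq', he]
    push_cast
    field_simp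
  choose! z hz using hint
  have hmap : ∀ q ∈ RZ a b T, z q ∈ Finset.Icc (-(N' : ℤ)) N' := by
    intro q hq
    have h1 := ((mem_RZ hT).1 hq).1
    have h2 : |(q : ℝ)| ≤ Mab := by
      refine le_trans ?_ (le_max_left _ _)
      exact abs_le_max_abs_abs h1.1 h1.2
    have hn' : (z q).natAbs ≤ N' := by
      apply Nat.le_floor
      have : (((z q).natAbs : ℕ) : ℝ) = |(z q : ℝ)| := by
        rw [← Int.cast_abs, Int.abs_eq_natAbs]
        simp
      rw [this, hz q hq, abs_mul, abs_of_pos hTp, mul_comm]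
      exact mul_le_mul_of_nonneg_right h2 hTp.le
    rw [Finset.mem_Icc]
    omega
  have hinj : Set.InjOn z (RZ a b T) := by
    intro q hq q' hq' heq
    have h1 := hz q hq
    have h2 := hz q' hq'
    rw [heq, h2] at h1
    have h3 := mul_left_cancel₀ hTp.ne' h1
    exact_mod_cast h3.symm
  have h1 := Finset.card_le_card_of_injOn _ hmap hinj
  rw [Int.card_Icc] at h1
  have h3 : ((N' : ℤ) + 1 - -(N' : ℤ)).toNat = 2 * N' + 1 := by omega
  rw [h3] at h1
  have h2 : ((RZ a b T).card : ℝ) ≤ 2 * (N' : ℝ) + 1 := by exact_mod_cast h1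
  nlinarith

/-- products of functions of the separate variables and of constants -/
noncomputable def monoZ {n : ℕ} (g : Fin n → ι → ℝ → ℝ) (s : ι → ℝ) (ξ : h → ℝ) (t : Fin n → ℚ)
    (e : (Fin n → ι) × h) : ℝ := (∏ j, s (e.1 j) * g j (e.1 j) (t j : ℝ)) * ξ e.2

/-- the exceptional set -/
def ExcMZ {n : ℕ} (g : Fin n → ι → ℝ → ℝ) (s : ι → ℝ) (ξ : h → ℝ) (a b : Fin n → ℝ) (A B T : ℝ) : Set (Fin n → ℚ) :=
  {t | (∀ j, (t j : ℝ) ∈ Icc (a j) (b j) ∧ Den T (t j)) ∧
    ∃ c : (Fin n → ι) × h → ℤ, c ≠ 0 ∧ (∀ e, |(c e : ℝ)| ≤ T ^ A) ∧ |∑ e, (c e : ℝ) * monoZ g s ξ t e| ≤ T ^ (-B)}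

theorem ExcMZ_sub {n : ℕ} (g : Fin n → ι → ℝ → ℝ) (s : ι → ℝ) (ξ : h → ℝ) (a b : Fin n → ℝ) (A B T : ℝ) (hT : 1 ≤ T) :
    ExcMZ g s ξ a b A B T ⊆ (Fintype.piFinset fun j : Fin n => RZ (a j) (b j) T : Finset (Fin n → ℚ)) := by
  intro t ht
  rw [Finset.mem_coe, Fintype.mem_piFinset]
  exact fun j => (mem_RZ hT).2 (ht.1 j)

theorem ExcMZ_fin {n : ℕ} (g : Fin n → ι → ℝ → ℝ) (s : ι → ℝ) (ξ : h → ℝ) (a b : Fin n → ℝ) (A B T : ℝ) (hT : 1 ≤ T) :
    (ExcMZ g s ξ a b A B T).Finite :=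
  (Finset.finite_toSet _).subset (ExcMZ_sub g s ξ a b A B T hT)

omit [Fintype ι] [Fintype h] in
theorem monoZ_succ {n : ℕ} (g : Fin (n + 1) → ι → ℝ → ℝ) (s : ι → ℝ) (ξ : h → ℝ) (t : Fin (n + 1) → ℚ)
    (e : (Fin (n + 1) → ι) × h) :
    monoZ g s ξ t e = s (eqG n ι h e).1 * (monoZ (fun j : Fin n => g j.succ) s ξ (fun j => t j.succ) (eqG n ι h e).2 *
      g 0 (eqG n ι h e).1 (t 0 : ℝ)) := by
  simp only [monoZ, eqG, Equiv.coe_fn_mk, Fin.prod_univ_succ]
  ring

/-- several parameters in `(1/T)ℤ`, scaling factors `s` -/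
theorem multiZ0 (hι : 0 < Fintype.card ι) (ξ : h → ℝ) (hξ : GoodConst ξ) (n : ℕ) :
    ∀ (g : Fin n → ι → ℝ → ℝ) (a b : Fin n → ℝ), (∀ j, a j < b j) →
    (∀ j l, AnalyticOnNhd ℝ (g j l) (Icc (a j) (b j))) → (∀ j, RIndep (g j) (a j) (b j)) →
    ∀ (A β : ℝ), 0 ≤ A → (((Fintype.card ι) ^ n * Fintype.card h : ℕ) : ℝ) /
      ((((Fintype.card ι) ^ n * Fintype.card h : ℕ) : ℝ) + 1) < β →
    ∃ B C T0 : ℝ, 0 < C ∧ 1 ≤ T0 ∧ ∀ T : ℝ, T0 ≤ T → ∀ s : ι → ℝ, (∀ l, T⁻¹ ≤ |s l|) →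
      ((ExcMZ g s ξ a b A B T).ncard : ℝ) ≤ C * T ^ (((n : ℝ) - 1) + β) := by
  classical
  induction n with
  | zero =>
    intro g a b hab han hg A β hA hβ
    obtain ⟨B, T1, hs⟩ := hξ A
    refine ⟨B + 1, 1, max T1 2, one_pos, le_max_of_le_right (by norm_num), ?_⟩
    intro T hT s _
    have hT2 : 2 ≤ T := (le_max_right _ _).trans hT
    have hTp : 0 < T := by linarith
    have hemp : ExcMZ g s ξ a b A (B + 1) T = ∅ := by
      rw [Set.eq_empty_iff_forall_notMem]
      rintro t ⟨-, c, hc0, hc, hcs⟩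
      have h1 := hs T ((le_max_left _ _).trans hT) (fun e => c (Fin.elim0, e)) (by
        intro hcon
        apply hc0
        funext e
        have := congrFun hcon e.2
        simp only [Pi.zero_apply] at this
        rw [Pi.zero_apply, ← this]
        congr 1
        exact Prod.ext (Subsingleton.elim _ _) rfl) (fun e => hc _)
      have h2 : ∑ e : (Fin 0 → ι) × h, (c e : ℝ) * monoZ g s ξ t e = ∑ e, (c (Fin.elim0, e) : ℝ) * ξ e := by
        rw [Fintype.sum_prod_type]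
        rw [Fintype.sum_subsingleton _ (Fin.elim0 : Fin 0 → ι)]
        refine Finset.sum_congr rfl fun e _ => ?_
        simp [monoZ]
      rw [h2] at hcs
      have h3 := h1.trans hcs
      have h4 : T ^ (-(B + 1)) < T ^ (-B) := Real.rpow_lt_rpow_of_exponent_lt (by linarith) (by linarith)
      linarith
    rw [hemp, Set.ncard_empty, Nat.cast_zero]
    positivity
  | succ n ih =>
    intro g a b hab han hg A β hA hβ
    have hMle : (((Fintype.card ι) ^ n * Fintype.card h : ℕ) : ℝ) ≤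
        (((Fintype.card ι) ^ (n + 1) * Fintype.card h : ℕ) : ℝ) := by
      exact_mod_cast Nat.mul_le_mul_right _ (Nat.pow_le_pow_right hι (by omega))
    have hβ' : (((Fintype.card ι) ^ n * Fintype.card h : ℕ) : ℝ) /
        ((((Fintype.card ι) ^ n * Fintype.card h : ℕ) : ℝ) + 1) < β := by
      refine lt_of_le_of_lt ?_ hβ
      rw [div_le_div_iff₀ (by positivity) (by positivity)]
      nlinarith
    have hcard : Fintype.card ι * Fintype.card ((Fin n → ι) × h) = (Fintype.card ι) ^ (n + 1) * Fintype.card h := by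
      simp only [Fintype.card_prod, Fintype.card_pi, Finset.prod_const, Finset.card_univ, Fintype.card_fin]
      ring
    obtain ⟨κ, C1, hC1, hU⟩ := uniformZ bd tlow Pool.Agent.TH818.AR.taylor det2 aux2 (h := (Fin n → ι) × h)
      (g 0) (a 0) (b 0) (hab 0) (han 0) (hg 0) A β hA _ hcard hβ
    obtain ⟨B', C', T1, hC', hT1, hih⟩ := ih (fun j => g j.succ) (fun j => a j.succ) (fun j => b j.succ)
      (fun j => hab _) (fun j => han _) (fun j => hg _) (max κ 0) β (le_max_right _ _) hβ'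
    obtain ⟨B, T2, hT2, hU'⟩ := hU B'
    choose K hK0 hK using fun j => card_RZ (a j) (b j)
    have hKp : 0 < ∏ j : Fin n, K j.succ := Finset.prod_pos fun j _ => hK0 _
    refine ⟨B, K 0 * C' + C1 * ∏ j : Fin n, K j.succ, max T1 T2, by have := hK0 0; positivity,
      le_max_of_le_left hT1, ?_⟩
    intro T hT s hsl
    have hTT1 : T1 ≤ T := (le_max_left _ _).trans hT
    have hTT2 : T2 ≤ T := (le_max_right _ _).trans hT
    have hTge : 1 ≤ T := hT1.trans hTT1
    have hTp : 0 < T := by linarith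
    -- the key inclusion
    have hkey : ∀ t ∈ ExcMZ g s ξ a b A B T, (fun j : Fin n => t j.succ) ∉
        ExcMZ (fun j : Fin n => g j.succ) s ξ (fun j => a j.succ) (fun j => b j.succ) (max κ 0) B' T →
        ScaleMeas (monoZ (fun j : Fin n => g j.succ) s ξ fun j : Fin n => t j.succ) κ B' T ∧
        t 0 ∈ ExcCZ (g 0) (a 0) (b 0) A B T s (monoZ (fun j : Fin n => g j.succ) s ξ fun j : Fin n => t j.succ) := by
      rintro t ⟨ht, c, hc0, hc, hcs⟩ hnot
      constructor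
      · intro c' hc'0 hc'
        by_contra hcon
        rw [not_le] at hcon
        apply hnot
        refine ⟨fun j => ht j.succ, c', hc'0, fun e => (hc' e).trans ?_, hcon.le⟩
        exact Real.rpow_le_rpow_of_exponent_le hTge (le_max_left _ _)
      · refine ⟨(ht 0).1, (ht 0).2, fun l => c ((eqG n ι h).symm l), ?_, fun l => hc _, ?_⟩
        · intro hcon
          apply hc0
          funext e
          have := congrFun hcon (eqG n ι h e)
          simpa using this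
        · rw [← Equiv.sum_comp (eqG n ι h)]
          refine le_trans (le_of_eq ?_) hcs
          congr 1
          refine Finset.sum_congr rfl fun e _ => ?_
          rw [monoZ_succ]
          simp only [Equiv.symm_apply_apply]
    set S := (ExcMZ_fin g s ξ a b A B T hTge).toFinset with hS
    set S0 := (ExcMZ_fin (fun j : Fin n => g j.succ) s ξ (fun j => a j.succ) (fun j => b j.succ)
      (max κ 0) B' T hTge).toFinset with hS0
    have hSmem : ∀ t, t ∈ S ↔ t ∈ ExcMZ g s ξ a b A B T := fun t => (ExcMZ_fin _ _ _ _ _ _ _ _ hTge).mem_toFinset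
    have hS0mem : ∀ t, t ∈ S0 ↔ t ∈ ExcMZ (fun j : Fin n => g j.succ) s ξ (fun j => a j.succ) (fun j => b j.succ)
      (max κ 0) B' T := fun t => (ExcMZ_fin _ _ _ _ _ _ _ _ hTge).mem_toFinset
    rw [Set.ncard_eq_toFinset_card _ (ExcMZ_fin g s ξ a b A B T hTge)]
    have hsplit := Finset.card_filter_add_card_filter_not (s := S)
      (p := fun t : Fin (n + 1) → ℚ => (fun j : Fin n => t j.succ) ∈ S0)
    -- first part
    have hp1 : ((S.filter fun t : Fin (n + 1) → ℚ => (fun j : Fin n => t j.succ) ∈ S0).card : ℝ) ≤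
        (K 0 * C') * T ^ ((((n + 1 : ℕ) : ℝ) - 1) + β) := by
      have hle : (S.filter fun t : Fin (n + 1) → ℚ => (fun j : Fin n => t j.succ) ∈ S0).card ≤
          (RZ (a 0) (b 0) T ×ˢ S0).card := by
        refine Finset.card_le_card_of_injOn (fun t => (t 0, fun j : Fin n => t j.succ)) ?_ ?_
        · intro t ht
          rw [Finset.mem_coe, Finset.mem_filter] at ht
          rw [Finset.mem_coe, Finset.mem_product]
          exact ⟨(mem_RZ hTge).2 (((hSmem t).1 ht.1).1 0), ht.2⟩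
        · intro t _ t' _ heq
          simp only [Prod.mk.injEq] at heq
          funext j
          refine Fin.cases heq.1 (fun i => congrFun heq.2 i) j
      rw [Finset.card_product] at hle
      have h0 : (S0.card : ℝ) ≤ C' * T ^ (((n : ℝ) - 1) + β) := by
        have := hih T hTT1 s hsl
        rwa [Set.ncard_eq_toFinset_card _ (ExcMZ_fin _ _ _ _ _ _ _ _ hTge)] at this
      calc ((S.filter fun t : Fin (n + 1) → ℚ => (fun j : Fin n => t j.succ) ∈ S0).card : ℝ)
          ≤ ((RZ (a 0) (b 0) T).card : ℝ) * (S0.card : ℝ) := by exact_mod_cast hle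
        _ ≤ (K 0 * T) * (C' * T ^ (((n : ℝ) - 1) + β)) :=
            mul_le_mul (hK 0 T hTge) h0 (by positivity) (by have := hK0 0; positivity)
        _ = (K 0 * C') * (T ^ (1 : ℝ) * T ^ (((n : ℝ) - 1) + β)) := by rw [Real.rpow_one]; ring
        _ = (K 0 * C') * T ^ ((((n + 1 : ℕ) : ℝ) - 1) + β) := by
            rw [← Real.rpow_add hTp]
            congr 2
            push_cast
            ring
    -- second part
    have hp2 : ((S.filter fun t : Fin (n + 1) → ℚ => ¬ (fun j : Fin n => t j.succ) ∈ S0).card : ℝ) ≤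
        (C1 * ∏ j : Fin n, K j.succ) * T ^ ((((n + 1 : ℕ) : ℝ) - 1) + β) := by
      set F := S.filter fun t : Fin (n + 1) → ℚ => ¬ (fun j : Fin n => t j.succ) ∈ S0 with hF
      have hmaps : ∀ t ∈ F, (fun t : Fin (n + 1) → ℚ => fun j : Fin n => t j.succ) t ∈
          Fintype.piFinset fun j : Fin n => RZ (a j.succ) (b j.succ) T := by
        intro t ht
        rw [Fintype.mem_piFinset]
        exact fun j => (mem_RZ hTge).2 (((hSmem t).1 (Finset.mem_filter.1 ht).1).1 j.succ)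
      have hfib : ∀ t' ∈ Fintype.piFinset fun j : Fin n => RZ (a j.succ) (b j.succ) T,
          (F.filter fun t => (fun j : Fin n => t j.succ) = t').card ≤ ⌊C1 * T ^ β⌋₊ := by
        intro t' _
        rcases (F.filter fun t => (fun j : Fin n => t j.succ) = t').eq_empty_or_nonempty with hemp | ⟨t1, ht1⟩
        · rw [hemp]; simp
        rw [Finset.mem_filter] at ht1
        have hmemF : ∀ t ∈ F, t ∈ ExcMZ g s ξ a b A B T ∧
            (fun j : Fin n => t j.succ) ∉ ExcMZ (fun j : Fin n => g j.succ) s ξ (fun j => a j.succ)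
              (fun j => b j.succ) (max κ 0) B' T := by
          intro t ht
          rw [hF, Finset.mem_filter] at ht
          exact ⟨(hSmem t).1 ht.1, fun hcon => ht.2 ((hS0mem _).2 hcon)⟩
        have hsm := (hkey t1 (hmemF t1 ht1.1).1 (hmemF t1 ht1.1).2).1
        rw [ht1.2] at hsm
        obtain ⟨hfin, hnc⟩ := hU' T hTT2 s _ hsl hsm
        rw [Set.ncard_eq_toFinset_card _ hfin] at hnc
        refine le_trans ?_ (Nat.le_floor hnc)
        refine Finset.card_le_card_of_injOn (fun t => t 0) ?_ ?_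
        · intro t ht
          rw [Finset.mem_coe, Finset.mem_filter] at ht
          rw [Finset.mem_coe, Set.Finite.mem_toFinset]
          have := (hkey t (hmemF t ht.1).1 (hmemF t ht.1).2).2
          rwa [ht.2] at this
        · intro t ht t2 ht2 heq
          rw [Finset.mem_coe, Finset.mem_filter] at ht ht2
          funext j
          refine Fin.cases heq (fun i => ?_) j
          exact congrFun (ht.2.trans ht2.2.symm) i
      have hcardF := Finset.card_le_mul_card_image_of_maps_to hmaps _ hfib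
      rw [Fintype.card_piFinset] at hcardF
      have h1 : (F.card : ℝ) ≤ (⌊C1 * T ^ β⌋₊ : ℝ) * ∏ j : Fin n, ((RZ (a j.succ) (b j.succ) T).card : ℝ) := by
        exact_mod_cast hcardF
      have h2 : (⌊C1 * T ^ β⌋₊ : ℝ) ≤ C1 * T ^ β := Nat.floor_le (by positivity)
      have h3 : ∏ j : Fin n, ((RZ (a j.succ) (b j.succ) T).card : ℝ) ≤ ∏ j : Fin n, (K j.succ * T) :=
        Finset.prod_le_prod (fun j _ => by positivity) (fun j _ => hK j.succ T hTge)
      calc (F.card : ℝ) ≤ (⌊C1 * T ^ β⌋₊ : ℝ) * ∏ j : Fin n, ((RZ (a j.succ) (b j.succ) T).card : ℝ) := h1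
        _ ≤ (C1 * T ^ β) * ∏ j : Fin n, (K j.succ * T) :=
            mul_le_mul h2 h3 (Finset.prod_nonneg fun j _ => by positivity) (by positivity)
        _ = (C1 * ∏ j : Fin n, K j.succ) * (T ^ β * T ^ n) := by
            rw [Finset.prod_mul_distrib, Finset.prod_const, Finset.card_univ, Fintype.card_fin]; ring
        _ = (C1 * ∏ j : Fin n, K j.succ) * T ^ ((((n + 1 : ℕ) : ℝ) - 1) + β) := by
            rw [← Real.rpow_natCast T n, ← Real.rpow_add hTp]
            congr 2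
            push_cast
            ring
    have hsum : (S.card : ℝ) = ((S.filter fun t : Fin (n + 1) → ℚ => (fun j : Fin n => t j.succ) ∈ S0).card : ℝ) +
        ((S.filter fun t : Fin (n + 1) → ℚ => ¬ (fun j : Fin n => t j.succ) ∈ S0).card : ℝ) := by
      exact_mod_cast hsplit.symm
    rw [hsum, add_mul]
    exact add_le_add hp1 hp2

end Pool.Agent.TH659.AQ
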