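import Pool.Agent.TH818.AP.All

/-!
# Approximate relations between π and the values of analytic functions at rational points
-/

set_option autoImplicit false

open Set Polynomial Filter Topology

namespace Pool.Agent.TH659.AQ

open Pool.Agent.TH818.AR Pool.Agent.TH818.AP

/-- monomials -/
noncomputable def mo {n d : ℕ} (f : Fin n → ℝ → ℝ) (e : Fin n → Fin (d + 1)) (t : ℝ) : ℝ := ∏ j, f j t ^ (e j : ℕ)

/-- algebraic independence over `ℝ(t)`, degree at most `d` in each function -/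
def FInd {n : ℕ} (f : Fin n → ℝ → ℝ) (d : ℕ) (a b : ℝ) : Prop :=
  ∀ p : (Fin n → Fin (d + 1)) → ℝ[X], (∀ t ∈ Icc a b, ∑ e, (p e).eval t * mo f e t = 0) → p = 0

/-- the values, and π -/
noncomputable def vals {n : ℕ} (f : Fin n → ℝ → ℝ) (q : ℝ) (x : Option (Fin n)) : ℝ :=
  match x with
  | none => Real.pi
  | some j => f j q

/-- the exceptional set -/
def Ex {n : ℕ} (f : Fin n → ℝ → ℝ) (d : ℕ) (a b A B T : ℝ) : Set ℚ :=
  {q : ℚ | a ≤ q ∧ q ≤ b ∧ (q.den : ℝ) ≤ T ∧ ∃ P : MvPolynomial (Option (Fin n)) ℤ, P ≠ 0 ∧ (∀ x, P.degreeOf x ≤ d) ∧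
    (∀ s, |((P.coeff s : ℤ) : ℝ)| ≤ T ^ A) ∧ |MvPolynomial.aeval (vals f q) P| ≤ T ^ (-B)}

/-- the exponent vector -/
noncomputable def sO {n d : ℕ} (e : (Fin n → Fin (d + 1)) × Fin (d + 1)) : Option (Fin n) →₀ ℕ :=
  Finsupp.equivFunOnFinite.symm fun x => match x with
    | none => (e.2 : ℕ)
    | some y => (e.1 y : ℕ)

theorem sO_inj {n d : ℕ} : Function.Injective (sO (n := n) (d := d)) := by
  intro e e' h
  refine Prod.ext ?_ ?_
  · funext j
    have := DFunLike.congr_fun h (some j)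
    exact Fin.ext (by simpa [sO] using this)
  · have := DFunLike.congr_fun h none
    exact Fin.ext (by simpa [sO] using this)

theorem aeval_eq {n d : ℕ} (f : Option (Fin n) → ℝ) (P : MvPolynomial (Option (Fin n)) ℤ)
    (hP : ∀ x, P.degreeOf x ≤ d) : MvPolynomial.aeval f P =
      ∑ e : (Fin n → Fin (d + 1)) × Fin (d + 1),
        ((P.coeff (sO e) : ℤ) : ℝ) * (f none ^ (e.2 : ℕ) * ∏ j, f (some j) ^ (e.1 j : ℕ)) := by
  classical
  have h1 : ∀ e : (Fin n → Fin (d + 1)) × Fin (d + 1), f none ^ (e.2 : ℕ) * ∏ j, f (some j) ^ (e.1 j : ℕ) =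
      ∏ x, f x ^ (sO e x) := by
    intro e
    rw [Fintype.prod_option]
    simp [sO]
  simp only [h1]
  rw [MvPolynomial.aeval_def, MvPolynomial.eval₂_eq']
  rw [← Finset.sum_image (f := fun s : Option (Fin n) →₀ ℕ => ((P.coeff s : ℤ) : ℝ) * ∏ x, f x ^ (s x))
    (fun a _ b _ hab => sO_inj hab)]
  refine Finset.sum_subset_zero_on_sdiff ?_ ?_ ?_
  · intro s hs
    rw [Finset.mem_image]
    have hle : ∀ x, s x < d + 1 := fun x =>
      Nat.lt_succ_of_le ((MvPolynomial.monomial_le_degreeOf x hs).trans (hP x))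
    refine ⟨(fun j => ⟨s (some j), hle _⟩, ⟨s none, hle _⟩), Finset.mem_univ _, ?_⟩
    ext x
    cases x <;> simp [sO]
  · intro s hs
    rw [Finset.mem_sdiff, MvPolynomial.notMem_support_iff] at hs
    rw [hs.2]
    simp
  · intro s _
    simp

theorem coeff_ne {n d : ℕ} (P : MvPolynomial (Option (Fin n)) ℤ) (hP0 : P ≠ 0)
    (hP : ∀ x, P.degreeOf x ≤ d) : (fun e : (Fin n → Fin (d + 1)) × Fin (d + 1) => P.coeff (sO e)) ≠ 0 := by
  intro h
  apply hP0
  ext s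
  rw [MvPolynomial.coeff_zero]
  by_contra hs
  have hs' : s ∈ P.support := MvPolynomial.mem_support_iff.2 hs
  have hle : ∀ x, s x < d + 1 := fun x =>
    Nat.lt_succ_of_le ((MvPolynomial.monomial_le_degreeOf x hs').trans (hP x))
  have := congrFun h (fun j => ⟨s (some j), hle _⟩, ⟨s none, hle _⟩)
  apply hs
  have he : sO ((fun j => ⟨s (some j), hle _⟩, ⟨s none, hle _⟩) : (Fin n → Fin (d + 1)) × Fin (d + 1)) = s := by
    ext x
    cases x <;> simp [sO]
  simp only [he, Pi.zero_apply] at this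
  exact this

theorem mo_an {n d : ℕ} (f : Fin n → ℝ → ℝ) (a b : ℝ) (han : ∀ j, AnalyticOnNhd ℝ (f j) (Icc a b))
    (e : Fin n → Fin (d + 1)) : AnalyticOnNhd ℝ (mo f e) (Icc a b) := by
  intro t ht
  unfold mo
  exact Finset.analyticAt_fun_prod _ fun j _ => (han j t ht).pow _

/-- the general theorem -/
theorem final (n d : ℕ) (f : Fin n → ℝ → ℝ) (a b : ℝ) (hab : a < b)
    (han : ∀ j, AnalyticOnNhd ℝ (f j) (Icc a b)) (hind : FInd f d a b) (A β : ℝ) (hA : 0 ≤ A)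
    (hβ : 2 - 2 / (((d : ℝ) + 1) ^ (n + 1) + 1) < β) :
    ∃ B C : ℝ, ∀ T : ℝ, 1 ≤ T → (Ex f d a b A B T).Finite ∧ ((Ex f d a b A B T).ncard : ℝ) ≤ C * T ^ β := by
  classical
  have hM0 : (0 : ℝ) < ((d : ℝ) + 1) ^ (n + 1) := by positivity
  have hβ' : 2 * (((d + 1) ^ (n + 1) : ℕ) : ℝ) / ((((d + 1) ^ (n + 1) : ℕ) : ℝ) + 1) < β := by
    refine lt_of_le_of_lt (le_of_eq ?_) hβ
    push_cast
    field_simp
    ring
  have hβ0 : 0 < β := lt_of_le_of_lt (by positivity) hβ'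
  have hcard : Fintype.card (Fin n → Fin (d + 1)) * Fintype.card (Fin (d + 1)) = (d + 1) ^ (n + 1) := by
    simp only [Fintype.card_pi, Fintype.card_fin, Finset.prod_const, Finset.card_univ]
    rw [← pow_succ]
  obtain ⟨κ, C, hC, hU⟩ := uniform bd tlow Pool.Agent.TH818.AR.taylor det2 arith aux2 (h := Fin (d + 1))
    (fun e : Fin n → Fin (d + 1) => mo f e) a b hab (fun e => mo_an f a b han e) hind A β hA _ hcard hβ'
  obtain ⟨B1, T1, hT1, hs⟩ := pi_scale d κ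
  obtain ⟨B, T2, hT2, hfin⟩ := hU B1
  set T0 := max T1 T2 with hT0
  set C0 : ℝ := ((RT a b T0).card : ℝ) with hC0
  have hC00 : 0 ≤ C0 := by positivity
  refine ⟨B, C + C0, ?_⟩
  intro T hT
  have hTβ : 1 ≤ T ^ β := Real.one_le_rpow hT hβ0.le
  rcases lt_or_ge T T0 with hlt' | hge
  · have h1 : Ex f d a b A B T ⊆ (RT a b T0 : Finset ℚ) := by
      intro t ht
      rw [Finset.mem_coe]
      exact mem_RT.2 ⟨⟨ht.1, ht.2.1⟩, ht.2.2.1.trans hlt'.le⟩
    have h2 := Set.ncard_le_ncard h1 (Finset.finite_toSet _)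
    rw [Set.ncard_coe_finset] at h2
    refine ⟨(Finset.finite_toSet _).subset h1, ?_⟩
    have h3 : ((Ex f d a b A B T).ncard : ℝ) ≤ C0 := by rw [hC0]; exact_mod_cast h2
    nlinarith
  · obtain ⟨h1, h2⟩ := hfin T ((le_max_right _ _).trans hge) _ (hs T ((le_max_left _ _).trans hge))
    have hsub : Ex f d a b A B T ⊆ ExcC (fun e : Fin n → Fin (d + 1) => mo f e) a b A B T
        (fun e : Fin (d + 1) => Real.pi ^ (e : ℕ)) := by
      rintro q ⟨hq1, hq2, hq3, P, hP0, hPd, hPc, hPs⟩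
      refine ⟨⟨hq1, hq2⟩, hq3, fun l => P.coeff (sO l), coeff_ne P hP0 hPd, fun l => hPc _, ?_⟩
      rw [aeval_eq (vals f q) P hPd] at hPs
      exact hPs
    refine ⟨h1.subset hsub, ?_⟩
    have h3 := Set.ncard_le_ncard hsub h1
    have h4 : ((Ex f d a b A B T).ncard : ℝ) ≤ _ := (Nat.cast_le (α := ℝ)).2 h3
    nlinarith

end Pool.Agent.TH659.AQ
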