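import Pool.Agent.TH818.AP.All

/-!
# The constant in Legendre's relation
-/

set_option autoImplicit false

open Set Filter Topology

namespace Pool.Agent.TH659.AQ

open Pool.Agent.TH818.AR

theorem EE_cont : Continuous EE := by
  unfold EE
  exact intervalIntegral.continuous_parametric_intervalIntegral_of_continuous' (by fun_prop) _ _

theorem EE_one : EE 1 = 1 := by
  unfold EE
  have h : ∀ θ ∈ uIcc (0 : ℝ) (Real.pi / 2), √(1 - 1 * Real.sin θ ^ 2) = Real.cos θ := by
    intro θ hθ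
    rw [uIcc_of_le (by positivity)] at hθ
    have h1 : 1 - 1 * Real.sin θ ^ 2 = Real.cos θ ^ 2 := by
      have := Real.sin_sq_add_cos_sq θ
      linarith
    rw [h1, Real.sqrt_sq (Real.cos_nonneg_of_mem_Icc ⟨by linarith [hθ.1, Real.pi_pos], hθ.2⟩)]
  rw [intervalIntegral.integral_congr h, integral_cos]
  simp

theorem EE_zero : EE 0 = Real.pi / 2 := by
  unfold EE
  simp

theorem KK_zero : KK 0 = Real.pi / 2 := by
  unfold KK
  simp

theorem legHalf (t : ℝ) (h0 : 0 < t) (h1 : t < 1) :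
    KK t * EE (1 - t) + EE t * KK (1 - t) - KK t * KK (1 - t) = Real.pi / 2 := by
  obtain ⟨W, -, h⟩ := leg
  obtain ⟨κ, G, -, hG, hsing⟩ := sing
  rw [h t h0 h1]
  have hKa : AnalyticAt ℝ KK 0 := an.1 0 (by norm_num)
  have hEa : AnalyticAt ℝ EE 0 := an.2 0 (by norm_num)
  have hD := (hEa.differentiableAt.sub hKa.differentiableAt).hasDerivAt
  set D : ℝ → ℝ := EE - KK with hDdef
  have hD0 : D 0 = 0 := by
    simp [hDdef, EE_zero, KK_zero]
  have hslope := (hasDerivAt_iff_tendsto_slope.1 hD)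
  have hslope' : Tendsto (slope D 0) (𝓝[>] 0) (𝓝 (deriv D 0)) :=
    hslope.mono_left (nhdsWithin_mono _ (fun x hx => (ne_of_gt hx)))
  have hlog : Tendsto (fun x : ℝ => x * Real.log x) (𝓝[>] 0) (𝓝 0) := by
    have := (Real.continuous_mul_log.tendsto 0)
    simp only [zero_mul] at this
    exact this.mono_left nhdsWithin_le_nhds
  have hK : Tendsto KK (𝓝[>] 0) (𝓝 (Real.pi / 2)) := by
    have := hKa.continuousAt.tendsto
    rw [KK_zero] at this
    exact this.mono_left nhdsWithin_le_nhds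
  have hE : Tendsto (fun x => EE (1 - x)) (𝓝[>] (0 : ℝ)) (𝓝 1) := by
    have h2 : Continuous fun x => EE (1 - x) := EE_cont.comp (by fun_prop)
    have := h2.tendsto 0
    rw [sub_zero, EE_one] at this
    exact this.mono_left nhdsWithin_le_nhds
  have hDt : Tendsto D (𝓝[>] 0) (𝓝 0) := by
    have := hD.continuousAt.tendsto
    rw [hD0] at this
    exact this.mono_left nhdsWithin_le_nhds
  have hGt : Tendsto G (𝓝[>] 0) (𝓝 (G 0)) := hG.continuousAt.tendsto.mono_left nhdsWithin_le_nhds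
  have hlim := ((hK.mul hE).add ((hslope'.mul hlog).mul (hK.const_mul κ))).add ((hDt.mul hK).mul hGt)
  have hW : Tendsto (fun _ : ℝ => W) (𝓝[>] (0 : ℝ)) (𝓝 W) := tendsto_const_nhds
  have hev : ∀ᶠ x in 𝓝[>] (0 : ℝ), KK x * EE (1 - x) + slope D 0 x * (x * Real.log x) * (κ * KK x) +
      D x * KK x * G x = W := by
    have h3 : ∀ᶠ x in 𝓝[>] (0 : ℝ), x ∈ Ioo (0 : ℝ) 1 := Ioo_mem_nhdsGT one_pos
    filter_upwards [hsing, h3] with x hx hx1
    rw [← h x hx1.1 hx1.2, hx, slope_def_field, hD0, sub_zero, sub_zero]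
    have hx0 : x ≠ 0 := hx1.1.ne'
    simp only [hDdef, Pi.sub_apply]
    field_simp
    ring
  have h4 := tendsto_nhds_unique (hW.congr' (hev.mono fun x hx => hx.symm)) hlim
  rw [h4]
  ring

end Pool.Agent.TH659.AQ
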