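import Pool.Agent.TH659.AQ.Mixed
import Pool.Agent.TH659.AQ.Leg
import Pool.Agent.TH818.AP.LiInd
import Pool.Agent.TH818.AP.LiLoc

/-!
# Elimination; Legendre families and polylogarithms together
-/

set_option autoImplicit false

open Set Filter Topology

namespace Pool.Agent.TH659.AQ

open Pool.Agent.TH818.AR Pool.Agent.TH818.AP

section elimination

variable {σ τ : Type} [Fintype σ] [DecidableEq σ] {d : ℕ}

/-- exponent vectors in a box -/
noncomputable def fs (e : σ → Fin (d + 1)) : σ →₀ ℕ := Finsupp.equivFunOnFinite.symm fun x => (e x : ℕ)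

omit [DecidableEq σ] in
theorem fs_inj : Function.Injective (fs (σ := σ) (d := d)) := by
  intro e e' h
  funext x
  have := DFunLike.congr_fun h x
  exact Fin.ext (by simpa [fs] using this)

theorem aeval_box {R : Type} [CommRing R] (x : σ → R) (P : MvPolynomial σ ℤ) (hP : ∀ i, P.degreeOf i ≤ d) :
    MvPolynomial.aeval x P = ∑ e : σ → Fin (d + 1), ((P.coeff (fs e) : ℤ) : R) * ∏ i, x i ^ (e i : ℕ) := by
  classical
  have h1 : ∀ e : σ → Fin (d + 1), ∏ i, x i ^ (e i : ℕ) = ∏ i, x i ^ (fs e i) := by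
    intro e
    simp [fs]
  simp only [h1]
  rw [MvPolynomial.aeval_def, MvPolynomial.eval₂_eq']
  rw [← Finset.sum_image (f := fun u : σ →₀ ℕ => ((P.coeff u : ℤ) : R) * ∏ i, x i ^ (u i))
    (fun a _ b _ hab => fs_inj hab)]
  refine Finset.sum_subset_zero_on_sdiff ?_ ?_ ?_
  · intro u hu
    rw [Finset.mem_image]
    have hle : ∀ i, u i < d + 1 := fun i =>
      Nat.lt_succ_of_le ((MvPolynomial.monomial_le_degreeOf i hu).trans (hP i))
    refine ⟨fun i => ⟨u i, hle i⟩, Finset.mem_univ _, ?_⟩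
    ext i
    simp [fs]
  · intro u hu
    rw [Finset.mem_sdiff, MvPolynomial.notMem_support_iff] at hu
    rw [hu.2]
    simp
  · intro u _
    simp

/-- substitution of the fractions `num i / den i`, cleared of denominators -/
noncomputable def elimp (d : ℕ) (num den : σ → MvPolynomial τ ℤ) (P : MvPolynomial σ ℤ) : MvPolynomial τ ℤ :=
  ∑ e : σ → Fin (d + 1), MvPolynomial.C (P.coeff (fs e)) * ∏ i, (den i ^ (d - (e i : ℕ)) * num i ^ (e i : ℕ))

theorem aeval_elimp {R : Type} [CommRing R] (num den : σ → MvPolynomial τ ℤ) (x : σ → R) (y : τ → R)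
    (h : ∀ i, MvPolynomial.aeval y (num i) = MvPolynomial.aeval y (den i) * x i) (P : MvPolynomial σ ℤ)
    (hP : ∀ i, P.degreeOf i ≤ d) : MvPolynomial.aeval y (elimp d num den P) =
      (∏ i, MvPolynomial.aeval y (den i)) ^ d * MvPolynomial.aeval x P := by
  rw [aeval_box x P hP, elimp, map_sum, Finset.mul_sum]
  refine Finset.sum_congr rfl fun e _ => ?_
  rw [map_mul, map_prod, MvPolynomial.aeval_C, mul_left_comm, ← Finset.prod_pow, ← Finset.prod_mul_distrib]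
  congr 1
  refine Finset.prod_congr rfl fun i _ => ?_
  rw [map_mul, map_pow, map_pow, h i, mul_pow, ← mul_assoc, ← pow_add]
  congr 2
  have := (e i).2
  omega

theorem elimp_bound [Fintype τ] (num den : σ → MvPolynomial τ ℤ) : ∃ (D : ℕ) (K : ℝ), 1 ≤ K ∧
    ∀ (P : MvPolynomial σ ℤ) (M : ℝ), 0 ≤ M → (∀ u, |((P.coeff u : ℤ) : ℝ)| ≤ M) →
    (∀ z, (elimp d num den P).degreeOf z ≤ D) ∧ ∀ u, |(((elimp d num den P).coeff u : ℤ) : ℝ)| ≤ K * M := by
  classical
  set Q : (σ → Fin (d + 1)) → MvPolynomial τ ℤ := fun e =>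
    ∏ i, (den i ^ (d - (e i : ℕ)) * num i ^ (e i : ℕ)) with hQ
  set c : (σ → Fin (d + 1)) → ℝ := fun e => ∑ u ∈ (Q e).support, |(((Q e).coeff u : ℤ) : ℝ)| with hc
  have hc0 : ∀ e, 0 ≤ c e := fun e => Finset.sum_nonneg fun _ _ => abs_nonneg _
  have hcc : ∀ e u, |(((Q e).coeff u : ℤ) : ℝ)| ≤ c e := by
    intro e u
    by_cases hu : u ∈ (Q e).support
    · exact Finset.single_le_sum (f := fun u => |(((Q e).coeff u : ℤ) : ℝ)|) (fun _ _ => abs_nonneg _) hu
    · rw [MvPolynomial.notMem_support_iff] at hu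
      rw [hu]
      simpa using hc0 e
  refine ⟨∑ e, ∑ z, (Q e).degreeOf z, 1 + ∑ e, c e, ?_, ?_⟩
  · have := Finset.sum_nonneg fun e (_ : e ∈ Finset.univ) => hc0 e
    linarith
  intro P M hM hP
  refine ⟨fun z => ?_, fun u => ?_⟩
  · unfold elimp
    refine (MvPolynomial.degreeOf_sum_le z _ _).trans (Finset.sup_le fun e _ => ?_)
    refine (MvPolynomial.degreeOf_C_mul_le _ _ _).trans ?_
    refine le_trans ?_ (Finset.single_le_sum (f := fun e => ∑ z, (Q e).degreeOf z) (fun _ _ => Nat.zero_le _)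
      (Finset.mem_univ e))
    exact Finset.single_le_sum (f := fun z => (Q e).degreeOf z) (fun _ _ => Nat.zero_le _) (Finset.mem_univ z)
  · unfold elimp
    rw [MvPolynomial.coeff_sum]
    push_cast
    refine (Finset.abs_sum_le_sum_abs _ _).trans ?_
    calc ∑ e, |(((MvPolynomial.C (P.coeff (fs e)) * Q e).coeff u : ℤ) : ℝ)| ≤ ∑ e, M * c e := by
          refine Finset.sum_le_sum fun e _ => ?_
          rw [MvPolynomial.coeff_C_mul]
          push_cast
          rw [abs_mul]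
          exact mul_le_mul (hP _) (hcc e u) (abs_nonneg _) hM
      _ = (∑ e, c e) * M := by rw [← Finset.mul_sum, mul_comm]
      _ ≤ (1 + ∑ e, c e) * M := by nlinarith
end elimination

/-- the functions -/
noncomputable def u2 {N w : ℕ} (α γ : Fin N → ℝ) (p : (Fin N × Fin 3) ⊕ Fin (w + 1)) (t : ℝ) : ℝ :=
  match p with
  | Sum.inl z => KC (α z.1) (γ z.1) z.2 t
  | Sum.inr k => pl (k : ℕ) t

theorem pl_an (k : ℕ) (t : ℝ) (h0 : 0 < t) (h1 : t < 1) : AnalyticAt ℝ (pl k) t := by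
  by_cases hk : k = 0
  · have : pl k = Real.log := by funext t; simp [pl, hk]
    rw [this]
    exact analyticAt_log h0
  · have : pl k = Li k := by funext t; simp [pl, hk]
    rw [this]
    exact liAn _ t ⟨by linarith, h1⟩

theorem u2_an {N w : ℕ} (α γ : Fin N → ℝ) (t : ℝ) (h : ∀ j, α j < t ∧ t < γ j) (h0 : 0 < t) (h1 : t < 1)
    (p : (Fin N × Fin 3) ⊕ Fin (w + 1)) : AnalyticAt ℝ (u2 α γ p) t := by
  rcases p with z | i
  · exact kc_an _ _ ((h z.1).1.trans (h z.1).2) z.2 t (h z.1).1 (h z.1).2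
  · exact pl_an _ t h0 h1

theorem u2_ind {N w : ℕ} (d : ℕ) (α γ : Fin N → ℝ) (hα : StrictAnti α) (hγ : StrictMono γ)
    (hαγ : ∀ j, α j < γ j) (h0 : ∀ j, 0 < α j) (h1 : ∀ j, γ j < 1)
    (a b : ℝ) (ha : 0 < a) (hab : a < b) (hb : b < 1) (huj : ∀ j, α j ≤ a ∧ b ≤ γ j) :
    RIndep (fun (e : ((Fin N × Fin 3) ⊕ Fin (w + 1)) → Fin (d + 1)) (t : ℝ) =>
      ∏ p, u2 α γ p t ^ (e p : ℕ)) a b := by
  classical
  intro p hp
  let P : (Fin N → Fin 3 → Fin (d + 1)) → ℝ → ℝ := fun e1 t =>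
    ∑ e2 : Fin (w + 1) → Fin (d + 1), (p (eqE2 N (w + 1) d (e1, e2))).eval t * gLi e2 t
  have hPan : ∀ e1, AnalyticOnNhd ℝ (P e1) (Ioo 0 1) := by
    intro e1 t ht
    refine Finset.analyticAt_fun_sum _ fun e2 _ => AnalyticAt.mul ?_ ?_
    · exact AnalyticOnNhd.eval_polynomial _ t (mem_univ _)
    · unfold gLi
      exact Finset.analyticAt_fun_prod _ fun i _ => (pl_an i t ht.1 ht.2).pow _
  have hrel : ∀ t ∈ Ioo a b, ∑ e1, P e1 t * mon α γ e1 t = 0 := by
    intro t ht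
    have h1 := hp t (Ioo_subset_Icc_self ht)
    rw [← Equiv.sum_comp (eqE2 N (w + 1) d), Fintype.sum_prod_type] at h1
    rw [← h1]
    refine Finset.sum_congr rfl fun e1 _ => ?_
    simp only [P, Finset.sum_mul]
    refine Finset.sum_congr rfl fun e2 _ => ?_
    have h2 : ∏ p, u2 α γ p t ^ ((eqE2 N (w + 1) d (e1, e2) p : Fin (d + 1)) : ℕ) = mon α γ e1 t * gLi e2 t := by
      rw [Fintype.prod_sum_type, Fintype.prod_prod_type]
      rfl
    rw [h2]
    ring
  have hz := NestL.main an (ind3r_of an pos leg sing tr) d N α γ 0 1 a b P hα hγ hαγ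
    (fun j => ⟨h0 j, h1 j⟩) hPan hab ha.le hb.le huj hrel
  funext e
  obtain ⟨⟨e1, e2⟩, rfl⟩ := (eqE2 N (w + 1) d).surjective e
  have h2 := liInd_of liAn liLoc w d ((3 * a + b) / 4) ((a + 3 * b) / 4) (by linarith) (by linarith) (by linarith)
    (fun e2 => p (eqE2 N (w + 1) d (e1, e2))) (by
      intro t ht
      exact hz e1 t ⟨by linarith [ht.1], by linarith [ht.2]⟩)
  exact congrFun h2 e2

/-- abstract form: equality of values is decided by approximations for almost all tuples -/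
theorem gap {σ κ : Type} [Fintype σ] [DecidableEq σ] [Fintype κ] [DecidableEq κ] (n d : ℕ) (hn : 1 ≤ n) (u : κ → ℝ → ℝ)
    (a b : ℝ) (hab : a < b) (han : ∀ k, AnalyticOnNhd ℝ (u k) (Set.Icc a b))
    (hg : ∀ D : ℕ, RIndep (fun (e : κ → Fin (D + 1)) (t : ℝ) => ∏ k, u k t ^ (e k : ℕ)) a b)
    (num den : σ → MvPolynomial (Option (Fin n × κ)) ℤ) (x : (Fin n → ℚ) → σ → ℝ) (N0 : ℝ)
    (hx : ∀ q : Fin n → ℚ, (∀ l, a ≤ q l ∧ q l ≤ b) → (∀ i, MvPolynomial.aeval (vR u q) (num i) =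
      MvPolynomial.aeval (vR u q) (den i) * x q i) ∧ |(∏ i, MvPolynomial.aeval (vR u q) (den i)) ^ d| ≤ N0)
    (A : ℝ) (hA : 0 ≤ A) :
    ∃ β B C : ℝ, β < 2 ∧ ∀ T : ℝ, 1 ≤ T → ∃ S : Set (Fin n → ℚ), S.Finite ∧
      ((S.ncard : ℝ) ≤ C * T ^ (2 * ((n : ℝ) - 1) + β)) ∧ ∀ q : Fin n → ℚ,
      (∀ l, a ≤ q l ∧ q l ≤ b ∧ ((q l).den : ℝ) ≤ T) → q ∉ S → ∀ P : MvPolynomial σ ℤ, (∀ i, P.degreeOf i ≤ d) →
      (∀ u, |((P.coeff u : ℤ) : ℝ)| ≤ 2 * T ^ A) → |MvPolynomial.aeval (x q) P| ≤ 4 * T ^ (-B) →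
      elimp d num den P = 0 := by
  classical
  obtain ⟨D, K, hK, hbd⟩ := elimp_bound (d := d) num den
  set M : ℝ := ((D : ℝ) + 1) ^ (Fintype.card κ * n + 1) with hM
  have hM0 : 0 < M := by positivity
  set β : ℝ := 2 - 1 / (M + 1) with hβ
  have hβ2 : β < 2 := by
    rw [hβ]
    have : 0 < 1 / (M + 1) := by positivity
    linarith
  have hβ1 : 2 - 2 / (M + 1) < β := by
    rw [hβ]
    have h1 : 0 < 1 / (M + 1) := by positivity
    have h2 : 2 / (M + 1) = 2 * (1 / (M + 1)) := by ring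
    rw [h2]
    linarith
  obtain ⟨B, C, h⟩ := polysR (n := n) (d := D) u a b hab han (hg D) hn (A + 1) β (by linarith) hβ1
  set T0 : ℝ := max (2 * K) (max 2 (4 * |N0|)) with hT0
  have hT02 : 2 ≤ T0 := (le_max_left _ _).trans (le_max_right _ _)
  -- small `T`
  have hfin0 : {q : Fin n → ℚ | ∀ l, (q l : ℝ) ∈ Icc a b ∧ ((q l).den : ℝ) ≤ T0}.Finite := by
    have h1 : {q : Fin n → ℚ | ∀ l, (q l : ℝ) ∈ Icc a b ∧ ((q l).den : ℝ) ≤ T0} =
        Set.pi Set.univ fun _ : Fin n => {q : ℚ | (q : ℝ) ∈ Icc a b ∧ (q.den : ℝ) ≤ T0} := by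
      ext q
      simp
    rw [h1]
    exact Set.Finite.pi (fun _ => finite_rat a b T0)
  set C0 : ℝ := ({q : Fin n → ℚ | ∀ l, (q l : ℝ) ∈ Icc a b ∧ ((q l).den : ℝ) ≤ T0}.ncard : ℝ) with hC0
  refine ⟨β, B + 1, max C C0, hβ2, fun T hT => ?_⟩
  have hTp : 0 < T := by linarith
  have hexp : 0 ≤ 2 * ((n : ℝ) - 1) + β := by
    have h1 : (1 : ℝ) ≤ n := by exact_mod_cast hn
    have h2 : 1 / (M + 1) ≤ 1 := by
      rw [div_le_one (by positivity)]
      linarith
    have h3 : 0 ≤ β := by rw [hβ]; linarith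
    linarith
  rcases lt_or_ge T T0 with hlt | hge
  · refine ⟨{q : Fin n → ℚ | ∀ l, (q l : ℝ) ∈ Icc a b ∧ ((q l).den : ℝ) ≤ T0}, hfin0, ?_, ?_⟩
    · have h1 : 1 ≤ T ^ (2 * ((n : ℝ) - 1) + β) := Real.one_le_rpow hT hexp
      have h2 : 0 ≤ C0 := by positivity
      calc C0 = C0 * 1 := (mul_one _).symm
        _ ≤ max C C0 * T ^ (2 * ((n : ℝ) - 1) + β) := mul_le_mul (le_max_right _ _) h1 zero_le_one
            (h2.trans (le_max_right _ _))
    · intro q hq hqS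
      exact absurd (fun l => ⟨⟨(hq l).1, (hq l).2.1⟩, (hq l).2.2.trans hlt.le⟩) hqS
  · obtain ⟨hf, hc⟩ := h T hT
    refine ⟨_, hf, hc.trans ?_, ?_⟩
    · have h1 : 0 ≤ T ^ (2 * ((n : ℝ) - 1) + β) := by positivity
      exact mul_le_mul_of_nonneg_right (le_max_left _ _) h1
    · intro q hq hqS P hPd hPc hPs
      by_contra hne
      obtain ⟨hx1, hx2⟩ := hx q fun l => ⟨(hq l).1, (hq l).2.1⟩
      obtain ⟨hb1, hb2⟩ := hbd P (2 * T ^ A) (by positivity) hPc
      apply hqS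
      refine ⟨hq, elimp d num den P, hne, hb1, fun v => (hb2 v).trans ?_, ?_⟩
      · have h1 : 2 * K ≤ T := (le_max_left _ _).trans hge
        rw [Real.rpow_add hTp, Real.rpow_one]
        have h2 : 0 < T ^ A := by positivity
        calc K * (2 * T ^ A) = T ^ A * (2 * K) := by ring
          _ ≤ T ^ A * T := by gcongr
      · rw [aeval_elimp num den (x q) (vR u q) hx1 P hPd, abs_mul]
        have h1 : 4 * |N0| ≤ T := ((le_max_right _ _).trans (le_max_right _ _)).trans hge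
        have h2 : T ^ (-(B + 1)) = T ^ (-B) * T⁻¹ := by
          rw [show -(B + 1) = -B + (-1) by ring, Real.rpow_add hTp, Real.rpow_neg_one]
        have h3 : 0 < T ^ (-B) := by positivity
        calc |(∏ i, MvPolynomial.aeval (vR u q) (den i)) ^ d| * |MvPolynomial.aeval (x q) P|
            ≤ |N0| * (4 * T ^ (-(B + 1))) :=
              mul_le_mul (hx2.trans (le_abs_self _)) hPs (abs_nonneg _) (abs_nonneg _)
          _ = (4 * |N0|) * T⁻¹ * T ^ (-B) := by rw [h2]; ring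
          _ ≤ T * T⁻¹ * T ^ (-B) := by gcongr
          _ = T ^ (-B) := by rw [mul_inv_cancel₀ hTp.ne', one_mul]

end Pool.Agent.TH659.AQ
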