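import Pool.Agent.TH659.AQ.Base
import Pool.Agent.TH659.AQ.Gam

/-!
# Algebraic independence from growth
-/

set_option autoImplicit false

open Set Polynomial Filter Topology

namespace Pool.Agent.TH659.AQ

theorem poly_exp (p : ℝ[X]) (c : ℝ) (hc : 0 < c) :
    Tendsto (fun t : ℝ => p.eval t * Real.exp (-(c * t))) atTop (𝓝 0) := by
  have h1 := (Polynomial.tendsto_div_exp_atTop (p.comp (C c⁻¹ * X))).comp (tendsto_id.const_mul_atTop hc)
  refine h1.congr fun t => ?_
  simp only [Function.comp, id, eval_comp, eval_mul, eval_C, eval_X, Real.exp_neg, div_eq_mul_inv]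
  rw [← mul_assoc, inv_mul_cancel₀ hc.ne', one_mul]

theorem mo_pos {n d : ℕ} {f : Fin n → ℝ → ℝ} {t : ℝ} (h : ∀ j, 0 < f j t) (e : Fin n → Fin (d + 1)) :
    0 < mo f e t := Finset.prod_pos fun j _ => pow_pos (h j) _

/-- monomials of different growth -/
theorem ind_of_growth {n d : ℕ} (f : Fin n → ℝ → ℝ) (K : (Fin n → Fin (d + 1)) → ℝ ×ₗ ℝ)
    (hK : Function.Injective K) (hpos : ∀ᶠ t in atTop, ∀ j, 0 < f j t)
    (hdom : ∀ e e', K e < K e' → ∃ c : ℝ, 0 < c ∧ ∀ᶠ t in atTop, mo f e t ≤ Real.exp (-(c * t)) * mo f e' t)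
    (p : (Fin n → Fin (d + 1)) → ℝ[X]) (h : ∀ᶠ t in atTop, ∑ e, (p e).eval t * mo f e t = 0) : p = 0 := by
  classical
  by_contra hp
  obtain ⟨e1, he1⟩ : ∃ e, p e ≠ 0 := by
    by_contra hcon
    push Not at hcon
    exact hp (funext hcon)
  obtain ⟨e0, he0, hmax⟩ := Finset.exists_max_image (Finset.univ.filter fun e => p e ≠ 0) K
    ⟨e1, by simp [he1]⟩
  rw [Finset.mem_filter] at he0
  have hterm : ∀ e ∈ Finset.univ.erase e0,
      Tendsto (fun t => (p e).eval t * (mo f e t / mo f e0 t)) atTop (𝓝 0) := by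
    intro e he
    rcases eq_or_ne (p e) 0 with h0 | h0
    · simp [h0]
    have hlt : K e < K e0 := lt_of_le_of_ne (hmax e (by simp [h0])) (fun hh => (Finset.ne_of_mem_erase he) (hK hh))
    obtain ⟨c, hc, hev⟩ := hdom e e0 hlt
    have h1 : Tendsto (fun t : ℝ => |(p e).eval t * Real.exp (-(c * t))|) atTop (𝓝 0) := by
      have := (poly_exp (p e) c hc).abs
      rwa [abs_zero] at this
    refine squeeze_zero_norm' ?_ h1
    filter_upwards [hev, hpos] with t ht1 ht2
    have hm := mo_pos ht2 e0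
    have hm' := mo_pos ht2 e
    rw [Real.norm_eq_abs, abs_mul, abs_mul, abs_of_pos (div_pos hm' hm), abs_of_pos (Real.exp_pos _)]
    gcongr
    rwa [div_le_iff₀ hm]
  have hsum := tendsto_finsetSum _ hterm
  rw [Finset.sum_const_zero] at hsum
  have hlim : Tendsto (fun t => (p e0).eval t) atTop (𝓝 0) := by
    have h2 := hsum.neg
    rw [neg_zero] at h2
    refine h2.congr' ?_
    filter_upwards [h, hpos] with t ht1 ht2
    have hm := mo_pos ht2 e0
    have h3 : ∑ e, (p e).eval t * (mo f e t / mo f e0 t) = 0 := by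
      have : ∑ e, (p e).eval t * (mo f e t / mo f e0 t) = (∑ e, (p e).eval t * mo f e t) / mo f e0 t := by
        rw [Finset.sum_div]
        exact Finset.sum_congr rfl fun e _ => by ring
      rw [this, ht1, zero_div]
    rw [← Finset.add_sum_erase _ _ (Finset.mem_univ e0), div_self hm.ne', mul_one] at h3
    linarith
  have h4 := (Polynomial.tendsto_nhds_iff _).1 hlim
  exact he0.2 (leadingCoeff_eq_zero.1 h4.1)

/-- continuation of a relation -/
theorem extend {n d : ℕ} (f : Fin n → ℝ → ℝ) (a b : ℝ) (han : ∀ j, AnalyticOnNhd ℝ (f j) (Ici a))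
    (hab : a < b) (p : (Fin n → Fin (d + 1)) → ℝ[X]) (h : ∀ t ∈ Icc a b, ∑ e, (p e).eval t * mo f e t = 0) :
    ∀ t, a ≤ t → ∑ e, (p e).eval t * mo f e t = 0 := by
  classical
  have h1 : AnalyticOnNhd ℝ (fun t => ∑ e, (p e).eval t * mo f e t) (Ici a) := by
    intro t ht
    refine Finset.analyticAt_fun_sum _ fun e _ => ?_
    refine AnalyticAt.mul ?_ ?_
    · exact AnalyticOnNhd.eval_polynomial (p e) t (mem_univ _)
    · unfold mo
      exact Finset.analyticAt_fun_prod _ fun j _ => (han j t ht).pow _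
  have h2 : (fun t => ∑ e, (p e).eval t * mo f e t) =ᶠ[𝓝 ((a + b) / 2)] 0 := by
    filter_upwards [Icc_mem_nhds (show a < (a + b) / 2 by linarith) (show (a + b) / 2 < b by linarith)] with t ht
    exact h t ht
  have h3 := h1.eqOn_zero_of_preconnected_of_eventuallyEq_zero isPreconnected_Ici
    (show (a + b) / 2 ∈ Ici a by rw [mem_Ici]; linarith) h2
  intro t ht
  exact h3 ht

/-! ## The Gamma function -/

/-- `log Γ(αt + γ)` minus the main terms -/
noncomputable def RR (α γ t : ℝ) : ℝ :=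
  Real.log (Real.Gamma (α * t + γ)) - α * (t * Real.log t) - (α * Real.log α - α) * t

theorem rr_small (α γ : ℝ) (hα : 0 < α) : Tendsto (fun t : ℝ => RR α γ t / t) atTop (𝓝 0) := by
  obtain ⟨C, hC, hG⟩ := GG_bound
  have hx : Tendsto (fun t : ℝ => α * t + γ) atTop atTop :=
    tendsto_atTop_add_const_right _ _ (tendsto_id.const_mul_atTop hα)
  have hinv : Tendsto (fun t : ℝ => γ / t) atTop (𝓝 0) := tendsto_const_nhds.div_atTop tendsto_id
  have hq : Tendsto (fun t : ℝ => (α * t + γ) / t) atTop (𝓝 α) := by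
    have h1 := hinv.const_add α
    rw [add_zero] at h1
    refine h1.congr' ?_
    filter_upwards [eventually_gt_atTop 0] with t ht
    field_simp
  have hlog0 : Tendsto (fun t : ℝ => Real.log t / t) atTop (𝓝 0) :=
    Real.isLittleO_log_id_atTop.tendsto_div_nhds_zero
  -- the error term of Stirling's formula
  have t1 : Tendsto (fun t : ℝ => GG (α * t + γ) / t) atTop (𝓝 0) := by
    have h3 : Tendsto (fun x : ℝ => C / x + 2 * (Real.log x / x)) atTop (𝓝 (0 + 2 * 0)) := by
      refine Tendsto.add (tendsto_const_nhds.div_atTop tendsto_id) (Tendsto.const_mul 2 ?_)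
      exact Real.isLittleO_log_id_atTop.tendsto_div_nhds_zero
    have h5 := (h3.comp hx).mul hq
    simp only [mul_zero, add_zero, zero_mul] at h5
    refine squeeze_zero_norm' ?_ h5
    filter_upwards [hx.eventually_ge_atTop 1, eventually_gt_atTop 0] with t ht ht0
    have h6 := hG _ ht
    have hx0 : 0 < α * t + γ := by linarith
    rw [Real.norm_eq_abs, abs_div, abs_of_pos ht0, div_le_iff₀ ht0]
    refine h6.trans (le_of_eq ?_)
    simp only [Function.comp]
    field_simp
  have t2 : Tendsto (fun t : ℝ => (α * t + γ) / t * Real.log ((α * t + γ) / t / α)) atTop (𝓝 0) := by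
    have h1 : Tendsto (fun t : ℝ => (α * t + γ) / t / α) atTop (𝓝 1) := by
      have := hq.div_const α
      rwa [div_self hα.ne'] at this
    have h2 := (Real.continuousAt_log one_ne_zero).tendsto.comp h1
    rw [Real.log_one] at h2
    have := hq.mul h2
    rwa [mul_zero] at this
  have t3 : Tendsto (fun t : ℝ => γ * (Real.log t / t) + Real.log α * (γ / t) - γ / t) atTop (𝓝 0) := by
    have := ((hlog0.const_mul γ).add (hinv.const_mul (Real.log α))).sub hinv
    simpa using this
  have := (t1.add t2).add t3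
  simp only [add_zero] at this
  refine this.congr' ?_
  filter_upwards [hx.eventually_ge_atTop 1, eventually_gt_atTop 0] with t ht ht0
  have hx0 : 0 < α * t + γ := by linarith
  have e1 : Real.log ((α * t + γ) / t / α) = Real.log (α * t + γ) - Real.log t - Real.log α := by
    rw [Real.log_div (by positivity) hα.ne', Real.log_div hx0.ne' ht0.ne']
  rw [e1]
  unfold RR GG
  field_simp
  ring

section

variable {n : ℕ} (α γ : Fin n → ℝ)

/-- first exponent -/
noncomputable def s1 {d : ℕ} (e : Fin n → Fin (d + 1)) : ℝ := ∑ j, ((e j : ℕ) : ℝ) * α j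
/-- second exponent -/
noncomputable def s2 {d : ℕ} (e : Fin n → Fin (d + 1)) : ℝ := ∑ j, ((e j : ℕ) : ℝ) * (α j * Real.log (α j))

/-- the functions -/
noncomputable def gf (j : Fin n) (t : ℝ) : ℝ := Real.Gamma (α j * t + γ j)

theorem log_mo {d : ℕ} (e : Fin n → Fin (d + 1)) {t : ℝ} (ht : ∀ j, 0 < gf α γ j t) :
    Real.log (mo (gf α γ) e t) =
      s1 α e * (t * Real.log t) + (s2 α e - s1 α e) * t + ∑ j, ((e j : ℕ) : ℝ) * RR (α j) (γ j) t := by
  unfold mo
  rw [Real.log_prod (fun j _ => (pow_pos (ht j) _).ne')]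
  simp only [Real.log_pow, gf, RR, s1, s2]
  rw [Finset.sum_mul, ← Finset.sum_sub_distrib, Finset.sum_mul, ← Finset.sum_add_distrib, ← Finset.sum_add_distrib]
  exact Finset.sum_congr rfl fun j _ => by ring

theorem rest_small {d : ℕ} (hα : ∀ j, 0 < α j) (e : Fin n → Fin (d + 1)) :
    Tendsto (fun t : ℝ => (∑ j, ((e j : ℕ) : ℝ) * RR (α j) (γ j) t) / t) atTop (𝓝 0) := by
  have h1 : ∀ j ∈ (Finset.univ : Finset (Fin n)),
      Tendsto (fun t : ℝ => ((e j : ℕ) : ℝ) * (RR (α j) (γ j) t / t)) atTop (𝓝 0) := by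
    intro j _
    have := (rr_small (α j) (γ j) (hα j)).const_mul ((e j : ℕ) : ℝ)
    rwa [mul_zero] at this
  have h7 := tendsto_finsetSum _ h1
  rw [Finset.sum_const_zero] at h7
  refine h7.congr fun t => ?_
  rw [Finset.sum_div]
  exact Finset.sum_congr rfl fun j _ => by ring

theorem gf_pos (hα : ∀ j, 0 < α j) : ∀ᶠ t in atTop, ∀ j, 0 < gf α γ j t := by
  rw [eventually_all]
  intro j
  have hx : Tendsto (fun t : ℝ => α j * t + γ j) atTop atTop :=
    tendsto_atTop_add_const_right _ _ (tendsto_id.const_mul_atTop (hα j))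
  filter_upwards [hx.eventually_gt_atTop 0] with t ht
  exact Real.Gamma_pos_of_pos ht

theorem gam_dom {d : ℕ} (hα : ∀ j, 0 < α j) (e e' : Fin n → Fin (d + 1))
    (h : toLex (s1 α e, s2 α e) < toLex (s1 α e', s2 α e')) :
    ∃ c : ℝ, 0 < c ∧ ∀ᶠ t in atTop, mo (gf α γ) e t ≤ Real.exp (-(c * t)) * mo (gf α γ) e' t := by
  have hR := (rest_small α γ hα e).sub (rest_small α γ hα e')
  rw [sub_zero] at hR
  -- it is enough to bound the difference of the logarithms
  have hred : ∀ c : ℝ, (∀ᶠ t : ℝ in atTop, (s1 α e - s1 α e') * Real.log t + ((s2 α e - s1 α e) - (s2 α e' - s1 α e')) +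
      ((∑ j, ((e j : ℕ) : ℝ) * RR (α j) (γ j) t) / t - (∑ j, ((e' j : ℕ) : ℝ) * RR (α j) (γ j) t) / t) ≤ -c) →
      ∀ᶠ t in atTop, mo (gf α γ) e t ≤ Real.exp (-(c * t)) * mo (gf α γ) e' t := by
    intro c hc
    filter_upwards [hc, eventually_gt_atTop 0, gf_pos α γ hα] with t ht ht0 hpos
    have hm : 0 < mo (gf α γ) e t := mo_pos hpos e
    have hm' : 0 < mo (gf α γ) e' t := mo_pos hpos e'
    have h1 := log_mo α γ e hpos
    have h2 := log_mo α γ e' hpos
    rw [← Real.exp_log hm, ← Real.exp_log hm', ← Real.exp_add, Real.exp_le_exp, h1, h2]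
    have h3 := mul_le_mul_of_nonneg_right ht ht0.le
    have h4 : ((s1 α e - s1 α e') * Real.log t + ((s2 α e - s1 α e) - (s2 α e' - s1 α e')) +
      ((∑ j, ((e j : ℕ) : ℝ) * RR (α j) (γ j) t) / t - (∑ j, ((e' j : ℕ) : ℝ) * RR (α j) (γ j) t) / t)) * t =
      (s1 α e - s1 α e') * (t * Real.log t) + ((s2 α e - s1 α e) - (s2 α e' - s1 α e')) * t +
      ((∑ j, ((e j : ℕ) : ℝ) * RR (α j) (γ j) t) - (∑ j, ((e' j : ℕ) : ℝ) * RR (α j) (γ j) t)) := by
      generalize (∑ j, ((e j : ℕ) : ℝ) * RR (α j) (γ j) t) = R1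
      generalize (∑ j, ((e' j : ℕ) : ℝ) * RR (α j) (γ j) t) = R2
      field_simp
    rw [h4] at h3
    linarith
  rcases (Prod.Lex.toLex_lt_toLex).1 h with h1 | ⟨h1, h2⟩
  · refine ⟨1, one_pos, hred 1 ?_⟩
    simp only at h1
    have hlog : Tendsto (fun t : ℝ => (s1 α e - s1 α e') * Real.log t) atTop atBot :=
      Real.tendsto_log_atTop.const_mul_atTop_of_neg (by linarith)
    have h3 := hlog.atBot_add ((tendsto_const_nhds (x := ((s2 α e - s1 α e) - (s2 α e' - s1 α e')))).add hR)
    filter_upwards [h3.eventually_le_atBot (-1)] with t ht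
    linarith
  · simp only at h1 h2
    refine ⟨(s2 α e' - s2 α e) / 2, by linarith, hred _ ?_⟩
    filter_upwards [hR.eventually_le_const (show (0 : ℝ) < (s2 α e' - s2 α e) / 2 by linarith)] with t ht
    rw [h1, sub_self, zero_mul]
    linarith

theorem gf_an (j : Fin n) {t : ℝ} (h : 0 < α j * t + γ j) : AnalyticAt ℝ (gf α γ j) t := by
  have h1 : AnalyticAt ℝ (fun t : ℝ => α j * t + γ j) t := (analyticAt_const.mul analyticAt_id).add analyticAt_const
  exact AnalyticAt.comp (g := Real.Gamma) (f := fun t : ℝ => α j * t + γ j) (gamma_an h) h1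

theorem arg_pos (hα : ∀ j, 0 < α j) {a : ℝ} (ha : ∀ j, 0 < α j * a + γ j) (j : Fin n) {t : ℝ} (ht : a ≤ t) :
    0 < α j * t + γ j := by
  have := mul_le_mul_of_nonneg_left ht (hα j).le
  linarith [ha j]

/-- independence of `Γ(α_j t + γ_j)` -/
theorem gam_ind (d : ℕ) (hα : ∀ j, 0 < α j)
    (hH : ∀ m : Fin n → ℤ, ∑ j, (m j : ℝ) * α j = 0 → ∑ j, (m j : ℝ) * (α j * Real.log (α j)) = 0 → m = 0)
    (a b : ℝ) (ha : ∀ j, 0 < α j * a + γ j) (hab : a < b) : FInd (gf α γ) d a b := by
  intro p hp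
  have hext := extend (gf α γ) a b (fun j t ht => gf_an α γ j (arg_pos α γ hα ha j ht)) hab p hp
  refine ind_of_growth (gf α γ) (fun e => toLex (s1 α e, s2 α e)) ?_ (gf_pos α γ hα) ?_ p ?_
  · intro e e' h
    have h1 : (s1 α e, s2 α e) = (s1 α e', s2 α e') := toLex.injective h
    rw [Prod.mk.injEq] at h1
    have h2 := hH (fun j => ((e j : ℕ) : ℤ) - ((e' j : ℕ) : ℤ)) (by
      have := h1.1
      simp only [s1] at this
      push_cast
      simp only [sub_mul, Finset.sum_sub_distrib]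
      linarith) (by
      have := h1.2
      simp only [s2] at this
      push_cast
      simp only [sub_mul, Finset.sum_sub_distrib]
      linarith)
    funext j
    have := congrFun h2 j
    simp only [Pi.zero_apply] at this
    exact Fin.ext (by omega)
  · exact fun e e' h => gam_dom α γ hα e e' h
  · filter_upwards [eventually_ge_atTop a] with t ht
    exact hext t ht

end

end Pool.Agent.TH659.AQ
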