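import Pool.Agent.TH659.AQ.ZMulti
import Pool.Agent.TH659.AQ.Log
import Pool.Agent.TH659.AQ.StrRank

/-!
# Homogeneous relations between `log N` and `log (u_j + x_i N)`
-/

set_option autoImplicit false

open Set Polynomial Filter Topology

namespace Pool.Agent.TH659.AQ

open Pool.Agent.TH818.AR Pool.Agent.TH818.AP

section

variable {n k m : ℕ}

/-- the values `log N` and `log (q_j + x_i)` -/
noncomputable def hv (x : Fin k → ℝ) (l : ℝ) (q : Fin n → ℚ) (s : Option (Fin n × Fin k)) : ℝ :=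
  match s with
  | none => l
  | some y => lf x y.2 (q y.1)

/-- total degree of the exponents -/
def tdeg (e : (Fin n → Fin k → Fin (m + 1)) × Unit) : ℕ := ∑ j, ∑ i, (e.1 j i : ℕ)

/-- the homogenized exponent vector -/
noncomputable def hx (e : (Fin n → Fin k → Fin (m + 1)) × Unit) : Option (Fin n × Fin k) →₀ ℕ :=
  Finsupp.equivFunOnFinite.symm fun x => match x with
    | none => m - tdeg e
    | some y => (e.1 y.1 y.2 : ℕ)

theorem hx_inj : Function.Injective (hx (n := n) (k := k) (m := m)) := by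
  intro e e' h
  refine Prod.ext ?_ rfl
  funext j i
  have := DFunLike.congr_fun h (some (j, i))
  exact Fin.ext (by simpa [hx] using this)

theorem exists_hx (u : Option (Fin n × Fin k) →₀ ℕ) (hu : ∑ s, u s = m) :
    ∃ e : (Fin n → Fin k → Fin (m + 1)) × Unit, tdeg e ≤ m ∧ hx e = u := by
  have hle : ∀ s, u s < m + 1 := fun s => by
    rw [← hu, Nat.lt_succ_iff]
    exact Finset.single_le_sum (f := fun s => u s) (fun _ _ => Nat.zero_le _) (Finset.mem_univ s)
  have hsum : u none + ∑ j, ∑ i, u (some (j, i)) = m := by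
    rw [← hu, Fintype.sum_option, Fintype.sum_prod_type]
  have htd : tdeg ((fun j i => ⟨u (some (j, i)), hle _⟩, ()) : (Fin n → Fin k → Fin (m + 1)) × Unit) =
      ∑ j, ∑ i, u (some (j, i)) := rfl
  refine ⟨(fun j i => ⟨u (some (j, i)), hle _⟩, ()), by rw [htd]; omega, ?_⟩
  ext s
  cases s with
  | none =>
    simp only [hx, Finsupp.equivFunOnFinite_symm_apply_apply, htd]
    omega
  | some y => simp [hx]

/-- the scaling factors -/
noncomputable def sc (l : ℝ) (e : Fin k → Fin (m + 1)) : ℝ := (l ^ (∑ i, (e i : ℕ)))⁻¹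

/-- the dehomogenized coefficients -/
noncomputable def dc (P : MvPolynomial (Option (Fin n × Fin k)) ℤ) (e : (Fin n → Fin k → Fin (m + 1)) × Unit) : ℤ :=
  if tdeg e ≤ m then P.coeff (hx e) else 0

theorem mono_eq (x : Fin k → ℝ) (l : ℝ) (hl : 0 < l) (q : Fin n → ℚ) (e : (Fin n → Fin k → Fin (m + 1)) × Unit)
    (he : tdeg e ≤ m) :
    monoZ (fun (_ : Fin n) (e : Fin k → Fin (m + 1)) (t : ℝ) => ∏ i, lf x i t ^ (e i : ℕ)) (sc l)
      (fun _ : Unit => (1 : ℝ)) q e = (l ^ m)⁻¹ * ∏ s, hv x l q s ^ (hx e s) := by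
  unfold monoZ
  rw [Fintype.prod_option, Fintype.prod_prod_type, Finset.prod_mul_distrib, mul_one]
  have h1 : ∏ j, sc (m := m) l (e.1 j) = (l ^ tdeg e)⁻¹ := by
    simp only [sc]
    rw [Finset.prod_inv_distrib, Finset.prod_pow_eq_pow_sum]
    rfl
  have h2 : hv x l q none ^ (hx e none) = l ^ (m - tdeg e) := by
    simp [hv, hx]
  have h3 : (l ^ m)⁻¹ * l ^ (m - tdeg e) = (l ^ tdeg e)⁻¹ := by
    have : l ^ m = l ^ tdeg e * l ^ (m - tdeg e) := by
      rw [← pow_add]
      congr 1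
      omega
    rw [this, mul_inv, mul_assoc, inv_mul_cancel₀ (pow_pos hl _).ne', mul_one]
  rw [h1, h2, ← mul_assoc, h3]
  congr 1

theorem sum_eq (x : Fin k → ℝ) (l : ℝ) (hl : 0 < l) (q : Fin n → ℚ) (P : MvPolynomial (Option (Fin n × Fin k)) ℤ)
    (hP : ∀ u ∈ P.support, ∑ s, u s = m) :
    ∑ e : (Fin n → Fin k → Fin (m + 1)) × Unit, (dc P e : ℝ) *
      monoZ (fun (_ : Fin n) (e : Fin k → Fin (m + 1)) (t : ℝ) => ∏ i, lf x i t ^ (e i : ℕ)) (sc l)
      (fun _ : Unit => (1 : ℝ)) q e = (l ^ m)⁻¹ * MvPolynomial.aeval (hv x l q) P := by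
  classical
  have h1 : ∀ e ∈ (Finset.univ : Finset ((Fin n → Fin k → Fin (m + 1)) × Unit)), (dc P e : ℝ) *
      monoZ (fun (_ : Fin n) (e : Fin k → Fin (m + 1)) (t : ℝ) => ∏ i, lf x i t ^ (e i : ℕ)) (sc l)
      (fun _ : Unit => (1 : ℝ)) q e = if tdeg e ≤ m then
        (l ^ m)⁻¹ * (((P.coeff (hx e) : ℤ) : ℝ) * ∏ s, hv x l q s ^ (hx e s)) else 0 := by
    intro e _
    by_cases he : tdeg e ≤ m
    · rw [if_pos he, mono_eq x l hl q e he, dc, if_pos he]
      ring
    · rw [if_neg he, dc, if_neg he, Int.cast_zero, zero_mul]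
  rw [Finset.sum_congr rfl h1, ← Finset.sum_filter, ← Finset.mul_sum]
  congr 1
  rw [MvPolynomial.aeval_def, MvPolynomial.eval₂_eq']
  rw [← Finset.sum_image (f := fun u : Option (Fin n × Fin k) →₀ ℕ => ((P.coeff u : ℤ) : ℝ) * ∏ s, hv x l q s ^ (u s))
    (fun a _ b _ hab => hx_inj hab)]
  symm
  refine Finset.sum_subset_zero_on_sdiff ?_ ?_ ?_
  · intro u hu
    rw [Finset.mem_image]
    obtain ⟨e, he, heu⟩ := exists_hx (m := m) u (hP u hu)
    exact ⟨e, by simp [he], heu⟩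
  · intro u hu
    rw [Finset.mem_sdiff, MvPolynomial.notMem_support_iff] at hu
    rw [hu.2]
    simp
  · intro u _
    simp

/-- the exceptional tuples -/
def ExH (m : ℕ) (x : Fin k → ℝ) (a b : ℝ) (A B : ℝ) (N : ℕ) : Set (Fin n → ℚ) :=
  {q | (∀ j, (q j : ℝ) ∈ Icc a b ∧ (q j).den ∣ N) ∧ ∃ P : MvPolynomial (Option (Fin n × Fin k)) ℤ, P ≠ 0 ∧
    (∀ u ∈ P.support, ∑ s, u s = m) ∧ (∀ u, |((P.coeff u : ℤ) : ℝ)| ≤ (N : ℝ) ^ A) ∧
    |MvPolynomial.aeval (hv x (Real.log N) q) P| ≤ (N : ℝ) ^ (-B)}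

theorem hom_log (n k m : ℕ) (hn : 1 ≤ n) (x : Fin k → ℝ) (hx' : Function.Injective x) (a b : ℝ) (hab : a < b)
    (hpos : ∀ i, 0 < a + x i) (A β : ℝ) (hA : 0 ≤ A)
    (hβ : (((m + 1) ^ (k * n) : ℕ) : ℝ) / ((((m + 1) ^ (k * n) : ℕ) : ℝ) + 1) < β) :
    ∃ B C : ℝ, ∀ N : ℕ, 1 ≤ N → (ExH (n := n) m x a b A B N).Finite ∧
      ((ExH (n := n) m x a b A B N).ncard : ℝ) ≤ C * (N : ℝ) ^ (((n : ℝ) - 1) + β) := by
  classical
  have hι : 0 < Fintype.card (Fin k → Fin (m + 1)) := Fintype.card_pos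
  have hcard : (Fintype.card (Fin k → Fin (m + 1))) ^ n * Fintype.card Unit = (m + 1) ^ (k * n) := by
    simp only [Fintype.card_pi, Fintype.card_fin, Finset.prod_const, Finset.card_univ, Fintype.card_unit, mul_one]
    rw [← pow_mul]
  have hβ' : (((Fintype.card (Fin k → Fin (m + 1))) ^ n * Fintype.card Unit : ℕ) : ℝ) /
      ((((Fintype.card (Fin k → Fin (m + 1))) ^ n * Fintype.card Unit : ℕ) : ℝ) + 1) < β := by
    rw [hcard]
    exact hβ
  have hβ0 : 0 < β := lt_of_le_of_lt (by positivity) hβ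
  have hind : RIndep (fun (e : Fin k → Fin (m + 1)) (t : ℝ) => ∏ i, lf x i t ^ (e i : ℕ)) a b :=
    log_ind m k x hx' a b hpos hab
  obtain ⟨B, C, T0, hC, hT0, h⟩ := multiZ0 hι (fun _ : Unit => (1 : ℝ)) goodConst_one n
    (fun (_ : Fin n) (e : Fin k → Fin (m + 1)) (t : ℝ) => ∏ i, lf x i t ^ (e i : ℕ)) (fun _ => a) (fun _ => b)
    (fun _ => hab) (fun _ e t ht => Finset.analyticAt_fun_prod _ fun i _ =>
      (lf_an x i (by linarith [ht.1, hpos i])).pow _) (fun _ => hind) A β hA hβ'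
  -- the logarithm
  have hlog : ∀ᶠ T : ℝ in atTop, (Real.log T) ^ (k * m) ≤ T := by
    have h1 := (isLittleO_log_rpow_atTop (show (0 : ℝ) < 1 / ((k * m : ℕ) + 1) by positivity)).bound
      (show (0 : ℝ) < 1 by norm_num)
    filter_upwards [h1, eventually_ge_atTop 3] with T hT hT3
    have hTp : 0 < T := by linarith
    have hlT : 0 ≤ Real.log T := Real.log_nonneg (by linarith)
    rw [Real.norm_of_nonneg hlT, Real.norm_of_nonneg (by positivity), one_mul] at hT
    calc (Real.log T) ^ (k * m) ≤ (T ^ ((1 : ℝ) / ((k * m : ℕ) + 1))) ^ (k * m) := pow_le_pow_left₀ hlT hT _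
      _ = T ^ ((1 : ℝ) / ((k * m : ℕ) + 1) * ((k * m : ℕ) : ℝ)) := by
          rw [← Real.rpow_natCast, ← Real.rpow_mul hTp.le]
      _ ≤ T ^ (1 : ℝ) := by
          refine Real.rpow_le_rpow_of_exponent_le (by linarith) ?_
          rw [div_mul_eq_mul_div, div_le_one (by positivity)]
          linarith
      _ = T := Real.rpow_one T
  obtain ⟨T1, hT1⟩ := eventually_atTop.1 hlog
  set T2 : ℝ := max (max T0 T1) 3 with hT2
  obtain ⟨K, hK0, hK⟩ := card_RZ a b
  have hT20 : 0 < T2 := lt_of_lt_of_le (by norm_num) (le_max_right _ _)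
  refine ⟨B, C + (K * T2) ^ n, fun N hN => ?_⟩
  have hN1 : (1 : ℝ) ≤ N := by exact_mod_cast hN
  have hNp : (0 : ℝ) < N := by linarith
  have hDen : ∀ q : ℚ, q.den ∣ N → Den (N : ℝ) q := fun q hq => ⟨N, rfl, hq⟩
  have hsub0 : ExH (n := n) m x a b A B N ⊆ (Fintype.piFinset fun _ : Fin n => RZ a b N : Finset (Fin n → ℚ)) := by
    intro q hq
    rw [Finset.mem_coe, Fintype.mem_piFinset]
    exact fun j => (mem_RZ hN1).2 ⟨(hq.1 j).1, hDen _ (hq.1 j).2⟩
  have hfin : (ExH (n := n) m x a b A B N).Finite := (Finset.finite_toSet _).subset hsub0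
  refine ⟨hfin, ?_⟩
  have hn1 : (1 : ℝ) ≤ n := by exact_mod_cast hn
  have hNβ : 1 ≤ (N : ℝ) ^ (((n : ℝ) - 1) + β) := Real.one_le_rpow hN1 (by linarith)
  have hKT : 0 ≤ (K * T2) ^ n := by positivity
  rcases lt_or_ge (N : ℝ) T2 with hlt | hge
  · have h2 := Set.ncard_le_ncard hsub0 (Finset.finite_toSet _)
    rw [Set.ncard_coe_finset, Fintype.card_piFinset, Finset.prod_const, Finset.card_univ, Fintype.card_fin] at h2
    have h3 : ((ExH (n := n) m x a b A B N).ncard : ℝ) ≤ ((RZ a b N).card : ℝ) ^ n := by exact_mod_cast h2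
    have h4 : ((RZ a b N).card : ℝ) ^ n ≤ (K * T2) ^ n := by
      refine pow_le_pow_left₀ (by positivity) ((hK N hN1).trans ?_) n
      exact mul_le_mul_of_nonneg_left hlt.le hK0.le
    nlinarith
  · have hge0 : T0 ≤ N := ((le_max_left _ _).trans (le_max_left _ _)).trans hge
    have hge1 : T1 ≤ N := ((le_max_right _ _).trans (le_max_left _ _)).trans hge
    have hge3 : (3 : ℝ) ≤ N := (le_max_right _ _).trans hge
    set l := Real.log N with hl
    have hl1 : 1 ≤ l := by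
      rw [hl, Real.le_log_iff_exp_le hNp]
      exact (Real.exp_one_lt_three.le).trans hge3
    have hl0 : 0 < l := by linarith
    have hlk : l ^ (k * m) ≤ N := hT1 N hge1
    have hsc : ∀ e : Fin k → Fin (m + 1), (N : ℝ)⁻¹ ≤ |sc l e| := by
      intro e
      have h1 : ∑ i, (e i : ℕ) ≤ k * m := by
        calc ∑ i, (e i : ℕ) ≤ ∑ _i : Fin k, m := Finset.sum_le_sum fun i _ => Nat.lt_succ_iff.1 (e i).isLt
          _ = k * m := by simp
      rw [sc, abs_of_pos (by positivity)]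
      exact inv_anti₀ (by positivity) ((pow_le_pow_right₀ hl1 h1).trans hlk)
    have hle := h N hge0 (sc l) hsc
    have hsub : ExH (n := n) m x a b A B N ⊆ ExcMZ (fun (_ : Fin n) (e : Fin k → Fin (m + 1)) (t : ℝ) =>
        ∏ i, lf x i t ^ (e i : ℕ)) (sc l) (fun _ : Unit => (1 : ℝ)) (fun _ => a) (fun _ => b) A B N := by
      rintro q ⟨hq, P, hP0, hPm, hPc, hPs⟩
      refine ⟨fun j => ⟨(hq j).1, hDen _ (hq j).2⟩, dc P, ?_, ?_, ?_⟩
      · intro hcon
        obtain ⟨u, hu⟩ := MvPolynomial.ne_zero_iff.1 hP0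
        obtain ⟨e, he, heu⟩ := exists_hx (m := m) u (hPm u (MvPolynomial.mem_support_iff.2 hu))
        have := congrFun hcon e
        rw [dc, if_pos he, heu] at this
        exact hu this
      · intro e
        unfold dc
        split_ifs
        · exact hPc _
        · simp only [Int.cast_zero, abs_zero]
          positivity
      · rw [sum_eq x l hl0 q P hPm, abs_mul, abs_of_pos (by positivity)]
        refine le_trans ?_ hPs
        have h1 : (l ^ m)⁻¹ ≤ 1 := inv_le_one_of_one_le₀ (one_le_pow₀ hl1)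
        nlinarith [abs_nonneg (MvPolynomial.aeval (hv x l q) P)]
    have h3 := Set.ncard_le_ncard hsub (ExcMZ_fin _ _ _ _ _ _ _ _ hN1)
    have h4 : ((ExH (n := n) m x a b A B N).ncard : ℝ) ≤ _ := (Nat.cast_le (α := ℝ)).2 h3
    have h5 := h4.trans hle
    nlinarith

end

/-- the determinant of a matrix of linear forms is homogeneous -/
theorem hom_det {σ : Type} [Fintype σ] {m : ℕ} (c : Fin m → Fin m → σ → ℤ) :
    ∀ u ∈ (linMat c).det.support, ∑ s, u s = m := by
  classical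
  intro u hu
  rw [MvPolynomial.mem_support_iff, det_linMat] at hu
  simp only [MvPolynomial.coeff_sum, MvPolynomial.coeff_monomial] at hu
  obtain ⟨p, -, hp⟩ := Finset.exists_ne_zero_of_sum_ne_zero hu
  obtain ⟨f, -, hf⟩ := Finset.exists_ne_zero_of_sum_ne_zero hp
  by_cases h : expo f = u
  · rw [← h]
    simp only [expo, Finsupp.finsetSum_apply]
    rw [Finset.sum_comm]
    simp [Finsupp.single_apply]
  · rw [if_neg h] at hf
    exact absurd rfl hf

end Pool.Agent.TH659.AQ
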