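import Pool.Agent.TH659.AQ.PolysC
import Pool.Agent.TH659.AQ.Log
import Pool.Agent.TH818.AP.All

/-!
# Periods of nested Legendre families and logarithms
-/

set_option autoImplicit false

open Set Filter Topology Polynomial

namespace Pool.Agent.TH659.AQ

open Pool.Agent.TH818.AR Pool.Agent.TH818.AP

/-- the functions -/
noncomputable def um {N k : ℕ} (α γ : Fin N → ℝ) (x : Fin k → ℝ) (p : (Fin N × Fin 3) ⊕ Fin k) (t : ℝ) : ℝ :=
  match p with
  | Sum.inl z => KC (α z.1) (γ z.1) z.2 t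
  | Sum.inr i => lf x i t

theorem um_an {N k : ℕ} (α γ : Fin N → ℝ) (x : Fin k → ℝ) (t : ℝ) (h : ∀ j, α j < t ∧ t < γ j)
    (hx : ∀ i, 0 < t + x i) (p : (Fin N × Fin 3) ⊕ Fin k) : AnalyticAt ℝ (um α γ x p) t := by
  rcases p with z | i
  · exact kc_an _ _ ((h z.1).1.trans (h z.1).2) z.2 t (h z.1).1 (h z.1).2
  · exact lf_an x i (hx i)

/-- splitting of the exponents -/
def eqE2 (N k d : ℕ) : ((Fin N → Fin 3 → Fin (d + 1)) × (Fin k → Fin (d + 1))) ≃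
    (((Fin N × Fin 3) ⊕ Fin k) → Fin (d + 1)) where
  toFun e := Sum.elim (fun z => e.1 z.1 z.2) e.2
  invFun f := (fun j i => f (Sum.inl (j, i)), fun i => f (Sum.inr i))
  left_inv e := rfl
  right_inv f := by
    funext p
    rcases p with z | i <;> rfl

theorem um_ind {N k : ℕ} (d : ℕ) (α γ : Fin N → ℝ) (x : Fin k → ℝ) (hα : StrictAnti α) (hγ : StrictMono γ)
    (hαγ : ∀ j, α j < γ j) (hx : Function.Injective x) (c : ℝ) (hcα : ∀ j, c < α j) (hcx : ∀ i, 0 < c + x i)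
    (a b : ℝ) (hab : a < b) (hca : c ≤ a) (huj : ∀ j, α j ≤ a ∧ b ≤ γ j) :
    RIndep (fun (e : ((Fin N × Fin 3) ⊕ Fin k) → Fin (d + 1)) (t : ℝ) => ∏ p, um α γ x p t ^ (e p : ℕ)) a b := by
  classical
  intro p hp
  -- coefficient functions
  let P : (Fin N → Fin 3 → Fin (d + 1)) → ℝ → ℝ := fun e1 t =>
    ∑ e2 : Fin k → Fin (d + 1), (p (eqE2 N k d (e1, e2))).eval t * mo (lf x) e2 t
  set y : ℝ := 1 + |b| + ∑ j, |γ j| with hy
  have hsum0 : 0 ≤ ∑ j, |γ j| := Finset.sum_nonneg fun j _ => abs_nonneg _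
  have hyγ : ∀ j, γ j < y := fun j => by
    have h1 : |γ j| ≤ ∑ j, |γ j| := Finset.single_le_sum (f := fun j => |γ j|) (fun _ _ => abs_nonneg _) (Finset.mem_univ j)
    have h2 := le_abs_self (γ j)
    have h3 := abs_nonneg b
    linarith
  have hyb : b ≤ y := by
    have h2 := le_abs_self b
    linarith
  have hPan : ∀ e1, AnalyticOnNhd ℝ (P e1) (Ioo c y) := by
    intro e1 t ht
    refine Finset.analyticAt_fun_sum _ fun e2 _ => AnalyticAt.mul ?_ ?_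
    · exact AnalyticOnNhd.eval_polynomial _ t (mem_univ _)
    · unfold mo
      exact Finset.analyticAt_fun_prod _ fun i _ => (lf_an x i (by linarith [ht.1, hcx i])).pow _
  have hrel : ∀ t ∈ Ioo a b, ∑ e1, P e1 t * mon α γ e1 t = 0 := by
    intro t ht
    have h1 := hp t (Ioo_subset_Icc_self ht)
    rw [← Equiv.sum_comp (eqE2 N k d), Fintype.sum_prod_type] at h1
    rw [← h1]
    refine Finset.sum_congr rfl fun e1 _ => ?_
    simp only [P, Finset.sum_mul]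
    refine Finset.sum_congr rfl fun e2 _ => ?_
    have h2 : ∏ p, um α γ x p t ^ ((eqE2 N k d (e1, e2) p : Fin (d + 1)) : ℕ) = mon α γ e1 t * mo (lf x) e2 t := by
      rw [Fintype.prod_sum_type, Fintype.prod_prod_type]
      rfl
    rw [h2]
    ring
  have hz := NestL.main an (ind3r_of an pos leg sing tr) d N α γ c y a b P hα hγ hαγ
    (fun j => ⟨hcα j, hyγ j⟩) hPan hab hca hyb huj hrel
  funext e
  obtain ⟨⟨e1, e2⟩, rfl⟩ := (eqE2 N k d).surjective e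
  -- a smaller closed interval
  have h2 := log_ind d k x hx ((a + b) / 2) ((a + 3 * b) / 4) (fun i => by linarith [hcx i]) (by linarith)
    (fun e2 => p (eqE2 N k d (e1, e2))) (by
      intro t ht
      exact hz e1 t ⟨by linarith [ht.1], by linarith [ht.2]⟩)
  exact congrFun h2 e2

/-- real values -/
noncomputable def vR {κ : Type} {n : ℕ} (u : κ → ℝ → ℝ) (q : Fin n → ℚ) (x : Option (Fin n × κ)) : ℝ :=
  match x with
  | none => Real.pi
  | some y => u y.2 (q y.1)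

/-- the exceptional tuples, real values -/
def ExR {κ : Type} [Fintype κ] {n : ℕ} (d : ℕ) (u : κ → ℝ → ℝ) (a b A B T : ℝ) : Set (Fin n → ℚ) :=
  {q | (∀ j, a ≤ q j ∧ q j ≤ b ∧ ((q j).den : ℝ) ≤ T) ∧ ∃ P : MvPolynomial (Option (Fin n × κ)) ℤ, P ≠ 0 ∧
    (∀ x, P.degreeOf x ≤ d) ∧ (∀ u, |((P.coeff u : ℤ) : ℝ)| ≤ T ^ A) ∧ |MvPolynomial.aeval (vR u q) P| ≤ T ^ (-B)}

theorem ExR_sub {κ : Type} [Fintype κ] {n : ℕ} (d : ℕ) (u : κ → ℝ → ℝ) (a b A B T : ℝ) :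
    ExR (n := n) d u a b A B T ⊆ ExC (n := n) d u (fun _ => 0) a b A B T := by
  rintro q ⟨hq, P, hP0, hPd, hPc, hPs⟩
  refine ⟨hq, P, hP0, hPd, hPc, ?_⟩
  have h1 : vC u (fun _ => 0) q = fun x => algebraMap ℝ ℂ (vR u q x) := by
    funext x
    rcases x with _ | z
    · rfl
    · simp [vC, vR]
  have h2 : MvPolynomial.aeval (vC u (fun _ => 0) q) P = ((MvPolynomial.aeval (vR u q) P : ℝ) : ℂ) := by
    rw [h1]
    exact MvPolynomial.aeval_algebraMap_apply (B := ℂ) (vR u q) P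
  rw [h2, Complex.norm_real, Real.norm_eq_abs]
  exact hPs

theorem polysR {κ : Type} [Fintype κ] [DecidableEq κ] {n d : ℕ} (u : κ → ℝ → ℝ) (a b : ℝ) (hab : a < b)
    (han : ∀ k, AnalyticOnNhd ℝ (u k) (Set.Icc a b))
    (hg : RIndep (fun (e : κ → Fin (d + 1)) (t : ℝ) => ∏ k, u k t ^ (e k : ℕ)) a b)
    (hn : 1 ≤ n) (A β : ℝ) (hA : 0 ≤ A)
    (hβ : 2 - 2 / (((d : ℝ) + 1) ^ (Fintype.card κ * n + 1) + 1) < β) :
    ∃ B C : ℝ, ∀ T : ℝ, 1 ≤ T → (ExR (n := n) d u a b A B T).Finite ∧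
      ((ExR (n := n) d u a b A B T).ncard : ℝ) ≤ C * T ^ (2 * ((n : ℝ) - 1) + β) := by
  obtain ⟨B, C, h⟩ := polysC (n := n) u (fun _ => 0) a b hab han hg hn A β hA hβ
  refine ⟨B, C, fun T hT => ?_⟩
  obtain ⟨h1, h2⟩ := h T hT
  have hsub := ExR_sub (n := n) d u a b A B T
  refine ⟨h1.subset hsub, le_trans ?_ h2⟩
  exact_mod_cast Set.ncard_le_ncard hsub h1

/-- periods of nested Legendre families, logarithms and `π` at almost all `n`-tuples of rationals -/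
theorem mixed {N k : ℕ} (n d : ℕ) (hn : 1 ≤ n) (α γ : Fin N → ℝ) (x : Fin k → ℝ) (hα : StrictAnti α)
    (hγ : StrictMono γ) (hx : Function.Injective x) (c : ℝ) (hcα : ∀ j, c < α j)
    (hcx : ∀ i, 0 < c + x i) (a b : ℝ) (hab : a < b) (hca : c ≤ a) (huj : ∀ j, α j < a ∧ b < γ j)
    (A β : ℝ) (hA : 0 ≤ A) (hβ : 2 - 2 / (((d : ℝ) + 1) ^ ((3 * N + k) * n + 1) + 1) < β) :
    ∃ B C : ℝ, ∀ T : ℝ, 1 ≤ T → (ExR (n := n) d (um α γ x) a b A B T).Finite ∧
      ((ExR (n := n) d (um α γ x) a b A B T).ncard : ℝ) ≤ C * T ^ (2 * ((n : ℝ) - 1) + β) := by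
  have hcard : Fintype.card ((Fin N × Fin 3) ⊕ Fin k) = 3 * N + k := by
    rw [Fintype.card_sum, Fintype.card_prod, Fintype.card_fin, Fintype.card_fin, Fintype.card_fin, mul_comm]
  exact polysR (um α γ x) a b hab
    (fun p t ht => um_an α γ x t (fun j => ⟨(huj j).1.trans_le ht.1, lt_of_le_of_lt ht.2 (huj j).2⟩)
      (fun i => by linarith [hcx i, ht.1]) p)
    (um_ind d α γ x hα hγ (fun j => (huj j).1.trans (hab.trans (huj j).2)) hx c hcα hcx a b hab hca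
      (fun j => ⟨(huj j).1.le, (huj j).2.le⟩)) hn A β hA (by rw [hcard]; exact hβ)

end Pool.Agent.TH659.AQ
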