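import Pool.Agent.TH818.AP.Api
import Pool.Agent.TH659.AQ.StrRank

/-!
# Polynomials in `π` and `i^s u(q_j)`, several groups of variables
-/

set_option autoImplicit false

namespace Pool.Agent.TH659.AQ

open Pool.Agent.TH818.AP

section

variable {κ : Type} [Fintype κ] [DecidableEq κ] {n d : ℕ}

/-- the exponent vector -/
noncomputable def sG (e : (Fin n → κ → Fin (d + 1)) × Fin (d + 1)) : Option (Fin n × κ) →₀ ℕ :=
  Finsupp.equivFunOnFinite.symm fun x => match x with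
    | none => (e.2 : ℕ)
    | some y => (e.1 y.1 y.2 : ℕ)

theorem sG_inj : Function.Injective (sG (κ := κ) (n := n) (d := d)) := by
  intro e e' h
  refine Prod.ext ?_ ?_
  · funext j i
    have := DFunLike.congr_fun h (some (j, i))
    exact Fin.ext (by simpa [sG] using this)
  · have := DFunLike.congr_fun h none
    exact Fin.ext (by simpa [sG] using this)

theorem exists_sG (P : MvPolynomial (Option (Fin n × κ)) ℤ) (hP : ∀ x, P.degreeOf x ≤ d)
    (u : Option (Fin n × κ) →₀ ℕ) (hu : u ∈ P.support) : ∃ e : (Fin n → κ → Fin (d + 1)) × Fin (d + 1), sG e = u := by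
  have hle : ∀ x, u x < d + 1 := fun x =>
    Nat.lt_succ_of_le ((MvPolynomial.monomial_le_degreeOf x hu).trans (hP x))
  refine ⟨(fun j i => ⟨u (some (j, i)), hle _⟩, ⟨u none, hle _⟩), ?_⟩
  ext x
  cases x <;> simp [sG]

theorem aeval_eqG (f : Option (Fin n × κ) → ℂ) (P : MvPolynomial (Option (Fin n × κ)) ℤ)
    (hP : ∀ x, P.degreeOf x ≤ d) : MvPolynomial.aeval f P =
      ∑ e : (Fin n → κ → Fin (d + 1)) × Fin (d + 1), ((P.coeff (sG e) : ℤ) : ℂ) *
        ((∏ j, ∏ i, f (some (j, i)) ^ (e.1 j i : ℕ)) * f none ^ (e.2 : ℕ)) := by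
  classical
  have h1 : ∀ e : (Fin n → κ → Fin (d + 1)) × Fin (d + 1),
      (∏ j, ∏ i, f (some (j, i)) ^ (e.1 j i : ℕ)) * f none ^ (e.2 : ℕ) = ∏ x, f x ^ (sG e x) := by
    intro e
    rw [Fintype.prod_option, Fintype.prod_prod_type, mul_comm]
    simp [sG]
  simp only [h1]
  rw [MvPolynomial.aeval_def, MvPolynomial.eval₂_eq']
  rw [← Finset.sum_image (f := fun u : Option (Fin n × κ) →₀ ℕ => ((P.coeff u : ℤ) : ℂ) * ∏ x, f x ^ (u x))
    (fun a _ b _ hab => sG_inj hab)]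
  refine Finset.sum_subset_zero_on_sdiff ?_ ?_ ?_
  · intro u hu
    rw [Finset.mem_image]
    obtain ⟨e, he⟩ := exists_sG P hP u hu
    exact ⟨e, Finset.mem_univ _, he⟩
  · intro u hu
    rw [Finset.mem_sdiff, MvPolynomial.notMem_support_iff] at hu
    rw [hu.2]
    simp
  · intro u _
    simp

/-- the values -/
noncomputable def vC (u : κ → ℝ → ℝ) (s : κ → ℕ) (q : Fin n → ℚ) (x : Option (Fin n × κ)) : ℂ :=
  match x with
  | none => (Real.pi : ℂ)
  | some y => Complex.I ^ s y.2 * ((u y.2 (q y.1) : ℝ) : ℂ)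

/-- the exceptional tuples -/
def ExC (d : ℕ) (u : κ → ℝ → ℝ) (s : κ → ℕ) (a b A B T : ℝ) : Set (Fin n → ℚ) :=
  {q | (∀ j, a ≤ q j ∧ q j ≤ b ∧ ((q j).den : ℝ) ≤ T) ∧ ∃ P : MvPolynomial (Option (Fin n × κ)) ℤ, P ≠ 0 ∧
    (∀ x, P.degreeOf x ≤ d) ∧ (∀ u, |((P.coeff u : ℤ) : ℝ)| ≤ T ^ A) ∧ ‖MvPolynomial.aeval (vC u s q) P‖ ≤ T ^ (-B)}

/-- real or imaginary part of the relation -/
theorem part (u : κ → ℝ → ℝ) (s : κ → ℕ) (q : Fin n → ℚ) (P : MvPolynomial (Option (Fin n × κ)) ℤ)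
    (hP : ∀ x, P.degreeOf x ≤ d) :
    (MvPolynomial.aeval (vC u s q) P).re = ∑ e : (Fin n → κ → Fin (d + 1)) × Fin (d + 1),
      ((P.coeff (sG e) * rp (∑ j, ∑ i, s i * (e.1 j i : ℕ)) : ℤ) : ℝ) *
        mono (fun _ => fun (e : κ → Fin (d + 1)) (t : ℝ) => ∏ i, u i t ^ (e i : ℕ))
          (fun e : Fin (d + 1) => Real.pi ^ (e : ℕ)) q e ∧
    (MvPolynomial.aeval (vC u s q) P).im = ∑ e : (Fin n → κ → Fin (d + 1)) × Fin (d + 1),
      ((P.coeff (sG e) * ip (∑ j, ∑ i, s i * (e.1 j i : ℕ)) : ℤ) : ℝ) *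
        mono (fun _ => fun (e : κ → Fin (d + 1)) (t : ℝ) => ∏ i, u i t ^ (e i : ℕ))
          (fun e : Fin (d + 1) => Real.pi ^ (e : ℕ)) q e := by
  have h1 : MvPolynomial.aeval (vC u s q) P = ∑ e : (Fin n → κ → Fin (d + 1)) × Fin (d + 1),
      (((((P.coeff (sG e) : ℤ) : ℝ) * mono (fun _ => fun (e : κ → Fin (d + 1)) (t : ℝ) => ∏ i, u i t ^ (e i : ℕ))
          (fun e : Fin (d + 1) => Real.pi ^ (e : ℕ)) q e : ℝ)) : ℂ) *
        Complex.I ^ (∑ j, ∑ i, s i * (e.1 j i : ℕ)) := by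
    rw [aeval_eqG _ P hP]
    refine Finset.sum_congr rfl fun e _ => ?_
    simp only [vC, mul_pow, Finset.prod_mul_distrib, ← pow_mul, Finset.prod_pow_eq_pow_sum, mono]
    push_cast
    ring
  rw [h1, Complex.re_sum, Complex.im_sum]
  refine ⟨Finset.sum_congr rfl fun e _ => ?_, Finset.sum_congr rfl fun e _ => ?_⟩
  · rw [Complex.re_ofReal_mul, (I_pow _).1]
    push_cast
    ring
  · rw [Complex.im_ofReal_mul, (I_pow _).2]
    push_cast
    ring

theorem polysC (u : κ → ℝ → ℝ) (s : κ → ℕ) (a b : ℝ) (hab : a < b)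
    (han : ∀ k, AnalyticOnNhd ℝ (u k) (Set.Icc a b))
    (hg : RIndep (fun (e : κ → Fin (d + 1)) (t : ℝ) => ∏ k, u k t ^ (e k : ℕ)) a b)
    (hn : 1 ≤ n) (A β : ℝ) (hA : 0 ≤ A)
    (hβ : 2 - 2 / (((d : ℝ) + 1) ^ (Fintype.card κ * n + 1) + 1) < β) :
    ∃ B C : ℝ, ∀ T : ℝ, 1 ≤ T → (ExC (n := n) d u s a b A B T).Finite ∧
      ((ExC (n := n) d u s a b A B T).ncard : ℝ) ≤ C * T ^ (2 * ((n : ℝ) - 1) + β) := by
  classical
  have hι : 0 < Fintype.card (κ → Fin (d + 1)) := Fintype.card_pos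
  have hcard : (Fintype.card (κ → Fin (d + 1))) ^ n * Fintype.card (Fin (d + 1)) =
      (d + 1) ^ (Fintype.card κ * n + 1) := by
    simp only [Fintype.card_pi, Fintype.card_fin, Finset.prod_const, Finset.card_univ]
    rw [← pow_mul, ← pow_succ]
  have hβ' : 2 * (((Fintype.card (κ → Fin (d + 1))) ^ n * Fintype.card (Fin (d + 1)) : ℕ) : ℝ) /
      ((((Fintype.card (κ → Fin (d + 1))) ^ n * Fintype.card (Fin (d + 1)) : ℕ) : ℝ) + 1) < β := by
    rw [hcard]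
    refine lt_of_le_of_lt (le_of_eq ?_) hβ
    have hM0 : (0 : ℝ) < ((d : ℝ) + 1) ^ (Fintype.card κ * n + 1) := by positivity
    push_cast
    field_simp
    ring
  obtain ⟨B, C, h⟩ := multi_gen hι _ (goodConst_pi d) n hn
    (fun _ => fun (e : κ → Fin (d + 1)) (t : ℝ) => ∏ i, u i t ^ (e i : ℕ)) (fun _ => a) (fun _ => b)
    (fun _ => hab) (fun _ e t ht => Finset.analyticAt_fun_prod _ fun i _ => (han i t ht).pow _) (fun _ => hg)
    A β hA hβ'
  refine ⟨B, C, fun T hT => ?_⟩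
  obtain ⟨hfin, hle⟩ := h T hT
  have hsub : ExC (n := n) d u s a b A B T ⊆
      ExcM (fun _ => fun (e : κ → Fin (d + 1)) (t : ℝ) => ∏ i, u i t ^ (e i : ℕ))
        (fun e : Fin (d + 1) => Real.pi ^ (e : ℕ)) (fun _ : Fin n => a) (fun _ => b) A B T := by
    rintro q ⟨hq, P, hP0, hPd, hPc, hPs⟩
    refine ⟨fun j => ⟨⟨(hq j).1, (hq j).2.1⟩, (hq j).2.2⟩, ?_⟩
    obtain ⟨h1, h2⟩ := part u s q P hPd
    obtain ⟨v, hv⟩ := MvPolynomial.ne_zero_iff.1 hP0
    obtain ⟨e0, he0⟩ := exists_sG P hPd v (MvPolynomial.mem_support_iff.2 hv)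
    have hbound : ∀ ρ : ℕ → ℤ, (∀ k, |ρ k| ≤ 1) → ∀ e : (Fin n → κ → Fin (d + 1)) × Fin (d + 1),
        |((P.coeff (sG e) * ρ (∑ j, ∑ i, s i * (e.1 j i : ℕ)) : ℤ) : ℝ)| ≤ T ^ A := by
      intro ρ hρ e
      push_cast
      rw [abs_mul]
      have h3 : |((ρ (∑ j, ∑ i, s i * (e.1 j i : ℕ)) : ℤ) : ℝ)| ≤ 1 := by exact_mod_cast hρ _
      calc |((P.coeff (sG e) : ℤ) : ℝ)| * |((ρ (∑ j, ∑ i, s i * (e.1 j i : ℕ)) : ℤ) : ℝ)|
          ≤ |((P.coeff (sG e) : ℤ) : ℝ)| * 1 := by gcongr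
        _ ≤ T ^ A := by rw [mul_one]; exact hPc _
    rcases rp_or_ip (∑ j, ∑ i, s i * (e0.1 j i : ℕ)) with hr | hi
    · refine ⟨fun e => P.coeff (sG e) * rp (∑ j, ∑ i, s i * (e.1 j i : ℕ)), ?_, hbound rp rp_le, ?_⟩
      · intro h0
        have := congrFun h0 e0
        simp only [Pi.zero_apply, mul_eq_zero] at this
        rcases this with h | h
        · rw [he0] at h
          exact hv h
        · exact hr h
      · rw [← h1]
        exact (Complex.abs_re_le_norm _).trans hPs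
    · refine ⟨fun e => P.coeff (sG e) * ip (∑ j, ∑ i, s i * (e.1 j i : ℕ)), ?_, hbound ip ip_le, ?_⟩
      · intro h0
        have := congrFun h0 e0
        simp only [Pi.zero_apply, mul_eq_zero] at this
        rcases this with h | h
        · rw [he0] at h
          exact hv h
        · exact hi h
      · rw [← h2]
        exact (Complex.abs_im_le_norm _).trans hPs
  refine ⟨hfin.subset hsub, le_trans ?_ hle⟩
  exact_mod_cast Set.ncard_le_ncard hsub hfin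

end

end Pool.Agent.TH659.AQ
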