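import Pool.Agent.TH21.MS.H2
import Pool.Agent.TH659.AQ.PolysC

/-!
# Independence over `ℝ[t]` from lower bounds near infinity
-/

set_option autoImplicit false

open Set Filter Topology Polynomial

namespace Pool.Agent.TH659.AQ

open Pool.Agent.TH818.AP Pool.Agent.TH21.MS

theorem rindep_of_LB {κ : Type} [Fintype κ] [DecidableEq κ] (u : κ → ℝ → ℝ) (h : ℝ → ℝ) (a0 : ℝ)
    (han : ∀ k, AnalyticOnNhd ℝ (u k) (Ici a0)) (hLB : LB u h) (d : ℕ) (a b : ℝ) (ha : a0 ≤ a) (hab : a < b) :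
    RIndep (fun (e : κ → Fin (d + 1)) (t : ℝ) => ∏ k, u k t ^ (e k : ℕ)) a b := by
  classical
  intro p hp
  by_contra hne
  obtain ⟨l0, hl0⟩ : ∃ l, p l ≠ 0 := by
    by_contra hall
    push Not at hall
    exact hne (funext hall)
  let P : MvPolynomial κ ℝ[X] := ∑ l : κ → Fin (d + 1), MvPolynomial.monomial (emb l) (p l)
  have hP0 : P ≠ 0 := by
    intro h0
    have h1 : P.coeff (emb l0) = p l0 := by
      simp only [P, MvPolynomial.coeff_sum, MvPolynomial.coeff_monomial]
      rw [Finset.sum_eq_single l0]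
      · simp
      · intro l _ hl
        rw [if_neg]
        intro he
        exact hl (emb_inj he)
      · simp
    rw [h0, MvPolynomial.coeff_zero] at h1
    exact hl0 h1.symm
  have hev : ∀ t, ev u P t = ∑ l, (p l).eval t * ∏ k, u k t ^ (l k : ℕ) := by
    intro t
    simp only [ev, P, MvPolynomial.eval₂_sum]
    refine Finset.sum_congr rfl fun l _ => ?_
    rw [MvPolynomial.eval₂_monomial]
    congr 1
    rw [Finsupp.prod_fintype _ _ (by simp)]
    rfl
  have hevan : AnalyticOnNhd ℝ (ev u P) (Ici a0) := by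
    have : ev u P = fun t => ∑ l, (p l).eval t * ∏ k, u k t ^ (l k : ℕ) := funext hev
    rw [this]
    intro t ht
    refine Finset.analyticAt_fun_sum _ fun l _ => AnalyticAt.mul ?_ ?_
    · exact AnalyticOnNhd.eval_polynomial (p l) t (mem_univ _)
    · exact Finset.analyticAt_fun_prod _ fun k _ => (han k t ht).pow _
  have hz : ∀ t ∈ Ici a0, ev u P t = 0 := by
    have hm : (a + b) / 2 ∈ Ici a0 := by
      have : a ≤ (a + b) / 2 := by linarith
      exact ha.trans this
    have := hevan.eqOn_zero_of_preconnected_of_eventuallyEq_zero isPreconnected_Ici hm ?_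
    · intro t ht
      exact this ht
    · have hnb : Icc a b ∈ 𝓝 ((a + b) / 2) := Icc_mem_nhds (by linarith) (by linarith)
      filter_upwards [hnb] with t ht
      rw [hev]
      exact hp t ht
  obtain ⟨C, hC⟩ := hLB P hP0
  obtain ⟨t, ht1, ht2⟩ := (hC.and (eventually_ge_atTop a0)).exists
  rw [hz t ht2, abs_zero] at ht1
  exact absurd ht1 (not_le.2 (Real.exp_pos _))

/-- the jets of `j` and `π` at several points `i f_k(q_j)` -/
theorem jets {m n : ℕ} (hn : 1 ≤ n) (f : Fin m → ℝ → ℝ) (a b : ℝ) (hab : a < b)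
    (han : ∀ k, AnalyticOnNhd ℝ (f k) (Ici a)) (hpos : ∀ k, ∀ t, a ≤ t → 0 < f k t)
    (hf0 : ∀ k, Tendsto (fun t => f k t / Real.log t) atTop atTop)
    (hf : ∀ k l, k < l → Tendsto (fun t => f l t / f k t) atTop atTop)
    (d : ℕ) (A β : ℝ) (hA : 0 ≤ A) (hβ : 2 - 2 / (((d : ℝ) + 1) ^ (3 * m * n + 1) + 1) < β) :
    ∃ B C : ℝ, ∀ T : ℝ, 1 ≤ T → (ExC (n := n) d (uj f) (fun p => sj p.2) a b A B T).Finite ∧
      ((ExC (n := n) d (uj f) (fun p => sj p.2) a b A B T).ncard : ℝ) ≤ C * T ^ (2 * ((n : ℝ) - 1) + β) := by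
  obtain ⟨h, hLB⟩ := LB_uj f hf0 hf
  have hcard : Fintype.card (Fin m × Fin 3) = 3 * m := by
    rw [Fintype.card_prod, Fintype.card_fin, Fintype.card_fin, mul_comm]
  exact polysC (uj f) (fun p => sj p.2) a b hab (fun k t ht => uj_an f a han hpos k t ht.1)
    (rindep_of_LB (uj f) h a (uj_an f a han hpos) hLB d a b le_rfl hab) hn A β hA (by rw [hcard]; exact hβ)

end Pool.Agent.TH659.AQ
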