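import Pool.Agent.TH659.AQ.Equal
import Pool.Agent.TH456.PW.Int
import Pool.Agent.TH456.TM.E

/-!
# A constant with a transcendence measure and functions at almost all tuples
-/

set_option autoImplicit false

open Set Filter Topology

namespace Pool.Agent.TH659.AQ

open Pool.Agent.TH818.AR Pool.Agent.TH818.AP

section

variable {κ : Type} [Fintype κ] [DecidableEq κ] {n d : ℕ}

theorem aeval_eqR {R : Type} [CommRing R] (f : Option (Fin n × κ) → R) (P : MvPolynomial (Option (Fin n × κ)) ℤ)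
    (hP : ∀ x, P.degreeOf x ≤ d) : MvPolynomial.aeval f P =
      ∑ e : (Fin n → κ → Fin (d + 1)) × Fin (d + 1), ((P.coeff (sG e) : ℤ) : R) *
        ((∏ j, ∏ i, f (some (j, i)) ^ (e.1 j i : ℕ)) * f none ^ (e.2 : ℕ)) := by
  classical
  have h1 : ∀ e : (Fin n → κ → Fin (d + 1)) × Fin (d + 1),
      (∏ j, ∏ i, f (some (j, i)) ^ (e.1 j i : ℕ)) * f none ^ (e.2 : ℕ) = ∏ x, f x ^ (sG e x) := by
    intro e
    rw [Fintype.prod_option, Fintype.prod_prod_type, mul_comm]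
    simp [sG]
  simp only [h1]
  rw [MvPolynomial.aeval_def, MvPolynomial.eval₂_eq']
  rw [← Finset.sum_image (f := fun u : Option (Fin n × κ) →₀ ℕ => ((P.coeff u : ℤ) : R) * ∏ x, f x ^ (u x))
    (fun a _ b _ hab => sG_inj hab)]
  refine Finset.sum_subset_zero_on_sdiff ?_ ?_ ?_
  · intro u hu
    rw [Finset.mem_image]
    obtain ⟨e, he⟩ := exists_sG P hP u hu
    exact ⟨e, Finset.mem_univ _, he⟩
  · intro u hu
    rw [Finset.mem_sdiff, MvPolynomial.notMem_support_iff] at hu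
    rw [hu.2]
    simp
  · intro u _
    simp

/-- the values -/
noncomputable def vG (γ : ℝ) (u : κ → ℝ → ℝ) (q : Fin n → ℚ) (x : Option (Fin n × κ)) : ℝ :=
  match x with
  | none => γ
  | some y => u y.2 (q y.1)

/-- the exceptional tuples -/
def ExG (d : ℕ) (γ : ℝ) (u : κ → ℝ → ℝ) (a b A B T : ℝ) : Set (Fin n → ℚ) :=
  {q | (∀ j, a ≤ q j ∧ q j ≤ b ∧ ((q j).den : ℝ) ≤ T) ∧ ∃ P : MvPolynomial (Option (Fin n × κ)) ℤ, P ≠ 0 ∧
    (∀ x, P.degreeOf x ≤ d) ∧ (∀ u, |((P.coeff u : ℤ) : ℝ)| ≤ T ^ A) ∧ |MvPolynomial.aeval (vG γ u q) P| ≤ T ^ (-B)}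

theorem polysG (γ : ℝ) (hγ : GoodConst (fun e : Fin (d + 1) => γ ^ (e : ℕ))) (u : κ → ℝ → ℝ) (a b : ℝ) (hab : a < b)
    (han : ∀ k, AnalyticOnNhd ℝ (u k) (Set.Icc a b))
    (hg : RIndep (fun (e : κ → Fin (d + 1)) (t : ℝ) => ∏ k, u k t ^ (e k : ℕ)) a b)
    (hn : 1 ≤ n) (A β : ℝ) (hA : 0 ≤ A)
    (hβ : 2 - 2 / (((d : ℝ) + 1) ^ (Fintype.card κ * n + 1) + 1) < β) :
    ∃ B C : ℝ, ∀ T : ℝ, 1 ≤ T → (ExG (n := n) d γ u a b A B T).Finite ∧
      ((ExG (n := n) d γ u a b A B T).ncard : ℝ) ≤ C * T ^ (2 * ((n : ℝ) - 1) + β) := by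
  classical
  have hι : 0 < Fintype.card (κ → Fin (d + 1)) := Fintype.card_pos
  have hcard : (Fintype.card (κ → Fin (d + 1))) ^ n * Fintype.card (Fin (d + 1)) =
      (d + 1) ^ (Fintype.card κ * n + 1) := by
    simp only [Fintype.card_pi, Fintype.card_fin, Finset.prod_const, Finset.card_univ]
    rw [← pow_mul, ← pow_succ]
  have hβ' : 2 * (((Fintype.card (κ → Fin (d + 1))) ^ n * Fintype.card (Fin (d + 1)) : ℕ) : ℝ) /
      ((((Fintype.card (κ → Fin (d + 1))) ^ n * Fintype.card (Fin (d + 1)) : ℕ) : ℝ) + 1) < β := by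
    rw [hcard]
    refine lt_of_le_of_lt (le_of_eq ?_) hβ
    have hM0 : (0 : ℝ) < ((d : ℝ) + 1) ^ (Fintype.card κ * n + 1) := by positivity
    push_cast
    field_simp
    ring
  obtain ⟨B, C, h⟩ := multi_gen hι _ hγ n hn
    (fun _ => fun (e : κ → Fin (d + 1)) (t : ℝ) => ∏ i, u i t ^ (e i : ℕ)) (fun _ => a) (fun _ => b)
    (fun _ => hab) (fun _ e t ht => Finset.analyticAt_fun_prod _ fun i _ => (han i t ht).pow _) (fun _ => hg)
    A β hA hβ'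
  refine ⟨B, C, fun T hT => ?_⟩
  obtain ⟨hfin, hle⟩ := h T hT
  have hsub : ExG (n := n) d γ u a b A B T ⊆
      ExcM (fun _ => fun (e : κ → Fin (d + 1)) (t : ℝ) => ∏ i, u i t ^ (e i : ℕ))
        (fun e : Fin (d + 1) => γ ^ (e : ℕ)) (fun _ : Fin n => a) (fun _ => b) A B T := by
    rintro q ⟨hq, P, hP0, hPd, hPc, hPs⟩
    refine ⟨fun j => ⟨⟨(hq j).1, (hq j).2.1⟩, (hq j).2.2⟩, fun e => P.coeff (sG e), ?_, fun e => hPc _, ?_⟩
    · intro h0
      obtain ⟨v, hv⟩ := MvPolynomial.ne_zero_iff.1 hP0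
      obtain ⟨e0, he0⟩ := exists_sG P hPd v (MvPolynomial.mem_support_iff.2 hv)
      have := congrFun h0 e0
      simp only [Pi.zero_apply, he0] at this
      exact hv this
    · rw [aeval_eqR _ P hPd] at hPs
      exact hPs
  refine ⟨hfin.subset hsub, le_trans ?_ hle⟩
  exact_mod_cast Set.ncard_le_ncard hsub hfin

end

/-- `e` and the periods -/
theorem e_mixed {N w : ℕ} (n d : ℕ) (hn : 1 ≤ n) (α γ : Fin N → ℝ) (hα : StrictAnti α) (hγ : StrictMono γ)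
    (h0 : ∀ j, 0 < α j) (h1 : ∀ j, γ j < 1) (a b : ℝ) (ha : 0 < a) (hab : a < b) (hb : b < 1)
    (huj : ∀ j, α j < a ∧ b < γ j) (A β : ℝ) (hA : 0 ≤ A)
    (hβ : 2 - 2 / (((d : ℝ) + 1) ^ ((3 * N + w + 1) * n + 1) + 1) < β) :
    ∃ B C : ℝ, ∀ T : ℝ, 1 ≤ T → (ExG (n := n) d (Real.exp 1) (u2 (w := w) α γ) a b A B T).Finite ∧
      ((ExG (n := n) d (Real.exp 1) (u2 (w := w) α γ) a b A B T).ncard : ℝ) ≤ C * T ^ (2 * ((n : ℝ) - 1) + β) := by
  have hcard : Fintype.card ((Fin N × Fin 3) ⊕ Fin (w + 1)) = 3 * N + w + 1 := by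
    rw [Fintype.card_sum, Fintype.card_prod, Fintype.card_fin, Fintype.card_fin, Fintype.card_fin, mul_comm]
    ring
  exact polysG (Real.exp 1) (Pool.Agent.TH456.PW.goodConst Pool.Agent.TH456.TM.measT_e d) (u2 (w := w) α γ) a b hab
    (fun p t ht => u2_an α γ t (fun j => ⟨(huj j).1.trans_le ht.1, lt_of_le_of_lt ht.2 (huj j).2⟩) (ha.trans_le ht.1)
      (lt_of_le_of_lt ht.2 hb) p)
    (u2_ind d α γ hα hγ (fun j => (huj j).1.trans (hab.trans (huj j).2)) h0 h1 a b ha hab hb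
      (fun j => ⟨(huj j).1.le, (huj j).2.le⟩)) hn A β hA (by rw [hcard]; exact hβ)

end Pool.Agent.TH659.AQ
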