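import Pool.Agent.TH659.AQ.Grow

/-!
# Algebraic independence of `Γ(t + s_1), Γ(2t + s_2), …, Γ(kt + s_k)`
-/

set_option autoImplicit false

open Set Polynomial Filter Topology

namespace Pool.Agent.TH659.AQ

/-- sum of `exp(-2πi l x)` over the roots -/
noncomputable def Phi (l : ℕ) (f : ℝ[X]) : ℂ :=
  (f.roots.map fun x : ℝ => Complex.exp (-(2 * Real.pi * Complex.I * l * (x : ℂ)))).sum

theorem Phi_mul (l : ℕ) {f g : ℝ[X]} (hf : f ≠ 0) (hg : g ≠ 0) : Phi l (f * g) = Phi l f + Phi l g := by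
  unfold Phi
  rw [roots_mul (mul_ne_zero hf hg), Multiset.map_add, Multiset.sum_add]

theorem Phi_one (l : ℕ) : Phi l 1 = 0 := by simp [Phi]

theorem Phi_prod (l : ℕ) {ι : Type} (s : Finset ι) (f : ι → ℝ[X]) (hf : ∀ i, f i ≠ 0) :
    Phi l (∏ i ∈ s, f i) = ∑ i ∈ s, Phi l (f i) := by
  classical
  induction s using Finset.induction_on with
  | empty => simp [Phi_one]
  | insert i s hi ih =>
    rw [Finset.prod_insert hi, Finset.sum_insert hi, Phi_mul l (hf i) (Finset.prod_ne_zero_iff.2 fun j _ => hf j), ih]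

theorem Phi_pow (l : ℕ) {f : ℝ[X]} (hf : f ≠ 0) (n : ℕ) : Phi l (f ^ n) = n * Phi l f := by
  induction n with
  | zero => simp [Phi_one]
  | succ n ih => rw [pow_succ, Phi_mul l (pow_ne_zero _ hf) hf, ih]; push_cast; ring

/-- the shifted polynomial -/
noncomputable def sh (f : ℝ[X]) : ℝ[X] := f.comp (C 1 * X + C 1)

theorem sh_eval (f : ℝ[X]) (t : ℝ) : (sh f).eval t = f.eval (t + 1) := by simp [sh]

theorem sh_ne {f : ℝ[X]} (hf : f ≠ 0) : sh f ≠ 0 := by
  intro h
  apply hf
  refine Polynomial.funext fun t => ?_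
  have := congrArg (fun g : ℝ[X] => g.eval (t - 1)) h
  simpa [sh_eval] using this

theorem Phi_sh (l : ℕ) (f : ℝ[X]) : Phi l (sh f) = Phi l f := by
  unfold Phi sh
  rw [roots_comp_C_mul_X_add_C f 1 1 isUnit_one, Multiset.map_map]
  refine congrArg Multiset.sum (Multiset.map_congr rfl fun x _ => ?_)
  have h : Complex.exp (2 * Real.pi * Complex.I * l) = 1 := by
    have := Complex.exp_nat_mul_two_pi_mul_I l
    rw [← this]
    congr 1
    ring
  simp only [Function.comp, Ring.inverse_one, one_mul]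
  push_cast
  rw [show -(2 * (Real.pi : ℂ) * Complex.I * l * ((x : ℂ) - 1)) =
    -(2 * Real.pi * Complex.I * l * x) + 2 * Real.pi * Complex.I * l by ring, Complex.exp_add, h, mul_one]

/-- sums of roots of unity -/
theorem sum_unity (m l : ℕ) (hm : 0 < m) :
    ∑ i ∈ Finset.range m, Complex.exp (2 * Real.pi * Complex.I * l * (i / m)) = if m ∣ l then (m : ℂ) else 0 := by
  have hm0 : (m : ℂ) ≠ 0 := by exact_mod_cast hm.ne'
  have h1 : ∀ i : ℕ, Complex.exp (2 * Real.pi * Complex.I * l * (i / m)) =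
      Complex.exp (2 * Real.pi * Complex.I * l / m) ^ i := by
    intro i
    rw [← Complex.exp_nat_mul]
    congr 1
    field_simp
  simp only [h1]
  split_ifs with hdvd
  · obtain ⟨k, rfl⟩ := hdvd
    have : Complex.exp (2 * Real.pi * Complex.I * ((m * k : ℕ) : ℂ) / m) = 1 := by
      have := Complex.exp_nat_mul_two_pi_mul_I k
      rw [← this]
      congr 1
      push_cast
      field_simp
    rw [this]
    simp
  · have hne : Complex.exp (2 * Real.pi * Complex.I * l / m) ≠ 1 := by
      intro hcon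
      rw [Complex.exp_eq_one_iff] at hcon
      obtain ⟨n, hn⟩ := hcon
      apply hdvd
      have hpi : (2 * (Real.pi : ℂ) * Complex.I) ≠ 0 := Complex.two_pi_I_ne_zero
      have h2 : (l : ℂ) = n * m := by
        have : 2 * (Real.pi : ℂ) * Complex.I * (l : ℂ) = 2 * (Real.pi : ℂ) * Complex.I * (n * m) := by
          rw [div_eq_iff hm0] at hn
          rw [hn]
          ring
        exact mul_left_cancel₀ hpi this
      have h3 : (l : ℤ) = n * m := by exact_mod_cast h2
      exact Int.natCast_dvd_natCast.1 ⟨n, by rw [h3]; ring⟩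
    rw [geom_sum_eq hne, ← Complex.exp_nat_mul]
    have : Complex.exp ((m : ℂ) * (2 * Real.pi * Complex.I * l / m)) = 1 := by
      have := Complex.exp_nat_mul_two_pi_mul_I l
      rw [← this]
      congr 1
      field_simp
    rw [this, sub_self, zero_div]

section

variable {n : ℕ} (s : Fin n → ℝ)

/-- the factor `Γ((j+1)(t+1) + s_j) / Γ((j+1)t + s_j)` -/
noncomputable def fac (j : Fin n) : ℝ[X] :=
  ∏ i ∈ Finset.range ((j : ℕ) + 1), (C ((((j : ℕ) + 1 : ℕ) : ℝ)) * X + C (s j + i))

theorem lin_ne (m : ℕ) (c : ℝ) : (C (((m + 1 : ℕ) : ℝ)) * X + C c : ℝ[X]) ≠ 0 := by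
  intro h
  have := congrArg (fun g : ℝ[X] => g.coeff 1) h
  simp at this
  exact absurd this (by positivity)

theorem fac_ne (j : Fin n) : fac s j ≠ 0 := Finset.prod_ne_zero_iff.2 fun _ _ => lin_ne _ _

theorem Phi_fac (l : ℕ) (j : Fin n) : Phi l (fac s j) =
    Complex.exp (2 * Real.pi * Complex.I * l * (s j / ((j : ℕ) + 1 : ℕ))) *
      (if ((j : ℕ) + 1) ∣ l then (((j : ℕ) + 1 : ℕ) : ℂ) else 0) := by
  unfold fac
  rw [Phi_prod l _ _ (fun i => lin_ne _ _), ← sum_unity _ l (Nat.succ_pos j), Finset.mul_sum]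
  refine Finset.sum_congr rfl fun i _ => ?_
  have hne : ((((j : ℕ) + 1 : ℕ) : ℝ)) ≠ 0 := by positivity
  unfold Phi
  rw [roots_C_mul_X_add_C _ hne, Multiset.map_singleton, Multiset.sum_singleton, ← Complex.exp_add]
  congr 1
  push_cast
  field_simp

/-- the functions `Γ((j+1)t + s_j)` -/
noncomputable def hf (j : Fin n) (t : ℝ) : ℝ := Real.Gamma ((((j : ℕ) + 1 : ℕ) : ℝ) * t + s j)

theorem gamma_shift (x : ℝ) (hx : 0 < x) (m : ℕ) :
    Real.Gamma (x + m) = (∏ i ∈ Finset.range m, (x + i)) * Real.Gamma x := by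
  induction m with
  | zero => simp
  | succ m ih =>
    have h1 : x + m ≠ 0 := by positivity
    rw [Nat.cast_succ, ← add_assoc, Real.Gamma_add_one h1, ih, Finset.prod_range_succ]
    ring

theorem hf_shift (j : Fin n) {t : ℝ} (ht : 0 < (((j : ℕ) + 1 : ℕ) : ℝ) * t + s j) :
    hf s j (t + 1) = (fac s j).eval t * hf s j t := by
  unfold hf fac
  have e : (((j : ℕ) + 1 : ℕ) : ℝ) * (t + 1) + s j = ((((j : ℕ) + 1 : ℕ) : ℝ) * t + s j) + (((j : ℕ) + 1 : ℕ) : ℝ) := by ring
  rw [e, gamma_shift _ ht, eval_prod]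
  congr 1
  refine Finset.prod_congr rfl fun i _ => ?_
  simp only [eval_add, eval_mul, eval_C, eval_X]
  ring

/-- the factor of a monomial -/
noncomputable def mfac {d : ℕ} (e : Fin n → Fin (d + 1)) : ℝ[X] := ∏ j, fac s j ^ (e j : ℕ)

theorem mfac_ne {d : ℕ} (e : Fin n → Fin (d + 1)) : mfac s e ≠ 0 :=
  Finset.prod_ne_zero_iff.2 fun j _ => pow_ne_zero _ (fac_ne s j)

theorem mo_shift {d : ℕ} (e : Fin n → Fin (d + 1)) {t : ℝ} (ht : ∀ j : Fin n, 0 < (((j : ℕ) + 1 : ℕ) : ℝ) * t + s j) :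
    mo (hf s) e (t + 1) = (mfac s e).eval t * mo (hf s) e t := by
  unfold mo mfac
  rw [eval_prod, ← Finset.prod_mul_distrib]
  refine Finset.prod_congr rfl fun j _ => ?_
  rw [hf_shift s j (ht j), eval_pow, mul_pow]

/-- different monomials have inequivalent factors -/
theorem mfac_inj {d : ℕ} (e e' : Fin n → Fin (d + 1)) (u v : ℝ[X]) (hu : u ≠ 0) (hv : v ≠ 0)
    (h : sh u * mfac s e * v = u * (sh v * mfac s e')) : e = e' := by
  have hPhi : ∀ l : ℕ, ∑ j, ((e j : ℕ) : ℂ) * Phi l (fac s j) = ∑ j, ((e' j : ℕ) : ℂ) * Phi l (fac s j) := by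
    intro l
    have h1 := congrArg (Phi l) h
    rw [Phi_mul l (mul_ne_zero (sh_ne hu) (mfac_ne s e)) hv, Phi_mul l (sh_ne hu) (mfac_ne s e),
      Phi_mul l hu (mul_ne_zero (sh_ne hv) (mfac_ne s e')), Phi_mul l (sh_ne hv) (mfac_ne s e'), Phi_sh, Phi_sh] at h1
    have h2 : Phi l (mfac s e) = Phi l (mfac s e') := by linear_combination h1
    unfold mfac at h2
    rw [Phi_prod l _ _ (fun j => pow_ne_zero _ (fac_ne s j)), Phi_prod l _ _ (fun j => pow_ne_zero _ (fac_ne s j))] at h2
    simpa only [Phi_pow l (fac_ne s _)] using h2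
  have key : ∀ m : ℕ, ∀ j : Fin n, (j : ℕ) = m → e j = e' j := by
    intro m
    induction m using Nat.strong_induction_on with
    | _ m ih =>
      intro j hj
      have h1 := hPhi ((j : ℕ) + 1)
      have h2 : ∑ i, (((e i : ℕ) : ℂ) - ((e' i : ℕ) : ℂ)) * Phi ((j : ℕ) + 1) (fac s i) = 0 := by
        simp only [sub_mul, Finset.sum_sub_distrib]
        rw [h1, sub_self]
      rw [Finset.sum_eq_single j] at h2
      · rw [Phi_fac, if_pos (dvd_refl _)] at h2
        have h3 : Complex.exp (2 * Real.pi * Complex.I * (((j : ℕ) + 1 : ℕ) : ℂ) * (s j / ((j : ℕ) + 1 : ℕ))) ≠ 0 :=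
          Complex.exp_ne_zero _
        have h4 : ((((j : ℕ) + 1 : ℕ) : ℂ)) ≠ 0 := Nat.cast_ne_zero.2 (Nat.succ_ne_zero (j : ℕ))
        have h5 : ((e j : ℕ) : ℂ) - ((e' j : ℕ) : ℂ) = 0 := by
          rcases mul_eq_zero.1 h2 with h5 | h5
          · exact h5
          · exact absurd h5 (mul_ne_zero h3 h4)
        have h6 : ((e j : ℕ) : ℂ) = ((e' j : ℕ) : ℂ) := sub_eq_zero.1 h5
        exact Fin.ext (by exact_mod_cast h6)
      · intro i _ hij
        rcases lt_or_gt_of_ne (fun hh : (i : ℕ) = (j : ℕ) => hij (Fin.ext hh)) with hlt | hgt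
        · rw [ih i (hj ▸ hlt) i rfl, sub_self, zero_mul]
        · rw [Phi_fac, if_neg, mul_zero, mul_zero]
          intro hdvd
          have := Nat.le_of_dvd (Nat.succ_pos _) hdvd
          omega
      · simp
  funext j
  exact key j j rfl

theorem hf_an (j : Fin n) {t : ℝ} (h : 0 < (((j : ℕ) + 1 : ℕ) : ℝ) * t + s j) : AnalyticAt ℝ (hf s j) t := by
  have h1 : AnalyticAt ℝ (fun t : ℝ => (((j : ℕ) + 1 : ℕ) : ℝ) * t + s j) t :=
    (analyticAt_const.mul analyticAt_id).add analyticAt_const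
  exact AnalyticAt.comp (g := Real.Gamma) (f := fun t : ℝ => (((j : ℕ) + 1 : ℕ) : ℝ) * t + s j) (gamma_an h) h1

theorem harg_pos {a : ℝ} (ha : ∀ j : Fin n, 0 < (((j : ℕ) + 1 : ℕ) : ℝ) * a + s j) (j : Fin n) {t : ℝ} (ht : a ≤ t) :
    0 < (((j : ℕ) + 1 : ℕ) : ℝ) * t + s j := by
  have := mul_le_mul_of_nonneg_left ht (show (0 : ℝ) ≤ (((j : ℕ) + 1 : ℕ) : ℝ) by positivity)
  linarith [ha j]

/-- no relation with polynomial coefficients -/
theorem no_rel {d : ℕ} (a : ℝ) (ha : ∀ j : Fin n, 0 < (((j : ℕ) + 1 : ℕ) : ℝ) * a + s j) :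
    ∀ (N : ℕ) (p : (Fin n → Fin (d + 1)) → ℝ[X]), (Finset.univ.filter fun e => p e ≠ 0).card ≤ N →
      (∀ t, a ≤ t → ∑ e, (p e).eval t * mo (hf s) e t = 0) → p = 0 := by
  classical
  intro N
  induction N with
  | zero =>
    intro p hp _
    funext e
    by_contra he
    have h1 : e ∈ Finset.univ.filter fun e => p e ≠ 0 := by simpa using he
    rw [Finset.card_eq_zero.1 (Nat.le_zero.1 hp)] at h1
    exact absurd h1 (Finset.notMem_empty _)
  | succ N ih =>
    intro p hp h
    by_contra hp0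
    obtain ⟨e0, he0⟩ : ∃ e, p e ≠ 0 := by
      by_contra hcon
      push Not at hcon
      exact hp0 (funext hcon)
    set p' : (Fin n → Fin (d + 1)) → ℝ[X] := fun e =>
      sh (p e) * mfac s e * p e0 - p e * (sh (p e0) * mfac s e0) with hp'
    have h0 : p' = 0 := by
      refine ih p' ?_ ?_
      · have hsub : (Finset.univ.filter fun e => p' e ≠ 0) ⊆ (Finset.univ.filter fun e => p e ≠ 0).erase e0 := by
          intro e he
          rw [Finset.mem_filter] at he
          rw [Finset.mem_erase, Finset.mem_filter]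
          refine ⟨?_, Finset.mem_univ _, ?_⟩
          · rintro rfl
            apply he.2
            simp only [hp']
            ring
          · intro h1
            apply he.2
            simp [hp', h1, sh]
        have h1 := Finset.card_le_card hsub
        rw [Finset.card_erase_of_mem (by simp [he0])] at h1
        omega
      · intro t ht
        have h1 := h t ht
        have h2 := h (t + 1) (by linarith)
        have h3 : ∀ e, (p' e).eval t * mo (hf s) e t = (p e0).eval t * ((p e).eval (t + 1) * mo (hf s) e (t + 1)) -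
            ((p e0).eval (t + 1) * (mfac s e0).eval t) * ((p e).eval t * mo (hf s) e t) := by
          intro e
          rw [mo_shift s e (fun j => harg_pos s ha j ht)]
          simp only [hp', eval_sub, eval_mul, sh_eval]
          ring
        rw [Finset.sum_congr rfl fun e _ => h3 e, Finset.sum_sub_distrib, ← Finset.mul_sum, ← Finset.mul_sum, h1, h2,
          mul_zero, mul_zero, sub_zero]
    have hsupp : ∀ e, p e ≠ 0 → e = e0 := by
      intro e he
      have h1 := congrFun h0 e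
      simp only [hp', Pi.zero_apply] at h1
      exact mfac_inj s e e0 (p e) (p e0) he he0 (sub_eq_zero.1 h1)
    -- a single term
    have hz : ∀ t, a ≤ t → (p e0).eval t = 0 := by
      intro t ht
      have h1 := h t ht
      rw [Finset.sum_eq_single e0] at h1
      · rcases mul_eq_zero.1 h1 with h2 | h2
        · exact h2
        · exfalso
          refine (mo_pos (f := hf s) (t := t) (fun j => Real.Gamma_pos_of_pos (harg_pos s ha j ht)) e0).ne' h2
      · intro e _ he
        have : p e = 0 := by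
          by_contra hne
          exact he (hsupp e hne)
        rw [this, eval_zero, zero_mul]
      · simp
    apply he0
    refine Polynomial.eq_zero_of_infinite_isRoot _ (Set.Infinite.mono (s := Ici a) (fun t ht => hz t ht) (Set.Ici_infinite a))

theorem hf_ind (d : ℕ) (a b : ℝ) (ha : ∀ j : Fin n, 0 < (((j : ℕ) + 1 : ℕ) : ℝ) * a + s j) (hab : a < b) :
    FInd (hf s) d a b := by
  intro p hp
  exact no_rel s a ha _ p le_rfl (extend (hf s) a b (fun j t ht => hf_an s j (harg_pos s ha j ht)) hab p hp)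

end

end Pool.Agent.TH659.AQ
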